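import Pool.Agent.Mg.F54d89f.G529d67

section

/-! Ratios of binomial coefficients C(pa+pb,pa)/C(a+b,a). -/

namespace Pool.Agent.MP_54d89f_nt

open Finset

variable {p : ℕ} [hp : Fact p.Prime]

theorem p_odd (h5 : 5 ≤ p) : p = 2 * (p / 2) + 1 := by
  rcases hp.out.eq_two_or_odd with h | h <;> omega

theorem ntwo (h5 : 5 ≤ p) : ‖(2 : ℚ_[p])‖ = 1 := by
  have := nunit (p := p) (m := 2) fun h => by have := Nat.le_of_dvd (by norm_num) h; omega
  simpa using this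

theorem nlt {i : ℕ} (M : ℕ) (hi : i + 1 < p) : ‖(p : ℚ_[p]) * M + i + 1‖ = 1 := by
  have := nunit (p := p) (m := p * M + (i + 1)) fun h => by
    have := Nat.le_of_dvd (by omega) ((Nat.dvd_add_right (dvd_mul_right p M)).1 h); omega
  rw [← this]; push_cast; ring_nf

theorem nunit_of {x : ℚ_[p]} {k : ℕ} (h : ‖x - 1‖ ≤ ‖(p : ℚ_[p])‖ ^ (k + 1)) : ‖x‖ = 1 := by
  have h1 : ‖x - 1‖ < ‖(1 : ℚ_[p])‖ := by
    rw [norm_one]
    exact h.trans_lt (pow_lt_one₀ (norm_nonneg _) Padic.norm_p_lt_one (by omega))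
  have := IsUltrametricDist.norm_add_eq_max_of_norm_ne_norm h1.ne
  rw [sub_add_cancel, max_eq_right h1.le, norm_one] at this
  exact this

theorem ne_of_unit {x : ℚ_[p]} (h : ‖x‖ = 1) : x ≠ 0 := by
  rw [← norm_pos_iff, h]; norm_num

/-- inverse of the product of i+1 and p-i-1 -/
noncomputable def bb (p : ℕ) [Fact p.Prime] (i : ℕ) : ℚ_[p] :=
  (((i : ℚ_[p]) + 1) * ((p : ℚ_[p]) - (i + 1)))⁻¹

theorem nbb0 {i : ℕ} (hi : i + 1 < p) :
    ‖((i : ℚ_[p]) + 1) * ((p : ℚ_[p]) - (i + 1))‖ = 1 := by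
  obtain ⟨j, hj⟩ : ∃ j, p = i + 1 + j + 1 := ⟨p - (i + 1) - 1, by omega⟩
  have h1 := nlt (p := p) 0 hi
  have h2 := nlt (p := p) (i := j) 0 (by omega)
  have h3 : (p : ℚ_[p]) = (i : ℚ_[p]) + 1 + j + 1 := by exact_mod_cast congrArg (Nat.cast (R := ℚ_[p])) hj
  simp only [Nat.cast_zero, mul_zero, zero_add] at h1 h2
  rw [norm_mul, h1, one_mul, ← h2, show (p : ℚ_[p]) - (i + 1) = j + 1 by linear_combination h3]

theorem nbb {i : ℕ} (hi : i + 1 < p) : ‖bb p i‖ ≤ 1 := by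
  rw [bb, norm_inv, nbb0 hi, inv_one]

theorem prod_expand {s : Finset ℕ} {b : ℕ → ℚ_[p]} (hb : ∀ i ∈ s, ‖b i‖ ≤ 1) {X : ℕ → ℚ_[p]}
    (hX : IsT X) : ∃ t, IsT t ∧ ∀ n, 2 * ∏ i ∈ s, (1 + X n * b i) =
      2 + 2 * X n * (∑ i ∈ s, b i) + X n ^ 2 * ((∑ i ∈ s, b i) ^ 2 - ∑ i ∈ s, b i ^ 2) +
        X n ^ 3 * t n := by
  induction s using Finset.induction_on with
  | empty => exact ⟨fun _ => 0, IsT.const (by simp), fun n => by simp⟩
  | insert a s ha ih =>
    obtain ⟨t, ht, e⟩ := ih fun i hi => hb i (mem_insert_of_mem hi)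
    have h1 : ‖∑ i ∈ s, b i‖ ≤ 1 := IsUltrametricDist.norm_sum_le_of_forall_le_of_nonneg
      zero_le_one fun i hi => hb i (mem_insert_of_mem hi)
    have h2 : ‖∑ i ∈ s, b i ^ 2‖ ≤ 1 := IsUltrametricDist.norm_sum_le_of_forall_le_of_nonneg
      zero_le_one fun i hi => np1 (hb i (mem_insert_of_mem hi)) 2
    have h3 := hb a (mem_insert_self _ _)
    have h4 := nm1 h3 (nsub (np1 h1 2) h2)
    refine ⟨fun n => t n + b a * ((∑ i ∈ s, b i) ^ 2 - ∑ i ∈ s, b i ^ 2) + X n * b a * t n,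
      by fun_prop (disch := assumption), fun n => ?_⟩
    rw [prod_insert ha, sum_insert ha, sum_insert ha]
    linear_combination (1 + X n * b a) * e n

/-- normalised product of the units in a block of length p -/
noncomputable def ut (y : ℚ_[p]) : ℚ_[p] :=
  ∏ i ∈ range (p / 2), (1 + (p : ℚ_[p]) ^ 2 * (y * (y + 1)) * bb p i)

/-- first coefficient -/
noncomputable def eps (p : ℕ) [Fact p.Prime] : ℚ_[p] := (∑ i ∈ range (p / 2), bb p i) / p

/-- second coefficient -/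
noncomputable def eta (p : ℕ) [Fact p.Prime] : ℚ_[p] :=
  ((∑ i ∈ range (p / 2), bb p i) ^ 2 - ∑ i ∈ range (p / 2), bb p i ^ 2) / 2

theorem nbb' (_h5 : 5 ≤ p) : ∀ i ∈ range (p / 2), ‖bb p i‖ ≤ 1 := fun i hi =>
  nbb (by have := mem_range.1 hi; omega)

theorem neta (h5 : 5 ≤ p) : ‖eta p‖ ≤ 1 := by
  rw [eta, norm_div, ntwo h5, div_one]
  exact nsub (np1 (IsUltrametricDist.norm_sum_le_of_forall_le_of_nonneg zero_le_one (nbb' h5)) 2)
    (IsUltrametricDist.norm_sum_le_of_forall_le_of_nonneg zero_le_one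
      fun i hi => np1 (nbb' h5 i hi) 2)

/-- congruent to one plus the cube of p times g -/
def E (k : ℕ) (f g : ℕ → ℚ_[p]) : Prop :=
  IsT g ∧ O k (fun n => f n - 1 - (p : ℚ_[p]) ^ 3 * g n)

theorem E.three {k : ℕ} {f g : ℕ → ℚ_[p]} (h : E k f g) (hk : 3 ≤ k) : O 3 (fun n => f n - 1) :=
  ((h.2.mono hk).add (O.pp 3 h.1)).congr fun n => by ring

theorem E.isT {k : ℕ} {f g : ℕ → ℚ_[p]} (h : E k f g) : IsT f :=
  ((h.2.isT.add (O.pp 3 h.1).isT).add (IsT.const norm_one.le)).congr fun n => by ring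

theorem E.congr {k : ℕ} {f g f' g' : ℕ → ℚ_[p]} (h : E k f g) (h1 : ∀ n, f' n = f n)
    (h2 : ∀ n, g' n = g n) : E k f' g' := by
  rwa [show f' = f from funext h1, show g' = g from funext h2]

theorem E.mul {k : ℕ} {f g f' g' : ℕ → ℚ_[p]} (h : E k f g) (h' : E k f' g') (hk : 3 ≤ k)
    (hk' : k ≤ 6) : E k (fun n => f n * f' n) (fun n => g n + g' n) :=
  ⟨h.1.add h'.1, ((h.2.add h'.2).add (((h.three hk).mul (h'.three hk)).mono hk')).congr
    fun n => by ring⟩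

theorem E.inv {k : ℕ} {f g : ℕ → ℚ_[p]} (h : E k f g) (hi : IsT (fun n => (f n)⁻¹)) (hk : 3 ≤ k)
    (hk' : k ≤ 6) : E k (fun n => (f n)⁻¹) (fun n => - g n) :=
  ⟨h.1.neg, (((((h.three hk).mul (h.three hk)).mulT hi).mono hk').sub h.2).congr fun n => by
    have : f n ≠ 0 := ne_of_unit (nunit_of ((h.three hk).pt n))
    field_simp
    ring⟩

theorem ut_E (h5 : 5 ≤ p) (he : ‖eps p‖ ≤ 1) {y : ℕ → ℚ_[p]} (hy : IsT y) :
    E 6 (fun n => ut (y n))
      (fun n => eps p * (y n * (y n + 1)) + p * eta p * (y n * (y n + 1)) ^ 2) := by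
  have h1 : ‖(1 : ℚ_[p])‖ ≤ 1 := norm_one.le
  have h2 := np1 (nnat (p := p) p) 2
  have h3 := nm1 (nnat p) (neta h5)
  have h4 : ‖(2 : ℚ_[p])⁻¹‖ ≤ 1 := by rw [norm_inv, ntwo h5, inv_one]
  obtain ⟨t, ht, e⟩ := prod_expand (nbb' h5) (X := fun n => (p : ℚ_[p]) ^ 2 * (y n * (y n + 1)))
    (by fun_prop (disch := assumption))
  refine ⟨by fun_prop (disch := assumption), fun n => 2⁻¹ * (y n * (y n + 1)) ^ 3 * t n,
    by fun_prop (disch := assumption), fun n => ?_⟩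
  have := e n
  have hP := P_ne (p := p)
  simp only [ut, eps, eta]
  field_simp
  field_simp at this
  linear_combination this

theorem ut_unit (h5 : 5 ≤ p) (he : ‖eps p‖ ≤ 1) (a : ℕ) : ‖ut (a : ℚ_[p])‖ = 1 :=
  nunit_of (((ut_E h5 he IsT.cast).three (by norm_num)).pt a)

theorem ut_PP (h5 : 5 ≤ p) (a b : ℕ) :
    (fun n : ℕ => ut ((a : ℚ_[p]) * (n : ℚ_[p]) + (b : ℚ_[p]))) ∈ PP p := by
  have h1 := (PP p).add_mem ((PP p).mul_mem (PP_const (nnat a)) PP_lin)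
    (PP_const (nm1 (nnat (p := p) p) (nnat b)))
  have h2 := (PP p).prod_mem (t := range (p / 2)) fun i hi => (PP p).add_mem (PP p).one_mem
    ((PP p).mul_mem ((PP p).mul_mem h1 ((PP p).add_mem h1 (PP_const (nnat p))))
      (PP_const (nbb' h5 i hi)))
  convert h2 using 1
  funext n
  simp only [ut, Finset.prod_apply, Pi.add_apply, Pi.mul_apply, Pi.one_apply]
  exact prod_congr rfl fun i _ => by ring

theorem prod_pair (h : ℕ) (x : ℚ_[p]) : ∏ i ∈ range (2 * h), (x + i + 1) =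
    ∏ i ∈ range h, ((x + i + 1) * (x + 2 * h - i)) := by
  induction h generalizing x with
  | zero => simp
  | succ h ih =>
    have := ih (x + 1)
    rw [show 2 * (h + 1) = 2 * h + 1 + 1 by ring, prod_range_succ, prod_range_succ',
      prod_range_succ' _ h]
    have e1 : ∏ i ∈ range (2 * h), (x + ((i + 1 : ℕ) : ℚ_[p]) + 1) =
        ∏ i ∈ range (2 * h), (x + 1 + i + 1) := prod_congr rfl fun i _ => by push_cast; ring
    have e2 : ∏ i ∈ range h, ((x + ((i + 1 : ℕ) : ℚ_[p]) + 1) *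
        (x + 2 * ((h + 1 : ℕ) : ℚ_[p]) - ((i + 1 : ℕ) : ℚ_[p]))) =
        ∏ i ∈ range h, ((x + 1 + i + 1) * (x + 1 + 2 * h - i)) :=
      prod_congr rfl fun i _ => by push_cast; ring
    rw [e1, e2, this]
    push_cast
    ring

theorem block (h5 : 5 ≤ p) (y : ℚ_[p]) : ∏ i ∈ range (p - 1), ((p : ℚ_[p]) * y + i + 1) =
    (∏ i ∈ range (p - 1), ((i : ℚ_[p]) + 1)) * ut y := by
  have ho := p_odd h5
  have h1 : p - 1 = 2 * (p / 2) := by omega
  have h2 : (p : ℚ_[p]) = 2 * ((p / 2 : ℕ) : ℚ_[p]) + 1 := by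
    exact_mod_cast congrArg (Nat.cast (R := ℚ_[p])) ho
  have h3 := prod_pair (p := p) (p / 2) 0
  simp only [zero_add] at h3
  rw [h1, prod_pair, h3, ut, ← prod_mul_distrib]
  refine prod_congr rfl fun i hi => ?_
  have h4 := ne_of_unit (nbb0 (p := p) (i := i) (by have := mem_range.1 hi; omega))
  have h6 : 2 * ((p / 2 : ℕ) : ℚ_[p]) = p - 1 := by linear_combination -h2
  have h7 := mul_inv_cancel₀ h4
  rw [bb, add_sub_assoc ((p : ℚ_[p]) * y), h6]
  linear_combination (-(p : ℚ_[p]) ^ 2 * (y * (y + 1))) * h7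

/-- product of the normalised blocks -/
noncomputable def Ut (p : ℕ) [Fact p.Prime] (a : ℕ) : ℚ_[p] := ∏ m ∈ range a, ut (m : ℚ_[p])

theorem Ut_unit (h5 : 5 ≤ p) (he : ‖eps p‖ ≤ 1) (a : ℕ) : ‖Ut p a‖ = 1 := by
  rw [Ut, norm_prod]
  exact prod_eq_one fun m _ => ut_unit h5 he m

theorem fac_pmul (h5 : 5 ≤ p) (a : ℕ) : ((p * a).factorial : ℚ_[p]) =
    (p * ∏ i ∈ range (p - 1), ((i : ℚ_[p]) + 1)) ^ a * a.factorial * Ut p a := by
  induction a with
  | zero => simp [Ut]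
  | succ a ih =>
    have h1 : p * (a + 1) = p * a + (p - 1) + 1 := by rw [Nat.mul_succ]; omega
    have h2 : (((p * a + (p - 1)).factorial : ℕ) : ℚ_[p]) =
        (p * a).factorial * ∏ i ∈ range (p - 1), ((p : ℚ_[p]) * a + i + 1) := by
      rw [← Finset.prod_range_add_one_eq_factorial, prod_range_add,
        Finset.prod_range_add_one_eq_factorial]
      push_cast
      rfl
    have h3 := Nat.factorial_succ (p * a + (p - 1))
    rw [← h1] at h3
    rw [h3, Nat.cast_mul, h2, ih, block h5, Ut, Ut, prod_range_succ, Nat.factorial_succ]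
    push_cast
    ring

/-- the ratio of binomial coefficients -/
noncomputable def tau (p : ℕ) [Fact p.Prime] (a b : ℕ) : ℚ_[p] :=
  Ut p (a + b) / (Ut p a * Ut p b)

theorem choose_pmul (h5 : 5 ≤ p) (he : ‖eps p‖ ≤ 1) (a b : ℕ) :
    ((p * a + p * b).choose (p * a) : ℚ_[p]) = ((a + b).choose a : ℚ_[p]) * tau p a b := by
  have h1 : (p : ℚ_[p]) * ∏ i ∈ range (p - 1), ((i : ℚ_[p]) + 1) ≠ 0 :=
    mul_ne_zero P_ne (prod_ne_zero_iff.2 fun i _ => by exact_mod_cast Nat.succ_ne_zero i)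
  have h2 := fun a => ne_of_unit (Ut_unit h5 he a)
  have h3 : ∀ k : ℕ, (k.factorial : ℚ_[p]) ≠ 0 := fun k => by exact_mod_cast k.factorial_ne_zero
  rw [Nat.cast_add_choose, Nat.cast_add_choose, ← mul_add, fac_pmul h5, fac_pmul h5, fac_pmul h5,
    tau, pow_add]
  have := h2 a
  have := h2 b
  have := h3 a
  have := h3 b
  generalize (p : ℚ_[p]) * ∏ i ∈ range (p - 1), ((i : ℚ_[p]) + 1) = c at h1
  field_simp

theorem tau_zero (h5 : 5 ≤ p) (he : ‖eps p‖ ≤ 1) (a : ℕ) : tau p a 0 = 1 := by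
  have := ne_of_unit (Ut_unit h5 he a)
  rw [tau, add_zero, show Ut p 0 = 1 by simp [Ut], mul_one, div_self this]

theorem zero_tau (h5 : 5 ≤ p) (he : ‖eps p‖ ≤ 1) (a : ℕ) : tau p 0 a = 1 := by
  have := ne_of_unit (Ut_unit h5 he a)
  rw [tau, zero_add, show Ut p 0 = 1 by simp [Ut], one_mul, div_self this]

theorem ut_E4 (h5 : 5 ≤ p) (he : ‖eps p‖ ≤ 1) {y : ℕ → ℚ_[p]} (hy : IsT y) :
    E 4 (fun n => ut (y n)) (fun n => eps p * (y n * (y n + 1))) := by
  have h1 : ‖(1 : ℚ_[p])‖ ≤ 1 := norm_one.le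
  have h3 := neta h5
  refine ⟨by fun_prop (disch := assumption), (((ut_E h5 he hy).2.mono (by norm_num)).add
    (O.pp 4 (f := fun n => eta p * (y n * (y n + 1)) ^ 2) (by fun_prop (disch := assumption)))).congr
      fun n => by ring⟩

theorem tau_E (h5 : 5 ≤ p) (he : ‖eps p‖ ≤ 1) (M : ℕ) :
    E 4 (fun n => tau p n M) (fun n : ℕ => eps p * ((n : ℚ_[p]) * M * (n + M))) := by
  induction M with
  | zero =>
    exact ⟨(IsT.const (c := 0) (by simp)).congr fun n => by simp,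
      (O.zero 4).congr fun n => by simp [tau_zero h5 he]⟩
  | succ M ih =>
    have h1 := ut_E4 h5 he (IsT.cast.add (IsT.const (nnat M)))
    have h2 := (ut_E4 h5 he (IsT.const (nnat M))).inv
      (IsT.const (by rw [norm_inv, ut_unit h5 he, inv_one])) (by norm_num) (by norm_num)
    refine ((ih.mul h1 (by norm_num) (by norm_num)).mul h2 (by norm_num) (by norm_num)).congr
      (fun n => ?_) (fun n => by push_cast; ring)
    simp only [tau, ← add_assoc, Ut, prod_range_succ]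
    push_cast
    ring

end Pool.Agent.MP_54d89f_nt

end

section

/-! The diagonal ratio C(2pn,pn)/C(2n,n). -/

namespace Pool.Agent.MP_54d89f_nt

open Finset

variable {p : ℕ} [hp : Fact p.Prime]

theorem nof (m : ℕ) [m.AtLeastTwo] : ‖(OfNat.ofNat m : ℚ_[p])‖ ≤ 1 := nnat m

theorem rho_E (h5 : 5 ≤ p) (he : ‖eps p‖ ≤ 1) :
    E 4 (fun n => tau p n n) (fun n : ℕ => 2 * eps p * (n : ℚ_[p]) ^ 3) := by
  have h1 : ‖(1 : ℚ_[p])‖ ≤ 1 := norm_one.le
  have h2 : ‖(2 : ℚ_[p])‖ ≤ 1 := nof 2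
  have h6 : ‖(6 : ℚ_[p])‖ ≤ 1 := nof 6
  have h3 := neta h5
  have h4 := nm1 (nnat (p := p) p) h3
  have h7 := nm1 h2 he
  set r : ℕ → ℚ_[p] := fun n => ut (2 * (n : ℚ_[p])) * ut (2 * (n : ℚ_[p]) + 1) *
    (ut (n : ℚ_[p]))⁻¹ * (ut (n : ℚ_[p]))⁻¹ with hr
  set g : ℕ → ℚ_[p] := fun n => 2 * eps p * (n : ℚ_[p]) ^ 3 +
    p * eta p * (6 * (n : ℚ_[p]) ^ 5 - 2 * (n : ℚ_[p]) ^ 3) with hg
  have hgT : IsT g := by simp only [hg]; fun_prop (disch := assumption)
  have i1 : (fun n : ℕ => (ut (n : ℚ_[p]))⁻¹) ∈ PP p :=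
    PP_inv (by simpa using ut_PP h5 1 0) (ut_unit h5 he)
  have rP : r ∈ PP p := by
    have a1 : (fun n : ℕ => ut (2 * (n : ℚ_[p]))) ∈ PP p := by simpa using ut_PP h5 2 0
    have a2 : (fun n : ℕ => ut (2 * (n : ℚ_[p]) + 1)) ∈ PP p := by simpa using ut_PP h5 2 1
    exact (PP p).mul_mem ((PP p).mul_mem ((PP p).mul_mem a1 a2) i1) i1
  have rE : E 6 r (fun n => g (n + 1) - g n) := by
    have a1 := ut_E h5 he (y := fun n : ℕ => 2 * (n : ℚ_[p])) (by fun_prop (disch := assumption))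
    have a2 := ut_E h5 he (y := fun n : ℕ => 2 * (n : ℚ_[p]) + 1)
      (by fun_prop (disch := assumption))
    have a3 := (ut_E h5 he IsT.cast).inv (PP_TT i1) (by norm_num) le_rfl
    refine (((a1.mul a2 (by norm_num) le_rfl).mul a3 (by norm_num) le_rfl).mul a3 (by norm_num)
      le_rfl).congr (fun n => rfl) fun n => ?_
    simp only [hg]
    push_cast
    ring
  have hrec : ∀ n, tau p (n + 1) (n + 1) = tau p n n * r n := fun n => by
    simp only [tau, hr, show n + 1 + (n + 1) = n + n + 1 + 1 by ring, Ut, prod_range_succ]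
    push_cast
    rw [show (n : ℚ_[p]) + n = 2 * n by ring]
    ring
  have pt : ∀ n, E 6 (fun _ => tau p n n) (fun _ => g n) := by
    intro n
    induction n with
    | zero =>
      exact ⟨IsT.const (TT_pt hgT 0), (O.zero 6).congr fun _ => by simp [hg, tau_zero h5 he]⟩
    | succ n ih =>
      have a1 : E 6 (fun _ => r n) (fun _ => g (n + 1) - g n) :=
        ⟨IsT.const (TT_pt rE.1 n), O.const (rE.2.pt n)⟩
      exact (ih.mul a1 (by norm_num) le_rfl).congr (fun _ => hrec n) fun _ => by ring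
  have q1 : QQ (fun n => tau p n n) :=
    QQ_rec (fun n => TT_pt (pt n).isT 0) rP ((rE.three (by norm_num)).pt) hrec
  have l3 := (PP p).pow_mem (PP_lin (p := p)) 3
  have q2 := PP_QQ ((PP p).sub_mem ((PP p).add_mem (PP p).one_mem ((PP p).mul_mem (PP_const h7) l3))
    ((PP p).mul_mem (PP_const (nm1 h2 h4)) l3))
  have q3 := QQ_lin ((PP p).mul_mem (PP_const (nm1 h6 h3)) ((PP p).pow_mem (PP_lin (p := p)) 4))
    (fun n => ((O.pp 4 (f := fun n : ℕ => 6 * eta p * (n : ℚ_[p]) ^ 4)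
      (by have := nm1 h6 h3; fun_prop (disch := assumption))).congr
        fun n => by simp only [Pi.mul_apply, Pi.pow_apply]; ring).pt n)
  obtain ⟨t, ht, e⟩ := QQ_four h5 (QQ_sub (QQ_sub q1 q2) q3) fun n => by
    refine le_trans (le_of_eq ?_) (((pt n).2.mono (by norm_num : 5 ≤ 6)).pt 0)
    congr 1
    simp only [Pi.mul_apply, Pi.pow_apply, Pi.sub_apply, Pi.add_apply, Pi.one_apply, hg]
    ring
  have ht' : IsT t := ht
  refine ⟨by fun_prop (disch := assumption),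
    fun n => t n + eta p * (6 * (n : ℚ_[p]) ^ 5 - 2 * (n : ℚ_[p]) ^ 3),
    by fun_prop (disch := assumption), fun n => ?_⟩
  have := e n
  simp only [Pi.mul_apply, Pi.pow_apply, Pi.sub_apply, Pi.add_apply, Pi.one_apply] at this
  linear_combination this

theorem prod_est {ι : Type} {s : Finset ι} {x : ι → ℚ_[p]} {d : ℝ} (hd : 0 ≤ d) (hd1 : d ≤ 1)
    (hx : ∀ i ∈ s, ‖x i‖ ≤ d) : ‖∏ i ∈ s, (1 + x i) - 1 - ∑ i ∈ s, x i‖ ≤ d ^ 2 := by
  classical
  induction s using Finset.induction_on with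
  | empty => simp [sq_nonneg]
  | insert a s ha ih =>
    have h1 := ih fun i hi => hx i (mem_insert_of_mem hi)
    have h2 := hx a (mem_insert_self _ _)
    have h3 : ‖∑ i ∈ s, x i‖ ≤ d := IsUltrametricDist.norm_sum_le_of_forall_le_of_nonneg hd
      fun i hi => hx i (mem_insert_of_mem hi)
    rw [prod_insert ha, sum_insert ha, show (1 + x a) * ∏ i ∈ s, (1 + x i) - 1 - (x a + ∑ i ∈ s, x i)
      = (1 + x a) * (∏ i ∈ s, (1 + x i) - 1 - ∑ i ∈ s, x i) + x a * ∑ i ∈ s, x i by ring]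
    refine nadd ?_ ?_
    · rw [norm_mul]
      exact (mul_le_of_le_one_left (norm_nonneg _) (nadd norm_one.le (h2.trans hd1))).trans h1
    · rw [norm_mul, sq]
      exact mul_le_mul h2 h3 (norm_nonneg _) hd

/-- sum of inverse squares of the integers below L that are prime to p -/
noncomputable def FF (p : ℕ) [Fact p.Prime] (L : ℕ) : ℚ_[p] :=
  ∑ j ∈ (range L).filter (fun j => ¬ p ∣ j), ((j : ℚ_[p]) ^ 2)⁻¹

theorem FF_add (M l : ℕ) (hl : l < p) : FF p (p * M + l + 1) =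
    FF p (p * M) + ∑ i ∈ range l, (((p : ℚ_[p]) * M + i + 1) ^ 2)⁻¹ := by
  induction l with
  | zero => simp [FF, sum_filter, sum_range_succ]
  | succ l ih =>
    have h : ¬ p ∣ p * M + (l + 1) := fun h => by
      have := Nat.le_of_dvd (by omega) ((Nat.dvd_add_right (dvd_mul_right p M)).1 h); omega
    rw [sum_range_succ, ← add_assoc (FF p (p * M)), ← ih (by omega), FF, FF, sum_filter, sum_filter,
      sum_range_succ _ (p * M + (l + 1)), if_pos h]
    push_cast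
    rw [add_assoc ((p : ℚ_[p]) * M), add_assoc (p * M)]

theorem FF_succ (M : ℕ) : FF p (p * (M + 1)) =
    FF p (p * M) + ∑ i ∈ range (p - 1), (((p : ℚ_[p]) * M + i + 1) ^ 2)⁻¹ := by
  have := hp.out.pos
  rw [← FF_add M (p - 1) (by omega), Nat.mul_succ]
  congr 1
  omega

theorem FF_mul (n : ℕ) : FF p (p * n) =
    ∑ m ∈ range n, ∑ i ∈ range (p - 1), (((p : ℚ_[p]) * m + i + 1) ^ 2)⁻¹ := by
  induction n with
  | zero => simp [FF]
  | succ n ih => rw [FF_succ, ih, sum_range_succ]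

theorem rho_small (h5 : 5 ≤ p) (he : ‖eps p‖ ≤ 1) (n : ℕ)
    (hF : ‖FF p (p * n)‖ ≤ ‖(p : ℚ_[p]) * n‖) : ‖tau p n n - 1‖ ≤ ‖(p : ℚ_[p]) * n‖ ^ 3 := by
  set N : ℚ_[p] := (p : ℚ_[p]) * n with hN
  have hN1 : ‖N‖ ≤ ‖(p : ℚ_[p])‖ ^ (0 + 1) := by
    rw [hN, mul_comm]; simpa using nmul_nat n (le_refl ‖(p : ℚ_[p])‖)
  have hN2 : ‖N‖ ≤ 1 := nm1 (nnat p) (nnat n)
  set j : ℕ × ℕ → ℚ_[p] := fun a => (p : ℚ_[p]) * a.1 + a.2 + 1 with hj
  have ju : ∀ a ∈ range n ×ˢ range (p - 1), ‖j a‖ = 1 := fun a ha =>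
    nlt a.1 (by have := mem_range.1 (mem_product.1 ha).2; omega)
  have ju' : ∀ a ∈ range n ×ˢ range (p - 1), ‖N - j a‖ = 1 := fun a ha => by
    have h0 := ne_of_unit (ju a ha)
    have h1 : ‖1 - N / j a‖ = 1 := nunit_of (k := 0) (by
      rw [sub_sub_cancel_left, norm_neg, norm_div, ju a ha, div_one]; exact hN1)
    rw [show N - j a = -(j a * (1 - N / j a)) by field_simp; ring, norm_neg, norm_mul, h1, ju a ha,
      one_mul]
  have hc : ∏ i ∈ range (p - 1), ((i : ℚ_[p]) + 1) ≠ 0 :=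
    prod_ne_zero_iff.2 fun i _ => by exact_mod_cast Nat.succ_ne_zero i
  have e1 : tau p n n = ∏ m ∈ range n, ∏ i ∈ range (p - 1), (1 + N / j (m, i)) := by
    have := ne_of_unit (Ut_unit h5 he n)
    rw [tau, Ut, prod_range_add, ← Ut, mul_div_mul_left _ _ this, Ut, ← prod_div_distrib]
    refine prod_congr rfl fun m hm => ?_
    rw [← mul_div_mul_left _ _ hc, ← block h5, ← block h5, ← prod_div_distrib]
    refine prod_congr rfl fun i hi => ?_
    have := ne_of_unit (ju (m, i) (mem_product.2 ⟨hm, hi⟩))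
    simp only [hj, hN] at this ⊢
    push_cast
    field_simp
    ring
  have e2 : tau p n n = ∏ m ∈ range n, ∏ i ∈ range (p - 1), (1 + N / (N - j (m, i))) := by
    rw [e1, ← prod_range_reflect]
    refine prod_congr rfl fun m hm => ?_
    rw [← prod_range_reflect]
    refine prod_congr rfl fun i hi => ?_
    obtain ⟨a, ha⟩ : ∃ a, n = m + a + 1 := ⟨n - 1 - m, by have := mem_range.1 hm; omega⟩
    obtain ⟨b, hb⟩ : ∃ b, p = i + b + 2 := ⟨p - 1 - 1 - i, by have := mem_range.1 hi; omega⟩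
    have ha' : (n : ℚ_[p]) = m + a + 1 := by exact_mod_cast congrArg (Nat.cast (R := ℚ_[p])) ha
    have hb' : (p : ℚ_[p]) = i + b + 2 := by exact_mod_cast congrArg (Nat.cast (R := ℚ_[p])) hb
    rw [show n - 1 - m = a by omega, show p - 1 - 1 - i = b by omega]
    simp only [hj, hN]
    congr 2
    linear_combination -(p : ℚ_[p]) * ha' - hb'
  have e3 : tau p n n * tau p n n =
      ∏ a ∈ range n ×ˢ range (p - 1), (1 + 2 * N ^ 2 * (j a * (N - j a))⁻¹) := by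
    rw [prod_product]
    nth_rewrite 1 [e1]
    rw [e2, ← prod_mul_distrib]
    refine prod_congr rfl fun m hm => ?_
    rw [← prod_mul_distrib]
    refine prod_congr rfl fun i hi => ?_
    have h1 := ne_of_unit (ju (m, i) (mem_product.2 ⟨hm, hi⟩))
    have h2 := ne_of_unit (ju' (m, i) (mem_product.2 ⟨hm, hi⟩))
    field_simp
    ring
  have b1 := prod_est (s := range n ×ˢ range (p - 1))
    (x := fun a => 2 * N ^ 2 * (j a * (N - j a))⁻¹) (d := ‖N‖ ^ 2) (by positivity)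
    (pow_le_one₀ (norm_nonneg _) hN2) fun a ha => by
      rw [norm_mul, norm_mul, norm_inv, norm_mul, ju a ha, ju' a ha, ntwo h5, norm_pow]; simp
  have b2 : ‖∑ a ∈ range n ×ˢ range (p - 1), (j a * (N - j a))⁻¹‖ ≤ ‖N‖ := by
    have : ∑ a ∈ range n ×ˢ range (p - 1), (j a * (N - j a))⁻¹ =
        ∑ a ∈ range n ×ˢ range (p - 1), N / (j a ^ 2 * (N - j a)) - FF p (p * n) := by
      rw [FF_mul, ← sum_product' (f := fun m i : ℕ => (((p : ℚ_[p]) * m + i + 1) ^ 2)⁻¹),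
        ← sum_sub_distrib]
      refine sum_congr rfl fun a ha => ?_
      have h1 := ne_of_unit (ju a ha)
      have h2 := ne_of_unit (ju' a ha)
      change _ = _ - (j a ^ 2)⁻¹
      field_simp
      ring
    rw [this]
    refine nsub (IsUltrametricDist.norm_sum_le_of_forall_le_of_nonneg (norm_nonneg _)
      fun a ha => ?_) hF
    rw [norm_div, norm_mul (j a ^ 2), norm_pow, ju a ha, ju' a ha]; simp
  have b3 : ‖tau p n n * tau p n n - 1‖ ≤ ‖N‖ ^ 3 := by
    rw [← e3, ← mul_sum] at b1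
    rw [← sub_add_cancel (tau p n n * tau p n n - 1)
      (2 * N ^ 2 * ∑ a ∈ range n ×ˢ range (p - 1), (j a * (N - j a))⁻¹)]
    refine nadd (b1.trans ?_) ?_
    · rw [← pow_mul]; exact pow_le_pow_of_le_one (norm_nonneg _) hN2 (by norm_num)
    · rw [norm_mul, norm_mul, ntwo h5, one_mul, norm_pow, pow_succ _ 2]
      gcongr
  have b4 : ‖(tau p n n + 1) / 2‖ = 1 := nunit_of (k := 2) (by
    rw [show (tau p n n + 1) / 2 - 1 = (tau p n n - 1) / 2 by ring, norm_div, ntwo h5, div_one]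
    exact ((rho_E h5 he).three (by norm_num)).pt n)
  rw [norm_div, ntwo h5, div_one] at b4
  rwa [show tau p n n * tau p n n - 1 = (tau p n n + 1) * (tau p n n - 1) by ring, norm_mul, b4,
    one_mul] at b3

end Pool.Agent.MP_54d89f_nt

end

section

/-! The WZ pair and its terms on the residue blocks. -/

namespace Pool.Agent.MP_54d89f_nt

open Finset

variable {p : ℕ} [hp : Fact p.Prime]

/-- the hypergeometric term -/
noncomputable def kap (p : ℕ) [Fact p.Prime] (N L : ℕ) : ℚ_[p] :=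
  ((N + N).choose N : ℚ_[p]) * ((N + L).choose N : ℚ_[p]) ^ 2

/-- the sum with parameter -/
noncomputable def Psi (p : ℕ) [Fact p.Prime] (N L : ℕ) : ℚ_[p] :=
  ∑ n ∈ range N, (3 * (n : ℚ_[p]) + 2 * L + 2) * kap p n L

theorem cs_ne (a : ℕ) : (a : ℚ_[p]) + 1 ≠ 0 := by exact_mod_cast Nat.succ_ne_zero a

theorem kap_ne (N L : ℕ) : kap p N L ≠ 0 := by
  have h1 := (Nat.choose_pos (Nat.le_add_right N N)).ne'
  have h2 := (Nat.choose_pos (Nat.le_add_right N L)).ne'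
  exact mul_ne_zero (by exact_mod_cast h1) (pow_ne_zero _ (by exact_mod_cast h2))

theorem kap_L (N L : ℕ) : kap p N (L + 1) * ((L : ℚ_[p]) + 1) ^ 2 =
    kap p N L * ((N : ℚ_[p]) + L + 1) ^ 2 := by
  have h := Nat.choose_mul_succ_eq (N + L) N
  rw [show N + L + 1 - N = L + 1 by omega] at h
  have h' : ((N + L).choose N : ℚ_[p]) * (N + L + 1) = ((N + (L + 1)).choose N : ℚ_[p]) * (L + 1) := by
    exact_mod_cast congrArg (Nat.cast (R := ℚ_[p])) h
  simp only [kap]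
  rw [mul_assoc, ← mul_pow, ← h']
  ring

theorem kap_N (N L : ℕ) : kap p (N + 1) L * ((N : ℚ_[p]) + 1) ^ 3 =
    kap p N L * (2 * (2 * N + 1) * ((N : ℚ_[p]) + L + 1) ^ 2) := by
  have h := Nat.add_one_mul_choose_eq (N + L) N
  have h' : ((N : ℚ_[p]) + L + 1) * ((N + L).choose N : ℚ_[p]) =
      ((N + 1 + L).choose (N + 1) : ℚ_[p]) * (N + 1) := by
    rw [show N + 1 + L = N + L + 1 by ring]
    exact_mod_cast congrArg (Nat.cast (R := ℚ_[p])) h
  have h2 := Nat.succ_mul_centralBinom_succ N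
  rw [Nat.centralBinom_eq_two_mul_choose, Nat.centralBinom_eq_two_mul_choose, two_mul (N + 1),
    two_mul N] at h2
  have h2' : ((N : ℚ_[p]) + 1) * ((N + 1 + (N + 1)).choose (N + 1) : ℚ_[p]) =
      2 * (N + N + 1) * ((N + N).choose N : ℚ_[p]) := by
    exact_mod_cast congrArg (Nat.cast (R := ℚ_[p])) h2
  simp only [kap]
  calc _ = (((N : ℚ_[p]) + 1) * ((N + 1 + (N + 1)).choose (N + 1) : ℚ_[p])) *
      (((N + 1 + L).choose (N + 1) : ℚ_[p]) * (N + 1)) ^ 2 := by ring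
    _ = _ := by rw [h2', ← h']; ring

theorem Psi_zero (N : ℕ) : Psi p N 0 = N * kap p N 0 := by
  induction N with
  | zero => simp [Psi]
  | succ N ih =>
    rw [Psi, sum_range_succ, ← Psi, ih]
    have h := kap_N (p := p) N 0
    have h1 := cs_ne (p := p) N
    apply mul_right_cancel₀ (pow_ne_zero 2 h1)
    push_cast at h ⊢
    linear_combination -h

theorem Psi_succ (N L : ℕ) : Psi p N (L + 1) =
    Psi p N L + (N : ℚ_[p]) ^ 3 * kap p N L / ((L : ℚ_[p]) + 1) ^ 2 := by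
  induction N with
  | zero => simp [Psi]
  | succ N ih =>
    rw [Psi, sum_range_succ, ← Psi, ih, Psi, Psi, sum_range_succ]
    have h := kap_N (p := p) N L
    have h2 := kap_L (p := p) N L
    have h1 := cs_ne (p := p) L
    push_cast
    field_simp
    linear_combination -h + (3 * N + 2 * L + 4) * h2

theorem kap_pmul (h5 : 5 ≤ p) (he : ‖eps p‖ ≤ 1) (n M : ℕ) :
    kap p (p * n) (p * M) = kap p n M * (tau p n n * tau p n M ^ 2) := by
  rw [kap, kap, choose_pmul h5 he, choose_pmul h5 he]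
  ring

/-- ratio of terms along a block -/
noncomputable def yy (p : ℕ) [Fact p.Prime] (M i n : ℕ) : ℚ_[p] :=
  ∏ j ∈ range i, (1 + (p : ℚ_[p]) * n * ((p : ℚ_[p]) * M + j + 1)⁻¹) ^ 2

theorem pm_ne (M j : ℕ) : (p : ℚ_[p]) * M + j + 1 ≠ 0 := by
  have := cs_ne (p := p) (p * M + j)
  push_cast at this
  exact this

theorem kap_yy (n M i : ℕ) : kap p (p * n) (p * M + i) = kap p (p * n) (p * M) * yy p M i n := by
  induction i with
  | zero => simp [yy]
  | succ i ih =>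
    have h := kap_L (p := p) (p * n) (p * M + i)
    have h1 := pm_ne (p := p) M i
    rw [yy, prod_range_succ, ← yy, ← mul_assoc, ← ih, ← add_assoc]
    push_cast at h
    field_simp
    linear_combination h

/-- block sums -/
noncomputable def SS (p : ℕ) [Fact p.Prime] (M l n : ℕ) : ℚ_[p] :=
  ∑ i ∈ range l, yy p M i n * (((p : ℚ_[p]) * M + i + 1) ^ 2)⁻¹

theorem Psi_add (n M l : ℕ) : Psi p (p * n) (p * M + l) =
    Psi p (p * n) (p * M) + ((p : ℚ_[p]) * n) ^ 3 * kap p (p * n) (p * M) * SS p M l n := by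
  induction l with
  | zero => simp [SS]
  | succ l ih =>
    rw [← add_assoc, Psi_succ, ih, kap_yy, SS, SS, sum_range_succ]
    push_cast
    ring

theorem inv_est {i : ℕ} (M : ℕ) (hi : i + 1 < p) :
    ‖((p : ℚ_[p]) * M + i + 1)⁻¹ - ((i : ℚ_[p]) + 1)⁻¹‖ ≤ ‖(p : ℚ_[p])‖ ^ 1 := by
  have h1 := nlt (p := p) M hi
  have h2 := nlt (p := p) 0 hi
  simp only [Nat.cast_zero, mul_zero, zero_add] at h2
  have h3 := ne_of_unit h1
  have h4 := ne_of_unit h2
  rw [show ((p : ℚ_[p]) * M + i + 1)⁻¹ - ((i : ℚ_[p]) + 1)⁻¹ =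
    -(M * (p / (((p : ℚ_[p]) * M + i + 1) * (i + 1)))) by field_simp; ring, norm_neg]
  refine nmul_nat _ ?_
  rw [norm_div, norm_mul, h1, h2]; simp

theorem ninv {i : ℕ} (M : ℕ) (hi : i + 1 < p) : ‖((p : ℚ_[p]) * M + i + 1)⁻¹‖ ≤ 1 := by
  rw [norm_inv, nlt M hi, inv_one]

theorem ninv0 {i : ℕ} (hi : i + 1 < p) : ‖((i : ℚ_[p]) + 1)⁻¹‖ ≤ 1 := by
  simpa using ninv (p := p) 0 hi

theorem nH {i : ℕ} (hi : i < p) : ‖∑ j ∈ range i, ((j : ℚ_[p]) + 1)⁻¹‖ ≤ 1 :=
  IsUltrametricDist.norm_sum_le_of_forall_le_of_nonneg zero_le_one fun j hj =>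
    ninv0 (by have := mem_range.1 hj; omega)

theorem yy_O (M i : ℕ) (hi : i < p) : O 2 (fun n => yy p M i n - 1 -
    2 * (p : ℚ_[p]) * (n : ℚ_[p]) * ∑ j ∈ range i, ((j : ℚ_[p]) + 1)⁻¹) := by
  induction i with
  | zero => exact (O.zero 2).congr fun n => by simp [yy]
  | succ i ih =>
    have h1 := ninv (p := p) M hi
    have h0 : ‖(1 : ℚ_[p])‖ ≤ 1 := norm_one.le
    have h2 : ‖(2 : ℚ_[p])‖ ≤ 1 := nof 2
    have h3 := nH (p := p) (i := i) (by omega)
    have h4 := nnat (p := p) p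
    have h6 := inv_est (p := p) M hi
    simp only [yy, prod_range_succ, sum_range_succ] at ih ⊢
    generalize ((p : ℚ_[p]) * M + i + 1)⁻¹ = c at h1 h6
    generalize ∑ j ∈ range i, ((j : ℚ_[p]) + 1)⁻¹ = H at h3 ih
    have a1 := (ih (by omega)).mulT (g := fun n : ℕ => (1 + (p : ℚ_[p]) * (n : ℚ_[p]) * c) ^ 2)
      (by fun_prop (disch := assumption))
    have a2 := ((O.const h6).pmul 1).mulT (g := fun n : ℕ => 2 * (n : ℚ_[p]))
      (by fun_prop (disch := assumption))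
    have a3 := O.pp 2 (f := fun n : ℕ => (n : ℚ_[p]) ^ 2 * c * c +
      2 * (n : ℚ_[p]) ^ 2 * H * (c * 2 + (n : ℚ_[p]) * (p : ℚ_[p]) * c * c))
      (by have := nm1 h1 h2; fun_prop (disch := assumption))
    exact ((a1.add a2).add a3).congr fun n => by ring

theorem yy_T (M i : ℕ) (hi : i < p) : IsT (fun n => yy p M i n) := by
  have h0 : ‖(1 : ℚ_[p])‖ ≤ 1 := norm_one.le
  have h2 : ‖2 * (p : ℚ_[p])‖ ≤ 1 := nm1 (nof (p := p) 2) (nnat p)
  have h3 := nH hi
  have h4 := (yy_O M i hi).isT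
  have h5 : IsT (fun n : ℕ => 1 + 2 * (p : ℚ_[p]) * (n : ℚ_[p]) * ∑ j ∈ range i, ((j : ℚ_[p]) + 1)⁻¹) := by
    fun_prop (disch := assumption)
  exact (h4.add h5).congr fun n => by ring

theorem Z_T (h5 : 5 ≤ p) (he : ‖eps p‖ ≤ 1) (M l j : ℕ) (hl : l < p) (hj : j < p) :
    ∃ Z, IsT Z ∧ ∀ n, kap p (p * n + j) (p * M + l) = kap p n M * Z n := by
  induction j with
  | zero =>
    refine ⟨_, ((rho_E h5 he).isT.mul ((tau_E h5 he M).isT.pow 2)).mul (yy_T M l hl), fun n => ?_⟩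
    rw [add_zero, kap_yy, kap_pmul h5 he]
    ring
  | succ j ih =>
    obtain ⟨Z, hZ, e⟩ := ih (by omega)
    have h0 : ‖(1 : ℚ_[p])‖ ≤ 1 := norm_one.le
    have h2 : ‖(2 : ℚ_[p])‖ ≤ 1 := nof 2
    have h3 := nnat (p := p) p
    have h4 := nnat (p := p) j
    have h6 := nnat (p := p) (p * M + l)
    have i1 : IsT (fun n : ℕ => ((p : ℚ_[p]) * (n : ℚ_[p]) + (j : ℚ_[p]) + 1)⁻¹) := PP_TT (PP_inv
      ((PP p).add_mem ((PP p).add_mem PP_lin (PP_const h4)) (PP p).one_mem) fun n => nlt n hj)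
    refine ⟨fun n => Z n * (2 * (2 * ((p : ℚ_[p]) * n + j) + 1) *
      ((p : ℚ_[p]) * n + j + ((p * M + l : ℕ) : ℚ_[p]) + 1) ^ 2) * ((p : ℚ_[p]) * n + j + 1)⁻¹ ^ 3,
      IsT.mul (by fun_prop (disch := assumption)) (i1.pow 3), fun n => ?_⟩
    have h := kap_N (p := p) (p * n + j) (p * M + l)
    have h1 := pm_ne (p := p) n j
    rw [e] at h
    rw [← add_assoc]
    push_cast at h ⊢
    field_simp
    linear_combination h

end Pool.Agent.MP_54d89f_nt

end
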