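import Mathlib

section

/-! Newton coefficients of sequences with values in the p-adic numbers. -/

namespace Pool.Agent.MP_54d89f_nt

open Finset

variable {p : ℕ} [hp : Fact p.Prime]

/-- iterated forward difference -/
noncomputable def D (k : ℕ) (f : ℕ → ℚ_[p]) : ℕ → ℚ_[p] := (fwdDiff 1)^[k] f

theorem D_zero (f : ℕ → ℚ_[p]) : D 0 f = f := rfl

theorem D_succ (k : ℕ) (f : ℕ → ℚ_[p]) (n : ℕ) : D (k + 1) f n = D k f (n + 1) - D k f n := by
  unfold D; rw [Function.iterate_succ_apply']; rfl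

theorem D_succ' (k : ℕ) (f : ℕ → ℚ_[p]) : D (k + 1) f = D k (fun n => f (n + 1) - f n) := by
  unfold D; rw [Function.iterate_succ_apply]; rfl

theorem D_add (k : ℕ) (f g : ℕ → ℚ_[p]) (n : ℕ) : D k (f + g) n = D k f n + D k g n := by
  unfold D; rw [fwdDiff_iter_add]; rfl

theorem D_cmul (k : ℕ) (c : ℚ_[p]) (f : ℕ → ℚ_[p]) (n : ℕ) :
    D k (fun n => c * f n) n = c * D k f n := by
  induction k generalizing n with
  | zero => rfl
  | succ k ih => rw [D_succ, D_succ, ih, ih]; ring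

theorem D_neg (k : ℕ) (f : ℕ → ℚ_[p]) (n : ℕ) : D k (-f) n = - D k f n := by
  induction k generalizing n with
  | zero => rfl
  | succ k ih => rw [D_succ, D_succ, ih, ih]; ring

theorem D_const (k : ℕ) (c : ℚ_[p]) (n : ℕ) : D (k + 1) (fun _ => c) n = 0 := by
  induction k generalizing n with
  | zero => rw [D_succ]; simp [D_zero]
  | succ k ih => rw [D_succ, ih, ih]; ring

theorem D_shift (k : ℕ) (f : ℕ → ℚ_[p]) (n : ℕ) : D k (fun n => f (n + 1)) n = D k f (n + 1) := by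
  induction k generalizing n with
  | zero => rfl
  | succ k ih => rw [D_succ, D_succ, ih, ih]

theorem newton (f : ℕ → ℚ_[p]) (n : ℕ) :
    f n = ∑ k ∈ range (n + 1), (n.choose k : ℚ_[p]) * D k f 0 := by
  have := shift_eq_sum_fwdDiff_iter (1 : ℕ) f n 0
  simp only [zero_add, smul_eq_mul, mul_one, nsmul_eq_mul] at this
  exact this

theorem leib (k : ℕ) (f g : ℕ → ℚ_[p]) (n : ℕ) :
    D k (f * g) n = ∑ ij ∈ antidiagonal k,
      (k.choose ij.1 : ℚ_[p]) * (D ij.1 f n * D ij.2 g (n + ij.1)) := by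
  induction k generalizing n with
  | zero => simp [D_zero]
  | succ k ih =>
    rw [D_succ, ih, ih, Finset.sum_antidiagonal_choose_succ_mul
      (fun i j => D i f n * D j g (n + i)) k, ← sum_sub_distrib, ← sum_add_distrib]
    refine sum_congr rfl fun ij hij => ?_
    rw [Finset.HasAntidiagonal.mem_antidiagonal] at hij
    have h1 : k.choose ij.2 = k.choose ij.1 := by
      rw [← hij]; exact (Nat.choose_symm_add).symm
    rw [h1, D_succ, D_succ, show n + 1 + ij.1 = n + ij.1 + 1 by ring,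
      show n + (ij.1 + 1) = n + ij.1 + 1 by ring]
    ring

theorem leib_le (k : ℕ) (f g : ℕ → ℚ_[p]) (n : ℕ) {c : ℝ} (hc : 0 ≤ c)
    (h : ∀ i j, i + j = k → ‖(k.choose i : ℚ_[p]) * (D i f n * D j g (n + i))‖ ≤ c) :
    ‖D k (f * g) n‖ ≤ c := by
  rw [leib]
  exact IsUltrametricDist.norm_sum_le_of_forall_le_of_nonneg hc
    fun ij hij => h _ _ (Finset.HasAntidiagonal.mem_antidiagonal.1 hij)

theorem nadd {x y : ℚ_[p]} {c : ℝ} (hx : ‖x‖ ≤ c) (hy : ‖y‖ ≤ c) : ‖x + y‖ ≤ c :=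
  (IsUltrametricDist.norm_add_le_max x y).trans (max_le hx hy)

theorem nsub {x y : ℚ_[p]} {c : ℝ} (hx : ‖x‖ ≤ c) (hy : ‖y‖ ≤ c) : ‖x - y‖ ≤ c := by
  rw [sub_eq_add_neg]; exact nadd hx (by rwa [norm_neg])

theorem nnat (n : ℕ) : ‖(n : ℚ_[p])‖ ≤ 1 := by
  have := Padic.norm_int_le_one (p := p) (n : ℤ)
  simpa using this

theorem nmul_nat {x : ℚ_[p]} {c : ℝ} (n : ℕ) (hx : ‖x‖ ≤ c) : ‖(n : ℚ_[p]) * x‖ ≤ c := by
  rw [norm_mul]
  exact (mul_le_of_le_one_left (norm_nonneg _) (nnat n)).trans hx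

theorem D_le_of_pt {f : ℕ → ℚ_[p]} {c : ℝ} (h : ∀ n, ‖f n‖ ≤ c) (k n : ℕ) : ‖D k f n‖ ≤ c := by
  induction k generalizing n with
  | zero => exact h n
  | succ k ih => rw [D_succ]; exact nsub (ih _) (ih _)

theorem D_lin (k m : ℕ) (g : ℕ → ℚ_[p]) (n : ℕ) :
    D (k + 1) (fun n : ℕ => ((n : ℚ_[p]) + (m : ℚ_[p])) * g n) n =
      ((k + 1 : ℕ) : ℚ_[p]) * D k g n + ((n + m + k + 1 : ℕ) : ℚ_[p]) * D (k + 1) g n := by
  induction k generalizing n with
  | zero => rw [D_succ, D_succ]; simp only [D_zero]; push_cast; ring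
  | succ k ih =>
    rw [D_succ, ih, ih, D_succ (k + 1) g n, D_succ k g (n + 1), D_succ k g n]
    push_cast; ring

/-- integral Newton coefficients -/
def TT (p : ℕ) [Fact p.Prime] : Subring (ℕ → ℚ_[p]) where
  carrier := {f | ∀ k n, ‖D k f n‖ ≤ ‖(k.factorial : ℚ_[p])‖}
  mul_mem' := by
    intro f g hf hg k n
    refine leib_le k f g n (norm_nonneg _) fun i j hij => ?_
    have e : (k.factorial : ℚ_[p]) = (k.choose i : ℚ_[p]) * (i.factorial * j.factorial) := by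
      rw [← hij, ← Nat.add_choose_mul_factorial_mul_factorial i j, Nat.choose_symm_add]
      push_cast; ring
    rw [e, norm_mul, norm_mul, norm_mul, norm_mul]
    gcongr
    · exact hf _ _
    · exact hg _ _
  one_mem' := by
    intro k n
    rcases k with _ | k
    · simp [D_zero]
    · have := D_const (p := p) k 1 n
      rw [show (1 : ℕ → ℚ_[p]) = fun _ => 1 from rfl, this]; simp
  add_mem' := by
    intro f g hf hg k n
    rw [D_add]; exact nadd (hf k n) (hg k n)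
  zero_mem' := by
    intro k n
    have := D_le_of_pt (p := p) (f := 0) (c := 0) (by simp) k n
    exact this.trans (norm_nonneg _)
  neg_mem' := by
    intro f hf k n
    rw [D_neg, norm_neg]; exact hf k n

theorem mem_TT {f : ℕ → ℚ_[p]} : f ∈ TT p ↔ ∀ k n, ‖D k f n‖ ≤ ‖(k.factorial : ℚ_[p])‖ := Iff.rfl

theorem nfac_succ (k : ℕ) : ‖((k + 1).factorial : ℚ_[p])‖ ≤ ‖(k.factorial : ℚ_[p])‖ := by
  rw [Nat.factorial_succ]; push_cast
  have := nmul_nat (p := p) (k + 1) (le_refl ‖(k.factorial : ℚ_[p])‖)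
  simpa using this

theorem nfac_mono {k l : ℕ} (h : k ≤ l) : ‖(l.factorial : ℚ_[p])‖ ≤ ‖(k.factorial : ℚ_[p])‖ := by
  induction l, h using Nat.le_induction with
  | base => exact le_rfl
  | succ l _ ih => exact (nfac_succ l).trans ih

theorem TT_of_zero {f : ℕ → ℚ_[p]} (h : ∀ k, ‖D k f 0‖ ≤ ‖(k.factorial : ℚ_[p])‖) : f ∈ TT p := by
  intro k n
  induction n generalizing k with
  | zero => exact h k
  | succ n ih =>
    have : D k f (n + 1) = D (k + 1) f n + D k f n := by rw [D_succ]; ring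
    rw [this]
    exact nadd ((ih _).trans (nfac_succ k)) (ih k)

theorem TT_pt {f : ℕ → ℚ_[p]} (hf : f ∈ TT p) (n : ℕ) : ‖f n‖ ≤ 1 := by
  simpa [D_zero] using hf 0 n

theorem TT_const {c : ℚ_[p]} (hc : ‖c‖ ≤ 1) : (fun _ : ℕ => c) ∈ TT p := by
  intro k n
  rcases k with _ | k
  · simpa [D_zero] using hc
  · rw [D_const]; simp

theorem TT_shift {f : ℕ → ℚ_[p]} (hf : f ∈ TT p) : (fun n => f (n + 1)) ∈ TT p := by
  intro k n; rw [D_shift]; exact hf _ _

theorem TT_id : (fun n : ℕ => (n : ℚ_[p])) ∈ TT p := by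
  intro k n
  rcases k with _ | k
  · simpa [D_zero] using nnat (p := p) n
  · rw [D_succ']
    have : (fun n : ℕ => (((n + 1 : ℕ) : ℚ_[p])) - (n : ℚ_[p])) = fun _ => 1 := by
      funext n; push_cast; ring
    rw [this]
    rcases k with _ | k
    · simp [D_zero]
    · rw [D_const]; simp

theorem choose_fac_le (n k : ℕ) :
    ‖(n.choose (k + 1) : ℚ_[p])‖ * ‖((k + 1).factorial : ℚ_[p])‖ ≤ ‖(n : ℚ_[p])‖ := by
  rw [← norm_mul, ← Nat.cast_mul, mul_comm, ← Nat.descFactorial_eq_factorial_mul_choose]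
  rcases n with _ | n
  · simp
  · rw [Nat.succ_descFactorial_succ, mul_comm, Nat.cast_mul]
    exact nmul_nat _ le_rfl

theorem TT_lip {f : ℕ → ℚ_[p]} (hf : f ∈ TT p) (n : ℕ) : ‖f n - f 0‖ ≤ ‖(n : ℚ_[p])‖ := by
  rw [newton f n, sum_range_succ']
  simp only [Nat.choose_zero_right, Nat.cast_one, one_mul, D_zero, add_sub_cancel_right]
  refine IsUltrametricDist.norm_sum_le_of_forall_le_of_nonneg (norm_nonneg _) fun k _ => ?_
  rw [norm_mul]
  exact le_trans (by gcongr; exact hf _ _) (choose_fac_le n k)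

theorem nfac_eq (k : ℕ) :
    ‖(k.factorial : ℚ_[p])‖ = ‖(p : ℚ_[p])‖ ^ (padicValNat p k.factorial) := by
  rw [Padic.norm_eq_zpow_neg_valuation (by exact_mod_cast k.factorial_ne_zero),
    Padic.valuation_natCast, Padic.norm_p, inv_pow, zpow_neg, zpow_natCast]

theorem q_pos : 0 < ‖(p : ℚ_[p])‖ := norm_pos_iff.2 (by exact_mod_cast hp.out.ne_zero)

theorem q_le : ‖(p : ℚ_[p])‖ ≤ 1 := nnat p

theorem q_mono {a b : ℕ} (h : a ≤ b) : ‖(p : ℚ_[p])‖ ^ b ≤ ‖(p : ℚ_[p])‖ ^ a :=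
  pow_le_pow_of_le_one q_pos.le q_le h

theorem small {ε : ℝ} (hε : 0 < ε) : ∃ j : ℕ, ‖(p : ℚ_[p])‖ ^ j < ε :=
  exists_pow_lt_of_lt_one hε Padic.norm_p_lt_one

theorem fac_small {ε : ℝ} (hε : 0 < ε) : ∃ J : ℕ, ‖(J.factorial : ℚ_[p])‖ < ε := by
  obtain ⟨j, hj⟩ := small (p := p) hε
  refine ⟨p ^ j, lt_of_le_of_lt ?_ hj⟩
  obtain ⟨c, hc⟩ := Nat.dvd_factorial (pow_pos hp.out.pos j) (le_refl (p ^ j))
  rw [hc, mul_comm, Nat.cast_mul, ← norm_pow, ← Nat.cast_pow]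
  exact nmul_nat _ le_rfl

/-- division by a monic linear factor -/
theorem TT_div {g : ℕ → ℚ_[p]} {c : ℚ_[p]} (m : ℕ) (hc : c ≠ 0) (h1 : (fun n => c * g n) ∈ TT p)
    (h2 : (fun n : ℕ => ((n : ℚ_[p]) + m) * g n) ∈ TT p) : g ∈ TT p := by
  have hc' : 0 < ‖c‖ := norm_pos_iff.2 hc
  have fp : ∀ k : ℕ, (k.factorial : ℚ_[p]) ≠ 0 := fun k => by exact_mod_cast k.factorial_ne_zero
  set a : ℕ → ℚ_[p] := fun k => D k g 0 / k.factorial with ha
  have ab : ∀ k, ‖a k‖ ≤ ‖c‖⁻¹ := fun k => by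
    have := h1 k 0
    rw [D_cmul, norm_mul] at this
    simp only [ha, norm_div]
    rw [div_le_iff₀ (norm_pos_iff.2 (fp k)), inv_mul_eq_div, le_div_iff₀ hc']
    linarith
  have st : ∀ k, ‖a k + ((m + k + 1 : ℕ) : ℚ_[p]) * a (k + 1)‖ ≤ 1 := fun k => by
    have := h2 (k + 1) 0
    rw [D_lin] at this
    have e : a k + ((m + k + 1 : ℕ) : ℚ_[p]) * a (k + 1) =
        (((k + 1 : ℕ) : ℚ_[p]) * D k g 0 + ((0 + m + k + 1 : ℕ) : ℚ_[p]) * D (k + 1) g 0) /
          ((k + 1).factorial : ℚ_[p]) := by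
      have h3 : ((k : ℚ_[p]) + 1) ≠ 0 := by exact_mod_cast Nat.succ_ne_zero k
      have h4 := fp k
      simp only [ha, Nat.factorial_succ]
      push_cast
      field_simp
      ring
    rw [e, norm_div, div_le_one (norm_pos_iff.2 (fp _))]
    exact this
  have key : ∀ J k, ‖a k‖ ≤ max 1 (‖((m + k + 1).ascFactorial J : ℚ_[p])‖ * ‖c‖⁻¹) := by
    intro J
    induction J with
    | zero => intro k; simpa using Or.inr (ab k)
    | succ J ih =>
      intro k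
      have e : a k = (a k + ((m + k + 1 : ℕ) : ℚ_[p]) * a (k + 1)) -
          ((m + k + 1 : ℕ) : ℚ_[p]) * a (k + 1) := by ring
      rw [e]
      refine nsub ((st k).trans (le_max_left _ _)) ?_
      rcases le_max_iff.1 (ih (k + 1)) with h | h
      · exact (nmul_nat _ h).trans (le_max_left _ _)
      · refine le_trans ?_ (le_max_right _ _)
        have e2 : (m + k + 1).ascFactorial (J + 1) =
            (m + k + 1) * (m + (k + 1) + 1).ascFactorial J := by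
          rw [show m + (k + 1) + 1 = (m + k + 1) + 1 by ring, Nat.succ_ascFactorial,
            Nat.ascFactorial_succ]
        rw [e2, Nat.cast_mul, norm_mul, norm_mul, mul_assoc]
        gcongr
  refine TT_of_zero fun k => ?_
  obtain ⟨J, hJ⟩ := fac_small (p := p) hc'
  have h5 : ‖((m + k + 1).ascFactorial J : ℚ_[p])‖ ≤ ‖c‖ := by
    obtain ⟨d, hd⟩ := Nat.factorial_dvd_ascFactorial (m + k + 1) J
    rw [hd, mul_comm, Nat.cast_mul]
    exact nmul_nat _ hJ.le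
  have h6 : ‖a k‖ ≤ 1 := by
    refine (key J k).trans (max_le le_rfl ?_)
    rw [← div_eq_mul_inv, div_le_one hc']; exact h5
  simp only [ha, norm_div] at h6
  rwa [div_le_one (norm_pos_iff.2 (fp k))] at h6

/-- division by the variable, using continuity at zero -/
theorem TT_div0 {g : ℕ → ℚ_[p]} (h2 : (fun n : ℕ => (n : ℚ_[p]) * g n) ∈ TT p)
    (hc : ∀ ε : ℝ, 0 < ε → ∃ n : ℕ, n ≠ 0 ∧ ‖(n : ℚ_[p])‖ ≤ ε ∧ ‖g n - g 0‖ ≤ ε) : g ∈ TT p := by
  have fp : ∀ k : ℕ, (k.factorial : ℚ_[p]) ≠ 0 := fun k => by exact_mod_cast k.factorial_ne_zero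
  set t : ℕ → ℚ_[p] := fun k => (-1) ^ k * D k g 0 with ht
  have st : ∀ k, ‖t k - t (k + 1)‖ ≤ ‖(k.factorial : ℚ_[p])‖ := fun k => by
    have := h2 (k + 1) 0
    have e0 : (fun n : ℕ => (n : ℚ_[p]) * g n) = fun n : ℕ => ((n : ℚ_[p]) + (0 : ℕ)) * g n := by
      funext n; simp
    rw [e0, D_lin] at this
    have h3 : ((k + 1 : ℕ) : ℚ_[p]) ≠ 0 := by exact_mod_cast Nat.succ_ne_zero k
    have e : ((k + 1 : ℕ) : ℚ_[p]) * D k g 0 + ((0 + 0 + k + 1 : ℕ) : ℚ_[p]) * D (k + 1) g 0 =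
        ((k + 1 : ℕ) : ℚ_[p]) * ((-1) ^ k * (t k - t (k + 1))) := by
      simp only [ht]
      have : ((-1 : ℚ_[p]) ^ k) * (-1) ^ k = 1 := by rw [← mul_pow]; simp
      push_cast
      linear_combination (-(k + 1) * (D k g 0 + D (k + 1) g 0)) * this
    rw [e, Nat.factorial_succ, Nat.cast_mul, norm_mul, norm_mul, norm_mul] at this
    have h4 := le_of_mul_le_mul_left this (norm_pos_iff.2 h3)
    simpa using h4
  have st2 : ∀ k K, k ≤ K → ‖t k - t K‖ ≤ ‖(k.factorial : ℚ_[p])‖ := by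
    intro k K h
    induction K, h using Nat.le_induction with
    | base => simp
    | succ K hK ih =>
      rw [show t k - t (K + 1) = (t k - t K) + (t K - t (K + 1)) by ring]
      exact nadd ih ((st K).trans (nfac_mono hK))
  have key : ∀ n K, n ≠ 0 → n ≤ K → ‖g n - g 0 + t K‖ ≤ ‖(n : ℚ_[p])‖ := by
    intro n K hn hK
    have e1 : ∑ k ∈ range (n + 1), ((-1 : ℚ_[p]) ^ k * n.choose k) = 0 := by
      have := Int.alternating_sum_range_choose_of_ne hn
      exact_mod_cast this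
    have e2 : g n = ∑ k ∈ range (n + 1), ((-1 : ℚ_[p]) ^ k * n.choose k) * (t k - t K) := by
      simp only [mul_sub, sum_sub_distrib, ← sum_mul, e1, zero_mul, sub_zero]
      rw [newton g n]
      refine sum_congr rfl fun k _ => ?_
      have : ((-1 : ℚ_[p]) ^ k) * (-1) ^ k = 1 := by rw [← mul_pow]; simp
      simp only [ht]
      linear_combination (-(n.choose k : ℚ_[p]) * D k g 0) * this
    rw [e2, sum_range_succ']
    have e3 : t 0 = g 0 := by simp [ht, D_zero]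
    simp only [pow_zero, Nat.choose_zero_right, Nat.cast_one, mul_one, one_mul, e3]
    rw [show ∀ a b c : ℚ_[p], a + (b - c) - b + c = a by intros; ring]
    refine IsUltrametricDist.norm_sum_le_of_forall_le_of_nonneg (norm_nonneg _) fun k hk => ?_
    rw [norm_mul, norm_mul]
    simp only [norm_pow, norm_neg, norm_one, one_pow, one_mul]
    refine le_trans ?_ (choose_fac_le n k)
    gcongr
    exact st2 _ _ (by have := mem_range.1 hk; omega)
  refine TT_of_zero fun k => ?_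
  obtain ⟨n, hn, h3, h4⟩ := hc _ (norm_pos_iff.2 (fp k))
  have h5 : ‖t k‖ ≤ ‖(k.factorial : ℚ_[p])‖ := by
    rw [show t k = (t k - t (max k n)) + ((g n - g 0 + t (max k n)) - (g n - g 0)) by ring]
    exact nadd (st2 _ _ (le_max_left _ _)) (nsub ((key n _ hn (le_max_right _ _)).trans h3) h4)
  simpa [ht] using h5

/-- differences of order k are divisible by the k-th power of p -/
def PP (p : ℕ) [Fact p.Prime] : Subring (ℕ → ℚ_[p]) where
  carrier := {f | ∀ k n, ‖D k f n‖ ≤ ‖(p : ℚ_[p])‖ ^ k}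
  mul_mem' := by
    intro f g hf hg k n
    refine leib_le k f g n (by positivity) fun i j hij => nmul_nat _ ?_
    rw [norm_mul, ← hij, pow_add]
    gcongr
    · exact hf _ _
    · exact hg _ _
  one_mem' := by
    intro k n
    rcases k with _ | k
    · simp [D_zero]
    · have := D_const (p := p) k 1 n
      rw [show (1 : ℕ → ℚ_[p]) = fun _ => 1 from rfl, this]; simp
  add_mem' := by
    intro f g hf hg k n
    rw [D_add]; exact nadd (hf k n) (hg k n)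
  zero_mem' := by
    intro k n
    have := D_le_of_pt (p := p) (f := 0) (c := 0) (by simp) k n
    exact this.trans (by positivity)
  neg_mem' := by
    intro f hf k n
    rw [D_neg, norm_neg]; exact hf k n

theorem PP_TT {f : ℕ → ℚ_[p]} (hf : f ∈ PP p) : f ∈ TT p := by
  intro k n
  rw [nfac_eq]
  exact (hf k n).trans (q_mono (padicValNat_factorial_le p k))

theorem PP_const {c : ℚ_[p]} (hc : ‖c‖ ≤ 1) : (fun _ : ℕ => c) ∈ PP p := by
  intro k n
  rcases k with _ | k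
  · simpa [D_zero] using hc
  · rw [D_const]; simp

theorem PP_lin : (fun n : ℕ => (p : ℚ_[p]) * n) ∈ PP p := by
  intro k n
  rw [D_cmul, norm_mul]
  rcases k with _ | k
  · simpa [D_zero] using mul_le_one₀ (q_le (p := p)) (norm_nonneg _) (nnat (p := p) n)
  · rw [D_succ']
    have : (fun n : ℕ => (((n + 1 : ℕ) : ℚ_[p])) - (n : ℚ_[p])) = fun _ => 1 := by
      funext n; push_cast; ring
    rw [this]
    rcases k with _ | k
    · simp [D_zero]
    · rw [D_const]; simp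

theorem PP_inv {f : ℕ → ℚ_[p]} (hf : f ∈ PP p) (hu : ∀ n, ‖f n‖ = 1) :
    (fun n => (f n)⁻¹) ∈ PP p := by
  intro k
  induction k using Nat.strong_induction_on with
  | _ k ih =>
  intro n
  rcases k with _ | k
  · simp [D_zero, hu]
  · have e : (fun n => (f n)⁻¹) * f = fun _ => 1 := by
      funext n
      have : f n ≠ 0 := by rw [← norm_pos_iff, hu]; norm_num
      simp [this]
    have h1 := leib (k + 1) (fun n => (f n)⁻¹) f n
    rw [e, D_const, Finset.Nat.antidiagonal_succ', sum_cons] at h1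
    simp only [Nat.choose_self, Nat.cast_one, one_mul, D_zero] at h1
    have h2 := eq_neg_of_add_eq_zero_left h1.symm
    have h3 := congrArg norm h2
    rw [norm_mul, hu, mul_one, norm_neg] at h3
    rw [h3]
    refine IsUltrametricDist.norm_sum_le_of_forall_le_of_nonneg (by positivity) fun ij hij => ?_
    simp only [mem_map, Finset.HasAntidiagonal.mem_antidiagonal] at hij
    obtain ⟨⟨i, j⟩, hij, rfl⟩ := hij
    simp only [Function.Embedding.coe_prodMap, Function.Embedding.refl_apply,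
      Function.Embedding.coeFn_mk, Prod.map_fst, Prod.map_snd] at hij ⊢
    refine nmul_nat _ ?_
    rw [norm_mul, show k + 1 = i + j.succ by omega, pow_add]
    gcongr
    · exact ih _ (by omega) _
    · exact hf _ _

/-- the weaker geometric decay -/
def QQ (f : ℕ → ℚ_[p]) : Prop := ∀ k n, ‖D k f n‖ ≤ ‖(p : ℚ_[p])‖ ^ ((3 * k + 3) / 4)

theorem PP_QQ {f : ℕ → ℚ_[p]} (hf : f ∈ PP p) : QQ f := fun k n =>
  (hf k n).trans (q_mono (by omega))

theorem QQ_sub {f g : ℕ → ℚ_[p]} (hf : QQ f) (hg : QQ g) : QQ (f - g) := fun k n => by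
  rw [sub_eq_add_neg, D_add, D_neg]
  exact nadd (hf k n) (by rw [norm_neg]; exact hg k n)

theorem QQ_rec {f r : ℕ → ℚ_[p]} (hf : ∀ n, ‖f n‖ ≤ 1) (hr : r ∈ PP p)
    (h3 : ∀ n, ‖r n - 1‖ ≤ ‖(p : ℚ_[p])‖ ^ 3) (h : ∀ n, f (n + 1) = f n * r n) : QQ f := by
  have hg : (r - 1) ∈ PP p := (PP p).sub_mem hr (PP p).one_mem
  intro k
  induction k using Nat.strong_induction_on with
  | _ k ih =>
  intro n
  rcases k with _ | k
  · simpa [D_zero] using hf n
  · rw [D_succ']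
    have e : (fun n => f (n + 1) - f n) = f * (r - 1) := by
      funext n; simp only [Pi.mul_apply, Pi.sub_apply, Pi.one_apply, h]; ring
    rw [e]
    refine leib_le k _ _ n (by positivity) fun i j hij => nmul_nat _ ?_
    rw [norm_mul]
    have h4 : ‖D j (r - 1) (n + i)‖ ≤ ‖(p : ℚ_[p])‖ ^ (max 3 j) := by
      rcases le_total 3 j with h5 | h5
      · rw [max_eq_right h5]; exact hg _ _
      · rw [max_eq_left h5]; exact D_le_of_pt (f := r - 1) h3 _ _
    refine le_trans (mul_le_mul (ih i (by omega) n) h4 (norm_nonneg _) (by positivity)) ?_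
    rw [← pow_add]
    exact q_mono (by omega)

theorem QQ_lin {f : ℕ → ℚ_[p]} (hf : f ∈ PP p) (h4 : ∀ n, ‖f n‖ ≤ ‖(p : ℚ_[p])‖ ^ 4) :
    QQ (fun n : ℕ => (n : ℚ_[p]) * f n) := by
  have hb : ∀ k n, ‖D k f n‖ ≤ ‖(p : ℚ_[p])‖ ^ (max 4 k) := fun k n => by
    rcases le_total 4 k with h5 | h5
    · rw [max_eq_right h5]; exact hf _ _
    · rw [max_eq_left h5]; exact D_le_of_pt h4 _ _
  intro k n
  rcases k with _ | k
  · exact nmul_nat _ ((h4 n).trans (q_mono (by omega)))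
  · have e0 : (fun n : ℕ => (n : ℚ_[p]) * f n) = fun n : ℕ => ((n : ℚ_[p]) + (0 : ℕ)) * f n := by
      funext n; simp
    rw [e0, D_lin]
    exact nadd (nmul_nat _ ((hb _ _).trans (q_mono (by omega))))
      (nmul_nat _ ((hb _ _).trans (q_mono (by omega))))

theorem QQ_four (h5 : 5 ≤ p) {f : ℕ → ℚ_[p]} (hf : QQ f) (h : ∀ n, ‖f n‖ ≤ ‖(p : ℚ_[p])‖ ^ 5) :
    ∃ t ∈ TT p, ∀ n, f n = (p : ℚ_[p]) ^ 4 * t n := by
  have hp0 : (p : ℚ_[p]) ≠ 0 := by exact_mod_cast hp.out.ne_zero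
  refine ⟨fun n => ((p : ℚ_[p]) ^ 4)⁻¹ * f n, fun k n => ?_, fun n => by field_simp⟩
  rw [D_cmul, norm_mul, norm_inv, norm_pow, nfac_eq, inv_mul_le_iff₀ (pow_pos (q_pos (p := p)) 4), ← pow_add]
  rcases le_or_gt (padicValNat p k.factorial) 1 with h1 | h1
  · exact (D_le_of_pt h k n).trans (q_mono (by omega))
  · have hk : k ≠ 0 := by rintro rfl; simp at h1
    have h2 := sub_one_mul_padicValNat_factorial_lt_of_ne_zero p hk
    have h3 : 4 * padicValNat p k.factorial ≤ (p - 1) * padicValNat p k.factorial :=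
      Nat.mul_le_mul_right _ (by omega)
    exact (hf k n).trans (q_mono (by omega))

end Pool.Agent.MP_54d89f_nt

end

section

/-! Congruences modulo powers of p in the ring of sequences with integral Newton coefficients. -/

namespace Pool.Agent.MP_54d89f_nt

open Finset

variable {p : ℕ} [hp : Fact p.Prime]

/-- membership in the ring, as a predicate -/
@[fun_prop] def IsT (f : ℕ → ℚ_[p]) : Prop := f ∈ TT p

@[fun_prop] theorem IsT.const {c : ℚ_[p]} (hc : ‖c‖ ≤ 1) : IsT (fun _ : ℕ => c) := TT_const hc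

@[fun_prop] theorem IsT.cast : IsT (fun n : ℕ => (n : ℚ_[p])) := TT_id

@[fun_prop] theorem IsT.add {f g : ℕ → ℚ_[p]} (hf : IsT f) (hg : IsT g) :
    IsT (fun n => f n + g n) := (TT p).add_mem hf hg

@[fun_prop] theorem IsT.sub {f g : ℕ → ℚ_[p]} (hf : IsT f) (hg : IsT g) :
    IsT (fun n => f n - g n) := (TT p).sub_mem hf hg

@[fun_prop] theorem IsT.neg {f : ℕ → ℚ_[p]} (hf : IsT f) : IsT (fun n => - f n) :=
  (TT p).neg_mem hf

@[fun_prop] theorem IsT.mul {f g : ℕ → ℚ_[p]} (hf : IsT f) (hg : IsT g) :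
    IsT (fun n => f n * g n) := (TT p).mul_mem hf hg

@[fun_prop] theorem IsT.pow {f : ℕ → ℚ_[p]} (hf : IsT f) (k : ℕ) : IsT (fun n => f n ^ k) :=
  (TT p).pow_mem hf k

theorem IsT.sum {ι : Type} {s : Finset ι} {f : ι → ℕ → ℚ_[p]} (hf : ∀ i ∈ s, IsT (f i)) :
    IsT (fun n => ∑ i ∈ s, f i n) := by
  have := (TT p).sum_mem hf
  rwa [show (∑ i ∈ s, f i) = fun n => ∑ i ∈ s, f i n from funext fun n => Finset.sum_apply _ _ _]
    at this

theorem IsT.congr {f g : ℕ → ℚ_[p]} (hf : IsT f) (h : ∀ n, g n = f n) : IsT g := by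
  rwa [show g = f from funext h]

theorem nm1 {a b : ℚ_[p]} (ha : ‖a‖ ≤ 1) (hb : ‖b‖ ≤ 1) : ‖a * b‖ ≤ 1 := by
  rw [norm_mul]; exact mul_le_one₀ ha (norm_nonneg _) hb

theorem np1 {a : ℚ_[p]} (ha : ‖a‖ ≤ 1) (k : ℕ) : ‖a ^ k‖ ≤ 1 := by
  rw [norm_pow]; exact pow_le_one₀ (norm_nonneg _) ha

theorem nunit {m : ℕ} (h : ¬ p ∣ m) : ‖(m : ℚ_[p])‖ = 1 :=
  Padic.norm_natCast_eq_one_iff.2 ((Nat.Prime.coprime_iff_not_dvd hp.out).2 h)

theorem P_ne : (p : ℚ_[p]) ≠ 0 := by exact_mod_cast hp.out.ne_zero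

/-- divisibility by a power of p in the ring -/
def O (k : ℕ) (f : ℕ → ℚ_[p]) : Prop := ∃ t, IsT t ∧ ∀ n, f n = (p : ℚ_[p]) ^ k * t n

theorem IsT.O {f : ℕ → ℚ_[p]} (hf : IsT f) : O 0 f := ⟨f, hf, fun n => by simp⟩

theorem O.isT {k : ℕ} {f : ℕ → ℚ_[p]} (hf : O k f) : IsT f := by
  obtain ⟨t, ht, e⟩ := hf
  exact ((IsT.const (np1 (nnat p) k)).mul ht).congr e

theorem O.congr {k : ℕ} {f g : ℕ → ℚ_[p]} (hf : O k f) (h : ∀ n, g n = f n) : O k g := by
  rwa [show g = f from funext h]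

theorem O.add {k : ℕ} {f g : ℕ → ℚ_[p]} (hf : O k f) (hg : O k g) : O k (fun n => f n + g n) := by
  obtain ⟨t, ht, e⟩ := hf
  obtain ⟨s, hs, e'⟩ := hg
  exact ⟨_, ht.add hs, fun n => by simp only [e, e']; ring⟩

theorem O.sub {k : ℕ} {f g : ℕ → ℚ_[p]} (hf : O k f) (hg : O k g) : O k (fun n => f n - g n) := by
  obtain ⟨t, ht, e⟩ := hf
  obtain ⟨s, hs, e'⟩ := hg
  exact ⟨_, ht.sub hs, fun n => by simp only [e, e']; ring⟩

theorem O.mul {k l : ℕ} {f g : ℕ → ℚ_[p]} (hf : O k f) (hg : O l g) :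
    O (k + l) (fun n => f n * g n) := by
  obtain ⟨t, ht, e⟩ := hf
  obtain ⟨s, hs, e'⟩ := hg
  exact ⟨_, ht.mul hs, fun n => by simp only [e, e']; ring⟩

theorem O.mulT {k : ℕ} {f g : ℕ → ℚ_[p]} (hf : O k f) (hg : IsT g) :
    O k (fun n => f n * g n) := hf.mul hg.O

theorem O.pmul {k : ℕ} {f : ℕ → ℚ_[p]} (hf : O k f) (l : ℕ) :
    O (k + l) (fun n => (p : ℚ_[p]) ^ l * f n) := by
  obtain ⟨t, ht, e⟩ := hf
  exact ⟨_, ht, fun n => by simp only [e]; ring⟩

theorem O.pp {f : ℕ → ℚ_[p]} (l : ℕ) (hf : IsT f) : O l (fun n => (p : ℚ_[p]) ^ l * f n) :=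
  ⟨_, hf, fun _ => rfl⟩

theorem O.mono {k l : ℕ} {f : ℕ → ℚ_[p]} (hf : O l f) (h : k ≤ l) : O k f := by
  obtain ⟨t, ht, e⟩ := hf
  obtain ⟨d, rfl⟩ := Nat.exists_eq_add_of_le h
  exact ⟨_, (IsT.const (np1 (nnat p) d)).mul ht, fun n => by rw [e]; ring⟩

theorem O.zero (k : ℕ) : O k (fun _ => (0 : ℚ_[p])) :=
  ⟨fun _ => 0, IsT.const (by simp), fun _ => by simp⟩

theorem O.sum {ι : Type} {k : ℕ} {s : Finset ι} {f : ι → ℕ → ℚ_[p]} (hf : ∀ i ∈ s, O k (f i)) :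
    O k (fun n => ∑ i ∈ s, f i n) := by
  classical
  induction s using Finset.induction_on with
  | empty => simpa using O.zero k
  | insert a s ha ih =>
    exact ((hf a (mem_insert_self _ _)).add (ih fun i hi => hf i (mem_insert_of_mem hi))).congr
      fun n => sum_insert ha

theorem O.const {k : ℕ} {c : ℚ_[p]} (hc : ‖c‖ ≤ ‖(p : ℚ_[p])‖ ^ k) : O k (fun _ => c) := by
  refine ⟨fun _ => c / (p : ℚ_[p]) ^ k, IsT.const ?_, fun _ => ?_⟩
  · rw [norm_div, norm_pow, div_le_one (pow_pos q_pos k)]; exact hc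
  · have := P_ne (p := p)
    field_simp

theorem O.pt {k : ℕ} {f : ℕ → ℚ_[p]} (hf : O k f) (n : ℕ) : ‖f n‖ ≤ ‖(p : ℚ_[p])‖ ^ k := by
  obtain ⟨t, ht, e⟩ := hf
  rw [e, norm_mul, norm_pow]
  exact mul_le_of_le_one_right (by positivity) (TT_pt ht n)

theorem O.lip {k : ℕ} {f : ℕ → ℚ_[p]} (hf : O k f) (n : ℕ) :
    ‖f n - f 0‖ ≤ ‖(p : ℚ_[p])‖ ^ k * ‖(n : ℚ_[p])‖ := by
  obtain ⟨t, ht, e⟩ := hf
  rw [e, e, ← mul_sub, norm_mul, norm_pow]
  gcongr
  exact TT_lip ht n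

theorem O.div2 {k : ℕ} {g : ℕ → ℚ_[p]} {c : ℚ_[p]} (m : ℕ) (hc : c ≠ 0)
    (h1 : IsT (fun n => c * g n)) (h2 : O k (fun n : ℕ => ((n : ℚ_[p]) + (m : ℚ_[p])) ^ 2 * g n)) :
    O k g := by
  obtain ⟨t, ht, e⟩ := h2
  have hP : (p : ℚ_[p]) ^ k ≠ 0 := pow_ne_zero _ P_ne
  have hc' : c * (p : ℚ_[p]) ^ k ≠ 0 := mul_ne_zero hc hP
  refine ⟨fun n => g n / (p : ℚ_[p]) ^ k, ?_, fun n => by field_simp⟩
  have a1 : IsT (fun n => c * (p : ℚ_[p]) ^ k * (g n / (p : ℚ_[p]) ^ k)) :=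
    h1.congr fun n => by field_simp
  refine TT_div m hc' a1 (TT_div m hc' ?_ ?_)
  · have a2 : IsT (fun n : ℕ => (n : ℚ_[p]) + (m : ℚ_[p])) := IsT.cast.add (IsT.const (nnat m))
    exact (a2.mul a1).congr fun n => by ring
  · exact ht.congr fun n => by
      have := e n
      field_simp
      linear_combination this

theorem O.div0 {k : ℕ} {f : ℕ → ℚ_[p]} (h : O k f) (h0 : f 0 = 0)
    (hs : ∀ s : ℕ, ‖f (p ^ s)‖ ≤ (‖(p : ℚ_[p])‖ ^ s) ^ 3) :
    O k (fun n => f n / (n : ℚ_[p]) ^ 2) := by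
  obtain ⟨t, ht, e⟩ := h
  have hP : (p : ℚ_[p]) ^ k ≠ 0 := pow_ne_zero _ P_ne
  have t0 : t 0 = 0 := by
    have := e 0
    rw [h0] at this
    exact (mul_eq_zero.1 this.symm).resolve_left hP
  refine ⟨fun n => t n / (n : ℚ_[p]) ^ 2, ?_, fun n => by simp only [e]; ring⟩
  have q0 := q_pos (p := p)
  have key : ∀ ε : ℝ, 0 < ε → ∃ n : ℕ, n ≠ 0 ∧ ‖(n : ℚ_[p])‖ ≤ ε ∧
      ‖t n / (n : ℚ_[p]) ^ 2‖ ≤ ε := by
    intro ε hε
    obtain ⟨j, hj⟩ := small (p := p) (mul_pos hε (pow_pos q0 k))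
    have h1 : ‖((p ^ j : ℕ) : ℚ_[p])‖ = ‖(p : ℚ_[p])‖ ^ j := by push_cast; rw [norm_pow]
    refine ⟨p ^ j, pow_ne_zero _ hp.out.ne_zero, ?_, ?_⟩
    · rw [h1]
      exact hj.le.trans (mul_le_of_le_one_right hε.le (pow_le_one₀ q0.le q_le))
    · have h2 := hs j
      rw [e, norm_mul, norm_pow] at h2
      rw [norm_div, norm_pow, h1, div_le_iff₀ (by positivity)]
      refine le_of_mul_le_mul_left (h2.trans ?_) (pow_pos q0 k)
      have h3 : 0 < (‖(p : ℚ_[p])‖ ^ j) ^ 2 := by positivity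
      nlinarith
  refine TT_div0 (TT_div0 ?_ ?_) ?_
  · refine IsT.congr ht fun n => ?_
    rcases Nat.eq_zero_or_pos n with rfl | hn
    · simp [t0]
    · have : (n : ℚ_[p]) ≠ 0 := by exact_mod_cast hn.ne'
      field_simp
  · intro ε hε
    obtain ⟨n, h1, h2, h3⟩ := key ε hε
    refine ⟨n, h1, h2, ?_⟩
    simp only [Nat.cast_zero, zero_mul, sub_zero]
    exact nmul_nat n h3
  · intro ε hε
    obtain ⟨n, h1, h2, h3⟩ := key ε hε
    refine ⟨n, h1, h2, ?_⟩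
    simpa [t0] using h3

end Pool.Agent.MP_54d89f_nt

end
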