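import Pool.Agent.MP_54d89f_nt.HarmA

section

/-! Sums of inverse squares of units, Bernoulli numbers, binomial identities. -/

namespace Pool.Agent.MP_54d89f_nt

open Finset

variable {p : ℕ} [hp : Fact p.Prime]

theorem odd_p (h5 : 5 ≤ p) : p = 2 * (p / 2) + 1 := by
  have := hp.out.eq_two_or_odd; omega

theorem inv_add_inv_sub {i N : ℕ} (hi : i ≤ N) (h1 : (i : ℚ_[p]) ≠ 0)
    (h2 : ((N - i : ℕ) : ℚ_[p]) ≠ 0) :
    (i : ℚ_[p])⁻¹ + ((N - i : ℕ) : ℚ_[p])⁻¹ =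
      N * (i : ℚ_[p])⁻¹ * ((N - i : ℕ) : ℚ_[p])⁻¹ := by
  have h3 : (N : ℚ_[p]) = i + ((N - i : ℕ) : ℚ_[p]) := by
    rw [Nat.cast_sub hi]; ring
  generalize ((N - i : ℕ) : ℚ_[p]) = b at *
  rw [h3]; field_simp; ring

/-- inverse square of a unit, zero otherwise -/
noncomputable def gsq (p : ℕ) [Fact p.Prime] (j : ℕ) : ℚ_[p] :=
  if p ∣ j then 0 else ((j : ℚ_[p]) ^ 2)⁻¹

theorem gsq_reflect {k i : ℕ} (hk : 1 ≤ k) (hi : i ≤ p ^ k) :
    OP p k (gsq p (p ^ k - i) - gsq p i) := by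
  have hd : p ∣ p ^ k := dvd_pow_self p (by omega)
  by_cases h : p ∣ i
  · have h' : p ∣ p ^ k - i := Nat.dvd_sub hd h
    simp only [gsq, if_pos h, if_pos h', sub_zero]; exact OP.zero k
  · have h' : ¬ p ∣ p ^ k - i := fun h' => h ((Nat.dvd_sub_iff_right hi hd).mp h')
    simp only [gsq, if_neg h, if_neg h']
    have e := inv_add_inv_sub (p := p) hi (OP.nat_ne h) (OP.nat_ne h')
    have ha := OP.inv_nat h
    have hb := OP.inv_nat h'
    rw [← inv_pow, ← inv_pow]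
    generalize ((p ^ k - i : ℕ) : ℚ_[p])⁻¹ = b at *
    generalize (i : ℚ_[p])⁻¹ = a at *
    refine ((((OP.ppow k).mulr ha).mulr hb).mulr (hb.sub ha)).congr ?_
    push_cast at e
    rw [← e]; ring

theorem gsq_two (h5 : 5 ≤ p) (i : ℕ) : gsq p (2 * i) = gsq p i / 4 := by
  have h2 : ¬ p ∣ 2 := fun h => by have := Nat.le_of_dvd (by norm_num) h; omega
  by_cases h : p ∣ i
  · simp [gsq, h, h.mul_left 2]
  · have h' : ¬ p ∣ 2 * i := fun h' => by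
      rcases (Nat.Prime.dvd_mul hp.out).mp h' with h3 | h3
      · exact h2 h3
      · exact h h3
    simp only [gsq, if_neg h, if_neg h']
    push_cast
    rw [mul_pow, mul_inv]; ring

theorem gsq_both (h5 : 5 ≤ p) {k h : ℕ} (hk : 1 ≤ k) (hh : p ^ k = 2 * h + 1) :
    OP p k (∑ i ∈ Ico 1 (h + 1), gsq p i) ∧ OP p k (∑ i ∈ Ico 1 (2 * h + 1), gsq p i) := by
  have ha : OP p k (∑ i ∈ Ico 1 (2 * h + 1), gsq p i - 2 * ∑ i ∈ Ico 1 (h + 1), gsq p i) := by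
    rw [split_a, mul_sum, ← sum_sub_distrib]
    refine OP.sum _ _ fun i hi => ?_
    rw [mem_Ico] at hi
    have := gsq_reflect (p := p) hk (i := i) (by omega)
    rw [hh] at this
    exact this.congr (by ring)
  have hb : OP p k (∑ i ∈ Ico 1 (2 * h + 1), gsq p i -
      2⁻¹ * ∑ i ∈ Ico 1 (h + 1), gsq p i) := by
    rw [split_b, mul_sum, ← sum_sub_distrib]
    refine OP.sum _ _ fun i hi => ?_
    rw [mem_Ico] at hi
    have := gsq_reflect (p := p) hk (i := 2 * i) (by omega)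
    rw [hh] at this
    refine this.congr ?_
    rw [gsq_two h5]; ring
  have hc : OP p k (∑ i ∈ Ico 1 (h + 1), gsq p i) :=
    (((hb.sub ha).mulr (OP.ofNat 2)).mulr (OP.inv3 h5)).congr (by ring)
  exact ⟨hc, (ha.add (hc.mulr (OP.ofNat 2))).congr (by ring)⟩

theorem sum_filter_gsq (N : ℕ) (hN : 1 ≤ N) :
    ∑ j ∈ (range N).filter (fun j => ¬ p ∣ j), ((j : ℚ_[p]) ^ 2)⁻¹ = ∑ i ∈ Ico 1 N, gsq p i := by
  rw [sum_filter, range_eq_Ico, sum_eq_sum_Ico_succ_bot (by omega)]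
  simp only [dvd_zero, not_true_eq_false, if_false, zero_add]
  refine sum_congr rfl fun i _ => ?_
  unfold gsq; split_ifs <;> rfl

theorem bern_int (n : ℕ) (hn : n + 1 < p) : OP p 0 ((bernoulli n : ℚ) : ℚ_[p]) := by
  induction n using Nat.strong_induction_on with
  | _ n ih =>
    rcases Nat.eq_zero_or_pos n with rfl | h0
    · simpa using OP.one
    have h := sum_bernoulli (n + 1)
    rw [if_neg (by omega), sum_range_succ, Nat.choose_succ_self_right] at h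
    have h' := congrArg (fun x : ℚ => (x : ℚ_[p])) h
    simp only [Rat.cast_add, Rat.cast_sum, Rat.cast_mul, Rat.cast_natCast, Rat.cast_zero] at h'
    have hu : ¬ p ∣ n + 1 := fun hd => by have := Nat.le_of_dvd (by omega) hd; omega
    have hs : OP p 0 (∑ k ∈ range n, (((n + 1).choose k : ℕ) : ℚ_[p]) *
        ((bernoulli k : ℚ) : ℚ_[p])) :=
      OP.sum _ _ fun k hk => (OP.nat _).mulr (ih k (mem_range.mp hk)
        (by have := mem_range.mp hk; omega))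
    refine (hs.neg.mulr (OP.inv_nat hu)).congr ?_
    have hne := OP.nat_ne hu
    rw [eq_neg_of_add_eq_zero_left h']
    field_simp

theorem faulhaber_mod (e : ℕ) (he : e + 2 < p) :
    OP p 2 (∑ k ∈ range p, (k : ℚ_[p]) ^ e - p * ((bernoulli e : ℚ) : ℚ_[p])) := by
  have h := sum_range_pow p e
  rw [sum_range_succ, Nat.choose_succ_self_right] at h
  have h' := congrArg (fun x : ℚ => (x : ℚ_[p])) h
  simp only [Rat.cast_add, Rat.cast_sum, Rat.cast_mul, Rat.cast_natCast, Rat.cast_pow,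
    Rat.cast_div, Rat.cast_one] at h'
  have hu : ¬ p ∣ e + 1 := fun hd => by have := Nat.le_of_dvd (by omega) hd; omega
  have hne := OP.nat_ne hu
  have hi := OP.inv_nat hu
  rw [h', show e + 1 - e = 1 by omega]
  have hs : OP p 2 (∑ i ∈ range e, ((bernoulli i : ℚ) : ℚ_[p]) * (((e + 1).choose i : ℕ) : ℚ_[p]) *
      (p : ℚ_[p]) ^ (e + 1 - i) / ((e : ℚ_[p]) + 1)) := by
    refine OP.sum _ _ fun i hi' => ?_
    have := mem_range.mp hi'
    have h1 := (((bern_int (p := p) i (by omega)).mulr (OP.nat ((e + 1).choose i))).mull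
      ((OP.ppow (p := p) (e + 1 - i)).mono (show 2 ≤ e + 1 - i by omega))).mulr hi
    refine h1.congr ?_
    push_cast; rw [div_eq_mul_inv]
  refine hs.congr ?_
  push_cast at hne ⊢
  field_simp
  ring

section binom
variable {K : Type*} [Field K] [CharZero K]

omit [CharZero K] in
theorem alt0 (n : ℕ) : ∑ l ∈ range (n + 1), (-1 : K) ^ l * ((n + 1).choose (l + 1) : ℕ) = 1 := by
  have h := Int.alternating_sum_range_choose_of_ne (n := n + 1) (by omega)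
  rw [sum_range_succ'] at h
  have h' := congrArg (fun x : ℤ => (x : K)) h
  simp only [Int.cast_add, Int.cast_sum, Int.cast_mul, Int.cast_pow, Int.cast_neg, Int.cast_one,
    Int.cast_natCast, Int.cast_zero, pow_zero, Nat.choose_zero_right, Nat.cast_one, mul_one,
    pow_succ, mul_neg, neg_mul, sum_neg_distrib] at h'
  linear_combination -h'

theorem choose_div (n l : ℕ) : ((n.choose l : ℕ) : K) / ((l : K) + 1) =
    (((n + 1).choose (l + 1) : ℕ) : K) / ((n : K) + 1) := by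
  have h := Nat.add_one_mul_choose_eq n l
  have h' := congrArg (fun x : ℕ => (x : K)) h
  simp only [Nat.cast_mul, Nat.cast_add, Nat.cast_one] at h'
  have h1 : (l : K) + 1 ≠ 0 := Nat.cast_add_one_ne_zero l
  have h2 : (n : K) + 1 ≠ 0 := Nat.cast_add_one_ne_zero n
  field_simp
  linear_combination h'

theorem alt_step (n : ℕ) (w : ℕ → K) :
    ∑ l ∈ range (n + 1), (-1 : K) ^ l * ((n + 1).choose (l + 1) : ℕ) * (w l / ((l : K) + 1)) =
      ∑ l ∈ range n, (-1 : K) ^ l * (n.choose (l + 1) : ℕ) * (w l / ((l : K) + 1)) +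
      (∑ l ∈ range (n + 1), (-1 : K) ^ l * ((n + 1).choose (l + 1) : ℕ) * w l) / ((n : K) + 1) := by
  have h0 : ∑ l ∈ range n, (-1 : K) ^ l * (n.choose (l + 1) : ℕ) * (w l / ((l : K) + 1)) =
      ∑ l ∈ range (n + 1), (-1 : K) ^ l * (n.choose (l + 1) : ℕ) * (w l / ((l : K) + 1)) := by
    rw [sum_range_succ, Nat.choose_succ_self]; simp
  rw [h0, sum_div, ← sum_add_distrib]
  refine sum_congr rfl fun l _ => ?_
  have h1 := choose_div (K := K) n l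
  have h2 : (((n + 1).choose (l + 1) : ℕ) : K) = (n.choose l : ℕ) + (n.choose (l + 1) : ℕ) := by
    rw [Nat.choose_succ_succ]; push_cast; rfl
  calc (-1 : K) ^ l * ((n + 1).choose (l + 1) : ℕ) * (w l / ((l : K) + 1))
      = (-1 : K) ^ l * (n.choose (l + 1) : ℕ) * (w l / ((l : K) + 1)) +
        (-1 : K) ^ l * w l * (((n.choose l : ℕ) : K) / ((l : K) + 1)) := by rw [h2]; ring
    _ = _ := by rw [h1]; ring

theorem alt1 (n : ℕ) : ∑ l ∈ range n, (-1 : K) ^ l * (n.choose (l + 1) : ℕ) * (1 / ((l : K) + 1)) =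
    ∑ i ∈ range n, ((i : K) + 1)⁻¹ := by
  induction n with
  | zero => simp
  | succ n ih =>
    rw [alt_step n (fun _ => 1), ih, sum_range_succ (fun i : ℕ => ((i : K) + 1)⁻¹)]
    simp only [mul_one]
    rw [alt0, one_div]

theorem alt2 (n : ℕ) :
    ∑ l ∈ range n, (-1 : K) ^ l * (n.choose (l + 1) : ℕ) * ((1 / ((l : K) + 1)) / ((l : K) + 1)) =
    ((∑ i ∈ range n, ((i : K) + 1)⁻¹) ^ 2 + ∑ i ∈ range n, (((i : K) + 1) ^ 2)⁻¹) / 2 := by
  induction n with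
  | zero => simp
  | succ n ih =>
    rw [alt_step n (fun l => 1 / ((l : K) + 1)), ih, alt1,
      sum_range_succ (fun i : ℕ => ((i : K) + 1)⁻¹),
      sum_range_succ (fun i : ℕ => (((i : K) + 1) ^ 2)⁻¹), ← inv_pow, div_eq_mul_inv _ ((n : K) + 1)]
    ring

end binom

end Pool.Agent.MP_54d89f_nt

end

section

/-! Harmonic sums modulo p and p squared. -/

namespace Pool.Agent.MP_54d89f_nt

open Finset

variable {p : ℕ} [hp : Fact p.Prime]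

/-- harmonic number in the p-adic numbers -/
noncomputable def Hn (p : ℕ) [Fact p.Prime] (l : ℕ) : ℚ_[p] := ∑ i ∈ range l, ((i : ℚ_[p]) + 1)⁻¹

theorem odd_pow (h5 : 5 ≤ p) (k : ℕ) : p ^ k = 2 * (p ^ k / 2) + 1 := by
  have : Odd (p ^ k) := (hp.out.odd_of_ne_two (by omega)).pow
  obtain ⟨r, hr⟩ := this
  omega

theorem harm_full (h5 : 5 ≤ p) (s : ℕ) :
    ‖∑ j ∈ (range (p ^ (s + 1))).filter (fun j => ¬ p ∣ j), ((j : ℚ_[p]) ^ 2)⁻¹‖ ≤
      ‖(p : ℚ_[p])‖ ^ (s + 1) := by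
  have hh := odd_pow h5 (s + 1)
  have h := (gsq_both h5 (k := s + 1) (by omega) hh).2
  rw [← hh] at h
  rw [sum_filter_gsq _ (by omega)]
  exact h

theorem harm_half (h5 : 5 ≤ p) (s : ℕ) :
    ‖∑ j ∈ (range ((p ^ (s + 1) + 1) / 2)).filter (fun j => ¬ p ∣ j), ((j : ℚ_[p]) ^ 2)⁻¹‖ ≤
      ‖(p : ℚ_[p])‖ ^ (s + 1) := by
  have hh := odd_pow h5 (s + 1)
  have h := (gsq_both h5 (k := s + 1) (by omega) hh).1
  rw [show (p ^ (s + 1) + 1) / 2 = p ^ (s + 1) / 2 + 1 by omega, sum_filter_gsq _ (by omega)]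
  exact h

omit hp in
theorem not_dvd_of_lt {i : ℕ} (h0 : 0 < i) (h1 : i < p) : ¬ p ∣ i := fun hd => by
  have := Nat.le_of_dvd h0 hd; omega

theorem refl_all {i : ℕ} (h0 : 0 < i) (h1 : i < p) : ∃ a b : ℚ_[p], OP p 0 a ∧ OP p 0 b ∧
    a + b = p * a * b ∧ (i : ℚ_[p])⁻¹ = a ∧ ((p - i : ℕ) : ℚ_[p])⁻¹ = b := by
  have h := not_dvd_of_lt (p := p) h0 h1
  have h' := not_dvd_of_lt (p := p) (i := p - i) (by omega) (by omega)
  exact ⟨_, _, OP.inv_nat h, OP.inv_nat h',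
    inv_add_inv_sub h1.le (OP.nat_ne h) (OP.nat_ne h'), rfl, rfl⟩

theorem refl1 {i : ℕ} (h0 : 0 < i) (h1 : i < p) :
    OP p 1 ((i : ℚ_[p])⁻¹ + ((p - i : ℕ) : ℚ_[p])⁻¹) := by
  obtain ⟨a, b, ha, hb, e, rfl, rfl⟩ := refl_all h0 h1
  rw [e]; exact (OP.self.mulr ha).mulr hb

theorem refl2 {i : ℕ} (h0 : 0 < i) (h1 : i < p) :
    OP p 2 ((((p - i : ℕ) : ℚ_[p]) ^ 2)⁻¹ - ((i : ℚ_[p]) ^ 2)⁻¹ - 2 * p * ((i : ℚ_[p]) ^ 3)⁻¹) := by
  obtain ⟨a, b, ha, hb, e, ea, eb⟩ := refl_all h0 h1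
  simp only [← inv_pow, ea, eb]
  refine ((OP.ppow 2).mulr (((ha.pow 2).mulr hb).mulr (hb.sub ((OP.ofNat 2).mulr ha)))).congr ?_
  linear_combination (-(b - a) - p * a * (b - 2 * a)) * e

theorem refl2' {i : ℕ} (h0 : 0 < i) (h1 : i < p) :
    OP p 1 ((((p - i : ℕ) : ℚ_[p]) ^ 2)⁻¹ - ((i : ℚ_[p]) ^ 2)⁻¹) := by
  obtain ⟨a, b, ha, hb, e, ea, eb⟩ := refl_all h0 h1
  simp only [← inv_pow, ea, eb]
  refine (OP.self.mulr ((ha.mulr hb).mulr (hb.sub ha))).congr ?_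
  linear_combination (-(b - a)) * e

theorem refl3 {i : ℕ} (h0 : 0 < i) (h1 : i < p) :
    OP p 1 (((i : ℚ_[p]) ^ 3)⁻¹ + (((p - i : ℕ) : ℚ_[p]) ^ 3)⁻¹) := by
  obtain ⟨a, b, ha, hb, e, ea, eb⟩ := refl_all h0 h1
  simp only [← inv_pow, ea, eb]
  refine (OP.self.mulr ((ha.mulr hb).mulr
    (((ha.pow 2).sub (ha.mulr hb)).add (hb.pow 2)))).congr ?_
  linear_combination (-(a ^ 2 - a * b + b ^ 2)) * e

theorem split_a' {K : Type*} [AddCommMonoid K] (g : ℕ → K) {N h : ℕ} (hh : N = 2 * h + 1) :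
    ∑ j ∈ Ico 1 N, g j = ∑ i ∈ Ico 1 (h + 1), (g i + g (N - i)) := by
  subst hh; exact split_a g h

theorem split_b' {K : Type*} [AddCommMonoid K] (g : ℕ → K) {N h : ℕ} (hh : N = 2 * h + 1) :
    ∑ j ∈ Ico 1 N, g j = ∑ i ∈ Ico 1 (h + 1), (g (2 * i) + g (N - 2 * i)) := by
  subst hh; exact split_b g h

theorem split_c' {K : Type*} [AddCommMonoid K] (g : ℕ → K) {N h : ℕ} (hh : N = 2 * h + 1) :
    ∑ l ∈ Ico (h + 1) N, g l = ∑ i ∈ Ico 1 (h + 1), g (N - i) := by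
  subst hh; exact split_c g h

theorem inv_pow_int {i : ℕ} (h0 : 0 < i) (h1 : i < p) (e : ℕ) : OP p 0 ((i : ℚ_[p]) ^ e)⁻¹ := by
  rw [← inv_pow]; exact (OP.inv_nat (not_dvd_of_lt h0 h1)).pow e

theorem Hn_succ (l : ℕ) : Hn p (l + 1) = Hn p l + ((l + 1 : ℕ) : ℚ_[p])⁻¹ := by
  unfold Hn; rw [sum_range_succ]; push_cast; rfl

theorem Hn_int {l : ℕ} (hl : l < p) : OP p 0 (Hn p l) := by
  induction l with
  | zero => simpa [Hn] using OP.zero (p := p) 0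
  | succ l ih =>
    rw [Hn_succ]
    exact (ih (by omega)).add (OP.inv_nat (not_dvd_of_lt (by omega) hl))

theorem Hn_top (h5 : 5 ≤ p) : OP p 1 (Hn p (p - 1)) := by
  have h : Hn p (p - 1) = ∑ l ∈ Ico 1 p, (l : ℚ_[p])⁻¹ := by
    rw [sum_Ico_eq_sum_range, Hn]
    refine sum_congr rfl fun i _ => ?_
    push_cast; rw [add_comm]
  have hh := odd_p h5
  rw [h, split_a' (fun l : ℕ => (l : ℚ_[p])⁻¹) hh]
  refine OP.sum _ _ fun i hi => ?_
  rw [mem_Ico] at hi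
  exact refl1 (by omega) (by omega)

theorem Hn_refl (h5 : 5 ≤ p) {i : ℕ} (hi : i < p) : OP p 1 (Hn p (p - i - 1) - Hn p i) := by
  induction i with
  | zero => simpa [Hn] using Hn_top h5
  | succ i ih =>
    have h1 := ih (by omega)
    have h2 := refl1 (p := p) (i := i + 1) (by omega) hi
    rw [show p - i - 1 = (p - (i + 1) - 1) + 1 by omega, Hn_succ,
      show p - (i + 1) - 1 + 1 = p - (i + 1) by omega] at h1
    rw [Hn_succ]
    exact (h1.sub h2).congr (by ring)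

theorem choose_pm1 {l : ℕ} (hl : l < p) :
    OP p 2 ((-1 : ℚ_[p]) ^ l * ((p - 1).choose l : ℕ) - 1 + p * Hn p l) := by
  induction l with
  | zero => simpa [Hn] using OP.zero (p := p) 2
  | succ l ih =>
    have h1 := ih (by omega)
    have hu := not_dvd_of_lt (p := p) (i := l + 1) (by omega) hl
    have hne := OP.nat_ne hu
    have hi := OP.inv_nat hu
    have h2 := congrArg (fun x : ℕ => (x : ℚ_[p])) (Nat.choose_succ_right_eq (p - 1) l)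
    have h3 : ((p - 1 - l : ℕ) : ℚ_[p]) = p - ((l + 1 : ℕ) : ℚ_[p]) := by
      rw [show p - 1 - l = p - (l + 1) by omega, Nat.cast_sub hl.le]
    simp only [Nat.cast_mul] at h2
    rw [h3] at h2
    have h4 : (((p - 1).choose (l + 1) : ℕ) : ℚ_[p]) =
        ((p - 1).choose l : ℕ) * (p * ((l + 1 : ℕ) : ℚ_[p])⁻¹ - 1) := by
      field_simp
      linear_combination h2
    rw [Hn_succ, h4, pow_succ]
    have h5 : OP p 0 (1 - p * ((l + 1 : ℕ) : ℚ_[p])⁻¹) :=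
      OP.one.sub ((OP.nat p).mulr hi)
    have h6 := ((OP.ppow (p := p) 2).mulr hi).mulr (Hn_int (p := p) (l := l) (by omega))
    exact ((h1.mulr h5).add h6).congr (by ring)

theorem gamma_mod (h5 : 5 ≤ p) :
    OP p 2 (p * ∑ l ∈ Ico 1 p, Hn p l / (l : ℚ_[p]) ^ 2 -
      3 / 2 * ∑ l ∈ Ico 1 p, ((l : ℚ_[p]) ^ 2)⁻¹) := by
  have h := alt2 (K := ℚ_[p]) (p - 1)
  have e1 : ∑ l ∈ Ico 1 p, ((l : ℚ_[p]) ^ 2)⁻¹ =
      ∑ i ∈ range (p - 1), (((i : ℚ_[p]) + 1) ^ 2)⁻¹ := by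
    rw [sum_Ico_eq_sum_range]
    refine sum_congr rfl fun i _ => ?_
    push_cast; rw [add_comm]
  have e2 : ∑ l ∈ Ico 1 p, Hn p l / (l : ℚ_[p]) ^ 2 =
      ∑ i ∈ range (p - 1), Hn p (i + 1) * (((i : ℚ_[p]) + 1) ^ 2)⁻¹ := by
    rw [sum_Ico_eq_sum_range]
    refine sum_congr rfl fun i _ => ?_
    push_cast; rw [add_comm 1 i, add_comm (1 : ℚ_[p]), div_eq_mul_inv]
  have h1 : OP p 2 (∑ l ∈ range (p - 1), ((-1 : ℚ_[p]) ^ (l + 1) * ((p - 1).choose (l + 1) : ℕ)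
      - 1 + p * Hn p (l + 1)) * (((l : ℚ_[p]) + 1) ^ 2)⁻¹) := by
    refine OP.sum _ _ fun l hl => ?_
    have := mem_range.mp hl
    refine (choose_pm1 (by omega)).mulr ?_
    have := inv_pow_int (p := p) (i := l + 1) (by omega) (by omega) 2
    simpa using this
  have h2 : ∑ l ∈ range (p - 1), ((-1 : ℚ_[p]) ^ (l + 1) * ((p - 1).choose (l + 1) : ℕ)
      - 1 + p * Hn p (l + 1)) * (((l : ℚ_[p]) + 1) ^ 2)⁻¹ =
      - (∑ l ∈ range (p - 1), (-1 : ℚ_[p]) ^ l * ((p - 1).choose (l + 1) : ℕ) *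
        ((1 / ((l : ℚ_[p]) + 1)) / ((l : ℚ_[p]) + 1)))
      - ∑ i ∈ range (p - 1), (((i : ℚ_[p]) + 1) ^ 2)⁻¹
      + p * ∑ i ∈ range (p - 1), Hn p (i + 1) * (((i : ℚ_[p]) + 1) ^ 2)⁻¹ := by
    rw [mul_sum, ← sum_neg_distrib, ← sum_sub_distrib, ← sum_add_distrib]
    refine sum_congr rfl fun l _ => ?_
    rw [one_div, div_eq_mul_inv, ← inv_pow]; ring
  rw [h2, h] at h1
  have h3 := ((Hn_top h5).mul (Hn_top h5)).mulr (OP.inv2 h5)
  rw [e1, e2]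
  refine (h1.add h3).congr ?_
  unfold Hn; ring

theorem cube_half_int (h5 : 5 ≤ p) : OP p 0 (∑ i ∈ Ico 1 (p / 2 + 1), ((i : ℚ_[p]) ^ 3)⁻¹) := by
  have hh := odd_p h5
  refine OP.sum _ _ fun i hi => ?_
  rw [mem_Ico] at hi
  exact inv_pow_int (by omega) (by omega) 3

theorem H2_mod (h5 : 5 ≤ p) : OP p 2 (3 * ∑ l ∈ Ico 1 p, ((l : ℚ_[p]) ^ 2)⁻¹ +
    p * ∑ i ∈ Ico 1 (p / 2 + 1), ((i : ℚ_[p]) ^ 3)⁻¹) := by
  have hh := odd_p h5
  have ha : OP p 2 (∑ l ∈ Ico 1 p, ((l : ℚ_[p]) ^ 2)⁻¹ -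
      2 * ∑ i ∈ Ico 1 (p / 2 + 1), ((i : ℚ_[p]) ^ 2)⁻¹ -
      2 * p * ∑ i ∈ Ico 1 (p / 2 + 1), ((i : ℚ_[p]) ^ 3)⁻¹) := by
    rw [split_a' (fun l : ℕ => ((l : ℚ_[p]) ^ 2)⁻¹) hh, mul_sum, mul_sum, ← sum_sub_distrib,
      ← sum_sub_distrib]
    refine OP.sum _ _ fun i hi => ?_
    rw [mem_Ico] at hi
    exact (refl2 (p := p) (i := i) (by omega) (by omega)).congr (by ring)
  have hb : OP p 2 (4 * ∑ l ∈ Ico 1 p, ((l : ℚ_[p]) ^ 2)⁻¹ -
      2 * ∑ i ∈ Ico 1 (p / 2 + 1), ((i : ℚ_[p]) ^ 2)⁻¹ -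
      p * ∑ i ∈ Ico 1 (p / 2 + 1), ((i : ℚ_[p]) ^ 3)⁻¹) := by
    rw [split_b' (fun l : ℕ => ((l : ℚ_[p]) ^ 2)⁻¹) hh, mul_sum, mul_sum, mul_sum,
      ← sum_sub_distrib, ← sum_sub_distrib]
    refine OP.sum _ _ fun i hi => ?_
    rw [mem_Ico] at hi
    refine ((refl2 (p := p) (i := 2 * i) (by omega) (by omega)).mulr (OP.ofNat 4)).congr ?_
    push_cast
    simp only [mul_pow, mul_inv]
    ring
  exact (hb.sub ha).congr (by ring)

theorem bern_mod (h5 : 5 ≤ p) : OP p 1 (2 * ((bernoulli (p - 3) : ℚ) : ℚ_[p]) +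
    ∑ i ∈ Ico 1 (p / 2 + 1), ((i : ℚ_[p]) ^ 3)⁻¹) := by
  have hh := odd_p h5
  obtain ⟨e, he⟩ : ∃ e, p = e + 4 := ⟨p - 4, by omega⟩
  have hev : Even (e + 1) := ⟨p / 2 - 1, by omega⟩
  have hF := faulhaber_mod (p := p) (e + 1) (by omega)
  rw [range_eq_Ico, sum_eq_sum_Ico_succ_bot (by omega), Nat.cast_zero, zero_pow (by omega),
    zero_add, zero_add] at hF
  rw [show p - 3 = e + 1 by omega]
  have hep : (e : ℚ_[p]) = p - 4 := by
    have := congrArg (fun x : ℕ => (x : ℚ_[p])) he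
    simp only [Nat.cast_add, Nat.cast_ofNat] at this
    linear_combination -this
  have hr : ∀ i : ℕ, i ≤ p → OP p 2 (((p - i : ℕ) : ℚ_[p]) ^ (e + 1) - (i : ℚ_[p]) ^ (e + 1) -
      3 * p * (i : ℚ_[p]) ^ e) := by
    intro i hi
    have h1 := OP.taylor (OP.nat (p := p) i) (OP.self.neg) e
    have h2 : ((p - i : ℕ) : ℚ_[p]) ^ (e + 1) = ((i : ℚ_[p]) + -p) ^ (e + 1) := by
      rw [Nat.cast_sub hi, ← hev.neg_pow]; congr 1; ring
    rw [h2]
    refine (h1.sub ((OP.ppow 2).mulr ((OP.nat (p := p) i).pow e))).congr ?_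
    rw [hep]; ring
  have hf : ∀ i : ℕ, 0 < i → i < p → ∀ c d : ℕ, c + d = p - 1 →
      OP p 1 ((i : ℚ_[p]) ^ c - ((i : ℚ_[p]) ^ d)⁻¹) := by
    intro i h0 h1 c d hcd
    have hu := not_dvd_of_lt (p := p) h0 h1
    have hne := OP.nat_ne hu
    refine ((OP.fermat hu).mulr (inv_pow_int h0 h1 d)).congr ?_
    rw [← hcd]; field_simp; ring
  set U := ∑ i ∈ Ico 1 (p / 2 + 1), (i : ℚ_[p]) ^ (e + 1) with hU
  set V := ∑ i ∈ Ico 1 (p / 2 + 1), (i : ℚ_[p]) ^ e with hV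
  set a := ∑ i ∈ Ico 1 (p / 2 + 1), ((i : ℚ_[p]) ^ 3)⁻¹ with ha
  have hVa : OP p 1 (V - a) := by
    rw [hV, ha, ← sum_sub_distrib]
    refine OP.sum _ _ fun i hi => ?_
    rw [mem_Ico] at hi
    exact hf i (by omega) (by omega) e 3 (by omega)
  have hU1 : OP p 1 U := by
    have h1 := (gsq_both h5 (k := 1) (h := p / 2) le_rfl (by rw [pow_one]; exact hh)).1
    have h2 : OP p 1 (U - ∑ i ∈ Ico 1 (p / 2 + 1), gsq p i) := by
      rw [hU, ← sum_sub_distrib]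
      refine OP.sum _ _ fun i hi => ?_
      rw [mem_Ico] at hi
      rw [gsq, if_neg (not_dvd_of_lt (by omega) (by omega))]
      exact hf i (by omega) (by omega) (e + 1) 2 (by omega)
    exact (h1.add h2).congr (by ring)
  have hA : OP p 2 (∑ l ∈ Ico 1 p, (l : ℚ_[p]) ^ (e + 1) - 2 * U - 3 * p * V) := by
    rw [split_a' (fun l : ℕ => (l : ℚ_[p]) ^ (e + 1)) hh, hU, hV, mul_sum, mul_sum,
      ← sum_sub_distrib, ← sum_sub_distrib]
    refine OP.sum _ _ fun i hi => ?_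
    rw [mem_Ico] at hi
    exact (hr i (by omega)).congr (by ring)
  have hB : OP p 2 (∑ l ∈ Ico 1 p, (l : ℚ_[p]) ^ (e + 1) - 2 * 2 ^ (e + 1) * U -
      3 * p * 2 ^ e * V) := by
    rw [split_b' (fun l : ℕ => (l : ℚ_[p]) ^ (e + 1)) hh, hU, hV, mul_sum, mul_sum,
      ← sum_sub_distrib, ← sum_sub_distrib]
    refine OP.sum _ _ fun i hi => ?_
    rw [mem_Ico] at hi
    refine (hr (2 * i) (by omega)).congr ?_
    push_cast
    simp only [mul_pow]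
    ring
  have h2 : OP p 1 ((2 : ℚ_[p]) ^ (e + 3) - 1) := by
    have := OP.fermat (p := p) (n := 2) (not_dvd_of_lt (by omega) (by omega))
    rw [show p - 1 = e + 3 by omega] at this
    simpa using this
  have hV0 : OP p 0 V := OP.sum _ _ fun i _ => (OP.nat i).pow e
  have h3 := (h2.mul hU1).mulr (OP.ofNat (p := p) 4)
  have h4 := ((h2.mul OP.self).mulr hV0).mulr (OP.ofNat (p := p) 3)
  have h6 := (hVa.mul OP.self).mulr (OP.ofNat (p := p) 3)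
  refine OP.of_p_mul (k := 1) ?_
  refine ((((((hB.mulr (OP.ofNat 8)).sub (hA.mulr (OP.ofNat 2))).add h3).add h4).sub
    ((hF.mulr (OP.ofNat 6)).add h6)).mulr (OP.inv3 h5)).congr ?_
  ring

theorem harm_consts (h5 : 5 ≤ p) : ∃ β : ℚ_[p], ‖β‖ ≤ 1 ∧
    ∑ l ∈ Ico 1 p, ((l : ℚ_[p]) ^ 2)⁻¹ = p * β ∧
    ‖∑ i ∈ Ico 1 (p / 2 + 1), ((i : ℚ_[p]) * (p - i))⁻¹ + p * β / 2‖ ≤ ‖(p : ℚ_[p])‖ ^ 2 ∧
    ‖∑ l ∈ Ico 1 p, ((l : ℚ_[p]) ^ 3)⁻¹‖ ≤ ‖(p : ℚ_[p])‖ ∧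
    ‖∑ l ∈ Ico 1 p, Hn p l / (l : ℚ_[p]) ^ 2 - 3 / 2 * β‖ ≤ ‖(p : ℚ_[p])‖ ∧
    ‖∑ l ∈ Ico (p / 2 + 1) p, Hn p (l - 1) / (l : ℚ_[p]) ^ 2 + 3 / 4 * β‖ ≤ ‖(p : ℚ_[p])‖ ∧
    ‖3 / 2 * β - ((bernoulli (p - 3) : ℚ) : ℚ_[p])‖ ≤ ‖(p : ℚ_[p])‖ := by
  have hh := odd_p h5
  have hp0 := OP.p_ne (p := p)
  obtain ⟨β, hβ⟩ : ∃ β : ℚ_[p], ∑ l ∈ Ico 1 p, ((l : ℚ_[p]) ^ 2)⁻¹ = p * β :=
    ⟨(∑ l ∈ Ico 1 p, ((l : ℚ_[p]) ^ 2)⁻¹) / p, by field_simp⟩
  have ha0 := cube_half_int h5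
  have hH := H2_mod h5
  have hB := bern_mod h5
  have hG := gamma_mod h5
  rw [hβ] at hH hG
  set a := ∑ i ∈ Ico 1 (p / 2 + 1), ((i : ℚ_[p]) ^ 3)⁻¹ with ha
  have h1 : OP p 1 (3 * β + a) := OP.of_p_mul (k := 1) (hH.congr (by ring))
  have h2 : OP p 1 (∑ l ∈ Ico 1 p, Hn p l / (l : ℚ_[p]) ^ 2 - 3 / 2 * β) :=
    OP.of_p_mul (k := 1) (hG.congr (by ring))
  have key : ∀ x : ℚ_[p], OP p 1 x → ‖x‖ ≤ ‖(p : ℚ_[p])‖ := fun x hx => by
    simpa [OP] using hx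
  refine ⟨β, ?_, hβ, ?_, key _ ?_, key _ h2, key _ ?_, key _ ?_⟩
  · have : OP p 0 β := (((h1.mono (Nat.zero_le _)).sub ha0).mulr (OP.inv3 h5)).congr (by ring)
    simpa [OP] using this
  · change OP p 2 _
    rw [← hβ, split_a' (fun l : ℕ => ((l : ℚ_[p]) ^ 2)⁻¹) hh, sum_div, ← sum_add_distrib]
    refine OP.sum _ _ fun i hi => ?_
    rw [mem_Ico] at hi
    obtain ⟨u, v, hu, hv, e, eu, ev⟩ := refl_all (p := p) (i := i) (by omega) (by omega)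
    rw [← Nat.cast_sub (by omega : i ≤ p)]
    simp only [← inv_pow, mul_inv, eu, ev]
    refine (((OP.ppow 2).mulr ((hu.mulr hv).pow 2)).mulr (OP.inv2 h5)).congr ?_
    linear_combination (-(u + v + p * u * v) / 2) * e
  · rw [split_a' (fun l : ℕ => ((l : ℚ_[p]) ^ 3)⁻¹) hh]
    refine OP.sum _ _ fun i hi => ?_
    rw [mem_Ico] at hi
    exact refl3 (by omega) (by omega)
  · have h3 : OP p 1 (∑ l ∈ Ico 1 p, Hn p l / (l : ℚ_[p]) ^ 2 -
        2 * ∑ l ∈ Ico (p / 2 + 1) p, Hn p (l - 1) / (l : ℚ_[p]) ^ 2 + a) := by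
      rw [split_a' (fun l : ℕ => Hn p l / (l : ℚ_[p]) ^ 2) hh,
        split_c' (fun l : ℕ => Hn p (l - 1) / (l : ℚ_[p]) ^ 2) hh, ha, mul_sum,
        ← sum_sub_distrib, ← sum_add_distrib]
      refine OP.sum _ _ fun i hi => ?_
      rw [mem_Ico] at hi
      have r1 := Hn_refl h5 (i := i) (by omega)
      have r2 := refl2' (p := p) (i := i) (by omega) (by omega)
      have r3 := refl3 (p := p) (i := i) (by omega) (by omega)
      have r4 := Hn_succ (p := p) (p - i - 1)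
      rw [show p - i - 1 + 1 = p - i by omega] at r4
      have r5 := inv_pow_int (p := p) (i := p - i) (by omega) (by omega) 2
      have r6 := Hn_int (p := p) (l := i) (by omega)
      refine ((r3.sub (r1.mulr r5)).sub (r2.mulr r6)).congr ?_
      rw [r4]
      simp only [div_eq_mul_inv, ← inv_pow]
      ring
    refine ((((h2.sub h3).add h1).mulr (OP.inv2 h5))).congr ?_
    ring
  · refine (((h1.sub hB).mulr (OP.inv2 h5))).congr ?_
    ring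

end Pool.Agent.MP_54d89f_nt

end
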