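import Pool.Agent.Mg.F54d89f.G13c6d7
import Pool.Agent.Mg.F54d89f.Gf63526

section

/-! The normalised difference and its expansion modulo the fifth power of p. -/

namespace Pool.Agent.MP_54d89f_nt

open Finset

variable {p : ℕ} [hp : Fact p.Prime]

/-- weighted harmonic sum -/
noncomputable def GG (p : ℕ) [Fact p.Prime] (l : ℕ) : ℚ_[p] :=
  ∑ i ∈ range l, (∑ j ∈ range i, ((j : ℚ_[p]) + 1)⁻¹) * (((i : ℚ_[p]) + 1) ^ 2)⁻¹

/-- the harmonic congruences that the argument uses -/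
structure HC (p : ℕ) [Fact p.Prime] (β : ℚ_[p]) : Prop where
  h5 : 5 ≤ p
  nb : ‖β‖ ≤ 1
  h2 : ∑ i ∈ range (p - 1), (((i : ℚ_[p]) + 1) ^ 2)⁻¹ = p * β
  he : ‖2 * eps p + β‖ ≤ ‖(p : ℚ_[p])‖ ^ 1
  h3 : ‖∑ i ∈ range (p - 1), (((i : ℚ_[p]) + 1) ^ 3)⁻¹‖ ≤ ‖(p : ℚ_[p])‖ ^ 1
  g1 : ‖2 * GG p (p - 1) - 3 * β‖ ≤ ‖(p : ℚ_[p])‖ ^ 1
  g2 : ‖2 * GG p (p / 2) - 9 / 2 * β‖ ≤ ‖(p : ℚ_[p])‖ ^ 1
  fu : ∀ s : ℕ, ‖FF p (p ^ (s + 1))‖ ≤ ‖(p : ℚ_[p])‖ ^ (s + 1)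

theorem HC.eps {β : ℚ_[p]} (H : HC p β) : ‖eps p‖ ≤ 1 := by
  have h := nsub (H.he.trans (pow_le_one₀ (norm_nonneg _) q_le)) H.nb
  rwa [add_sub_cancel_right, norm_mul, ntwo H.h5, one_mul] at h

theorem SS_zero (M l : ℕ) : SS p M l 0 = ∑ i ∈ range l, (((p : ℚ_[p]) * M + i + 1) ^ 2)⁻¹ := by
  simp [SS, yy]

theorem SS_O (M l : ℕ) (hl : l < p) : O 2 (fun n => SS p M l n - SS p M l 0 -
    (p : ℚ_[p]) * (n : ℚ_[p]) * (2 * GG p l)) := by
  have key : ∀ i ∈ range l, O 2 (fun n => yy p M i n * (((p : ℚ_[p]) * M + i + 1) ^ 2)⁻¹ -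
      (((p : ℚ_[p]) * M + i + 1) ^ 2)⁻¹ - (p : ℚ_[p]) * (n : ℚ_[p]) * (2 *
        ((∑ j ∈ range i, ((j : ℚ_[p]) + 1)⁻¹) * (((i : ℚ_[p]) + 1) ^ 2)⁻¹))) := by
    intro i hi
    have hi' : i + 1 < p := by have := mem_range.1 hi; omega
    have h1 := ninv (p := p) M hi'
    have h2 := ninv0 (p := p) hi'
    have h3 := nH (p := p) (i := i) (by omega)
    have h4 := inv_est (p := p) M hi'
    have h6 := yy_O (p := p) M i (by omega)
    simp only [← inv_pow]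
    generalize ((p : ℚ_[p]) * M + i + 1)⁻¹ = c at h1 h4
    generalize ((i : ℚ_[p]) + 1)⁻¹ = d at h2 h4
    generalize ∑ j ∈ range i, ((j : ℚ_[p]) + 1)⁻¹ = H at h3 h6
    have h7 : ‖2 * H * (c + d)‖ ≤ 1 := nm1 (nm1 (nof 2) h3) (nadd h1 h2)
    exact ((h6.mulT (IsT.const (np1 h1 2))).add (((O.const h4).pmul 1).mulT
      (IsT.cast.mul (IsT.const h7)))).congr fun n => by ring
  refine (O.sum key).congr fun n => ?_
  rw [SS_zero, SS, GG, mul_sum, mul_sum, ← sum_sub_distrib, ← sum_sub_distrib]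

theorem SS_full {β : ℚ_[p]} (H : HC p β) (M : ℕ) :
    O 2 (fun n => SS p M (p - 1) n - (p : ℚ_[p]) * β * (1 + 3 * (n : ℚ_[p]))) := by
  have hp0 := hp.out.pos
  have key : ∀ i ∈ range (p - 1), O 2 (fun _ => (((p : ℚ_[p]) * M + i + 1) ^ 2)⁻¹ -
      (((i : ℚ_[p]) + 1) ^ 2)⁻¹ + (p : ℚ_[p]) * (2 * (M : ℚ_[p])) * (((i : ℚ_[p]) + 1) ^ 3)⁻¹) := by
    intro i hi
    have hi' : i + 1 < p := by have := mem_range.1 hi; omega
    have h1 := ninv (p := p) M hi'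
    have h2 := ninv0 (p := p) hi'
    have h4 := inv_est (p := p) M hi'
    have h6 : ((p : ℚ_[p]) * M + i + 1)⁻¹ - ((i : ℚ_[p]) + 1)⁻¹ =
        -(p * M * ((p : ℚ_[p]) * M + i + 1)⁻¹ * ((i : ℚ_[p]) + 1)⁻¹) := by
      have := pm_ne (p := p) M i
      have := cs_ne (p := p) i
      field_simp
      ring
    simp only [← inv_pow]
    generalize ((p : ℚ_[p]) * M + i + 1)⁻¹ = c at h1 h4 h6
    generalize ((i : ℚ_[p]) + 1)⁻¹ = d at h2 h4 h6
    have h7 : ‖-(M * d * (2 * d + c))‖ ≤ 1 := by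
      rw [norm_neg]; exact nm1 (nm1 (nnat M) h2) (nadd (nm1 (nof 2) h2) h1)
    exact (((O.const h4).pmul 1).mulT (IsT.const h7)).congr fun n => by
      linear_combination (c + d) * h6
  have a1 := O.sum key
  have a2 := ((O.const H.h3).pmul 1).mulT (IsT.const (nm1 (nof 2) (nnat M)))
  have a3 := ((O.const H.g1).pmul 1).mulT IsT.cast
  refine ((((SS_O M (p - 1) (by omega)).add a1).sub a2).add a3).congr fun n => ?_
  rw [SS_zero, sum_add_distrib, sum_sub_distrib, ← mul_sum, H.h2]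
  ring

/-- ratio of the terms -/
noncomputable def rho (p : ℕ) [Fact p.Prime] (M n : ℕ) : ℚ_[p] := tau p n n * tau p n M ^ 2

theorem rho_O {β : ℚ_[p]} (H : HC p β) (M : ℕ) : O 4 (fun n => rho p M n - 1 +
    (p : ℚ_[p]) ^ 3 * β * 
      ((n : ℚ_[p]) ^ 3 + (n : ℚ_[p]) * (M : ℚ_[p]) * ((n : ℚ_[p]) + (M : ℚ_[p])))) := by
  have h1 := nnat (p := p) M
  have a1 := ((rho_E H.h5 H.eps).mul (tau_E H.h5 H.eps M) (by norm_num) (by norm_num)).mul
    (tau_E H.h5 H.eps M) (by norm_num) (by norm_num)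
  have a2 := ((O.const H.he).pmul 3).mulT (g := fun n : ℕ => (n : ℚ_[p]) ^ 3 +
    (n : ℚ_[p]) * (M : ℚ_[p]) * ((n : ℚ_[p]) + (M : ℚ_[p]))) (by fun_prop (disch := assumption))
  exact (a1.2.add a2).congr fun n => by rw [rho]; ring

theorem rho_three {β : ℚ_[p]} (H : HC p β) (M : ℕ) : O 3 (fun n => rho p M n - 1) := by
  have h1 := nnat (p := p) M
  have h2 := H.nb
  exact (((rho_O H M).mono (by norm_num)).sub (O.pp 3 (f := fun n : ℕ => β * ((n : ℚ_[p]) ^ 3 +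
    (n : ℚ_[p]) * (M : ℚ_[p]) * ((n : ℚ_[p]) + (M : ℚ_[p]))))
      (by fun_prop (disch := assumption)))).congr fun n => by ring

theorem rSS {β : ℚ_[p]} (H : HC p β) (M : ℕ) :
    O 5 (fun n => (p : ℚ_[p]) ^ 3 * rho p M n * SS p M (p - 1) n -
      (p : ℚ_[p]) ^ 4 * β * (1 + 3 * (n : ℚ_[p]))) := by
  have h1 : ‖(1 : ℚ_[p])‖ ≤ 1 := norm_one.le
  have h3 : ‖(3 : ℚ_[p])‖ ≤ 1 := nof 3
  have h4 := nm1 (nnat p) H.nb
  have a1 := (SS_full H M).pmul 3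
  have a2 : IsT (fun n => SS p M (p - 1) n) := ((SS_full H M).isT.add
    (g := fun n : ℕ => (p : ℚ_[p]) * β * (1 + 3 * (n : ℚ_[p])))
    (by fun_prop (disch := assumption))).congr fun n => by ring
  have a3 := ((((rho_three H M).mulT a2)).pmul 3).mono (by norm_num : 5 ≤ 3 + 3)
  exact (a1.add a3).congr fun n => by ring

/-- the normalised difference -/
noncomputable def W (p : ℕ) [Fact p.Prime] : ℕ → ℕ → ℚ_[p]
  | 0, n => p * ((rho p 0 n - 1) / (n : ℚ_[p]) ^ 2) + (p : ℚ_[p]) ^ 3 * rho p 0 n * SS p 0 (p - 1) n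
  | M + 1, n => (((M : ℚ_[p]) + 1) ^ 2 * W p M n + p * (rho p (M + 1) n - 1)) /
      ((n : ℚ_[p]) + M + 1) ^ 2 + (p : ℚ_[p]) ^ 3 * rho p (M + 1) n * SS p (M + 1) (p - 1) n

theorem nm_ne (n M : ℕ) : (n : ℚ_[p]) + M + 1 ≠ 0 := by
  have := cs_ne (p := p) (n + M)
  push_cast at this
  exact this

theorem Psi_succ' (N L : ℕ) : Psi p N (L + 1) =
    Psi p N L + (N : ℚ_[p]) ^ 3 * kap p N (L + 1) / ((N : ℚ_[p]) + L + 1) ^ 2 := by
  have h := kap_L (p := p) N L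
  have h1 := cs_ne (p := p) L
  have h2 := nm_ne (p := p) N L
  rw [Psi_succ]
  congr 1
  field_simp
  linear_combination -(N : ℚ_[p]) ^ 3 * h

theorem W_spec {β : ℚ_[p]} (H : HC p β) (M n : ℕ) :
    Psi p (p * n) (p * M + (p - 1)) - p * Psi p n M = (n : ℚ_[p]) ^ 3 * kap p n M * W p M n := by
  have hP := P_ne (p := p)
  induction M with
  | zero =>
    have h := kap_pmul H.h5 H.eps n 0
    rw [Psi_add, h, mul_zero, Psi_zero, Psi_zero, W, rho]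
    rw [mul_zero] at h
    rw [h]
    rcases Nat.eq_zero_or_pos n with rfl | hn
    · simp
    · have : (n : ℚ_[p]) ≠ 0 := by exact_mod_cast hn.ne'
      push_cast
      field_simp
      ring
  | succ M ih =>
    have h1 : p * (M + 1) = p * M + (p - 1) + 1 := by
      have := hp.out.pos
      rw [Nat.mul_succ]; omega
    have h2 := Psi_succ' (p := p) (p * n) (p * M + (p - 1))
    have h3 : ((p * n : ℕ) : ℚ_[p]) + ((p * M + (p - 1) : ℕ) : ℚ_[p]) + 1 =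
        p * ((n : ℚ_[p]) + M + 1) := by
      have := congrArg (Nat.cast (R := ℚ_[p])) h1
      rw [Nat.cast_succ] at this
      rw [add_assoc, ← this]
      push_cast
      ring
    rw [← h1, h3] at h2
    have h4 := kap_L (p := p) n M
    have h6 := nm_ne (p := p) n M
    rw [Psi_add, h2, Psi_succ', kap_pmul H.h5 H.eps, W, rho, eq_add_of_sub_eq ih]
    push_cast
    field_simp
    linear_combination (-(n : ℚ_[p]) ^ 3 * W p M n) * h4

theorem W_rec {β : ℚ_[p]} (H : HC p β) (M : ℕ) : IsT (fun n => (n : ℚ_[p]) ^ 3 * W p M n -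
    2 * (2 * (n : ℚ_[p]) + 1) * (((n : ℚ_[p]) + (M : ℚ_[p]) + 1) ^ 2 * W p M (n + 1))) := by
  have hp0 := hp.out.pos
  choose! Z hZ e using fun j (hj : j < p) => Z_T H.h5 H.eps M (p - 1) j (by omega) hj
  have h2 : ‖(2 : ℚ_[p])‖ ≤ 1 := nof 2
  have h3 : ‖(3 : ℚ_[p])‖ ≤ 1 := nof 3
  have h4 := nnat (p := p) p
  have h6 := nm1 h2 (nnat (p := p) (p * M + (p - 1)))
  have h7 := nm1 h2 (nnat (p := p) M)
  have a1 : IsT (fun n : ℕ => ∑ j ∈ range p, (3 * ((p : ℚ_[p]) * (n : ℚ_[p]) + (j : ℚ_[p])) +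
      2 * ((p * M + (p - 1) : ℕ) : ℚ_[p]) + 2) * Z j n) := IsT.sum fun j hj => by
    have := hZ j (mem_range.1 hj)
    have := nnat (p := p) j
    fun_prop (disch := assumption)
  have a2 : IsT (fun n : ℕ => (p : ℚ_[p]) * (3 * (n : ℚ_[p]) + 2 * (M : ℚ_[p]) + 2)) := by
    fun_prop (disch := assumption)
  refine (a2.sub a1).congr fun n => ?_
  have e1 := W_spec H M n
  have e2 := W_spec H M (n + 1)
  have e3 := kap_N (p := p) n M
  have e4 : Psi p (p * (n + 1)) (p * M + (p - 1)) = Psi p (p * n) (p * M + (p - 1)) +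
      kap p n M * ∑ j ∈ range p, (3 * ((p : ℚ_[p]) * (n : ℚ_[p]) + (j : ℚ_[p])) +
      2 * ((p * M + (p - 1) : ℕ) : ℚ_[p]) + 2) * Z j n := by
    rw [Nat.mul_succ, Psi, sum_range_add, ← Psi, mul_sum]
    congr 1
    refine sum_congr rfl fun j hj => ?_
    rw [e j (mem_range.1 hj), Nat.cast_add, Nat.cast_mul]
    ring
  have e5 : Psi p (n + 1) M = Psi p n M + (3 * (n : ℚ_[p]) + 2 * M + 2) * kap p n M := by
    rw [Psi, sum_range_succ, ← Psi]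
  rw [e4, e5, Nat.cast_succ] at e2
  apply mul_left_cancel₀ (kap_ne (p := p) n M)
  linear_combination e2 - e1 + W p M (n + 1) * e3

theorem W_O {β : ℚ_[p]} (H : HC p β) (M : ℕ) : O 5 (fun n => W p M n -
    (p : ℚ_[p]) ^ 4 * β * ((M : ℚ_[p]) + 1 + 2 * (n : ℚ_[p]))) := by
  have h1 : ‖(1 : ℚ_[p])‖ ≤ 1 := norm_one.le
  have h2 : ‖(2 : ℚ_[p])‖ ≤ 1 := nof 2
  have h3 : ‖(3 : ℚ_[p])‖ ≤ 1 := nof 3
  have hb := nm1 (np1 (nnat p) 4) H.nb
  induction M with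
  | zero =>
    have a1 := (O.div0 (rho_O H 0) (by simp [rho, tau_zero H.h5 H.eps]) fun s => ?_).pmul 1
    · refine (a1.add (rSS H 0)).congr fun n => ?_
      rw [W]
      rcases Nat.eq_zero_or_pos n with rfl | hn
      · simp
      · have : (n : ℚ_[p]) ≠ 0 := by exact_mod_cast hn.ne'
        field_simp
        push_cast
        ring
    · have b1 := rho_small H.h5 H.eps (p ^ s) (by
        rw [← pow_succ']
        refine (H.fu s).trans (le_of_eq ?_)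
        push_cast
        rw [← pow_succ', norm_pow])
      have b2 : ‖((p ^ s : ℕ) : ℚ_[p])‖ = ‖(p : ℚ_[p])‖ ^ s := by push_cast; rw [norm_pow]
      simp only [rho, tau_zero H.h5 H.eps, Nat.cast_zero, mul_zero, zero_mul, add_zero, one_pow,
        mul_one]
      refine nadd (b1.trans ?_) ?_
      · gcongr
        exact nmul_nat p b2.le
      · rw [norm_mul, norm_pow ((p ^ s : ℕ) : ℚ_[p]), b2]
        exact mul_le_of_le_one_left (by positivity) (nm1 (np1 (nnat p) 3) H.nb)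
  | succ M ih =>
    have hM := nnat (p := p) M
    have hM1 := nadd hM h1
    have a1 : O 5 (fun n : ℕ => ((n : ℚ_[p]) + ((M + 1 : ℕ) : ℚ_[p])) ^ 2 * (W p (M + 1) n -
        (p : ℚ_[p]) ^ 4 * β * (((M + 1 : ℕ) : ℚ_[p]) + 1 + 2 * (n : ℚ_[p])))) := by
      refine (((ih.mulT (IsT.const (np1 hM1 2))).add ((rho_O H (M + 1)).pmul 1)).add
        ((rSS H (M + 1)).mulT (g := fun n : ℕ => ((n : ℚ_[p]) + (M : ℚ_[p]) + 1) ^ 2)
          (by fun_prop (disch := assumption)))).congr fun n => ?_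
      have := nm_ne (p := p) n M
      rw [W]
      push_cast
      field_simp
      ring
    have hM2 : ‖((M + 1 : ℕ) : ℚ_[p])‖ ≤ 1 := nnat _
    have hM3 := nadd hM2 h1
    have a0 : IsT (fun n : ℕ =>
        (p : ℚ_[p]) ^ 4 * β * (((M + 1 : ℕ) : ℚ_[p]) + 1 + 2 * (n : ℚ_[p]))) := by
      fun_prop (disch := assumption)
    have a2 : IsT (fun n : ℕ => ((n : ℚ_[p]) + ((M + 1 : ℕ) : ℚ_[p])) ^ 2 * W p (M + 1) n) :=
      (a1.isT.add (((IsT.cast.add (IsT.const hM2)).pow 2).mul a0)).congr fun n => by ring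
    have a3 : IsT (fun n : ℕ => (n : ℚ_[p]) ^ 3 * W p (M + 1) n) :=
      ((W_rec H (M + 1)).add (IsT.mul (f := fun n : ℕ => 2 * (2 * (n : ℚ_[p]) + 1))
        (by fun_prop (disch := assumption)) (TT_shift a2))).congr fun n => by push_cast; ring
    refine O.div2 (M + 1) (c := ((M + 1 : ℕ) : ℚ_[p]) ^ 4)
      (pow_ne_zero _ (by exact_mod_cast Nat.succ_ne_zero M)) ?_ a1
    generalize ((M + 1 : ℕ) : ℚ_[p]) = m at a0 a2 hM2
    have h4 : ‖(4 : ℚ_[p])‖ ≤ 1 := nof 4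
    have h6 := nm1 h4 hM2
    have h7 := np1 hM2 2
    have h8 := nm1 h2 hM2
    exact (((a3.mul (g := fun n : ℕ => -(3 * (n : ℚ_[p]) + 4 * m))
      (by fun_prop (disch := assumption))).add (a2.mul
        (g := fun n : ℕ => 3 * (n : ℚ_[p]) ^ 2 - 2 * m * (n : ℚ_[p]) + m ^ 2)
        (by fun_prop (disch := assumption)))).sub ((IsT.const (np1 hM2 4)).mul a0)).congr
      fun n => by ring

theorem W_zero {β : ℚ_[p]} (H : HC p β) (M : ℕ) :
    W p M 0 = (p : ℚ_[p]) ^ 3 * FF p (p * (M + 1)) := by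
  induction M with
  | zero => rw [W, FF_succ, SS_zero]; simp [rho, FF, tau_zero H.h5 H.eps]
  | succ M ih =>
    have := cs_ne (p := p) M
    rw [W, ih, FF_succ (M + 1), SS_zero, rho, zero_tau H.h5 H.eps, zero_tau H.h5 H.eps]
    push_cast
    rw [zero_add]
    field_simp
    ring

theorem main_est {β : ℚ_[p]} (H : HC p β) (M n : ℕ) : ∃ r : ℚ_[p],
    ‖r‖ ≤ ‖(p : ℚ_[p])‖ ^ 5 * ‖(n : ℚ_[p])‖ ∧
    Psi p (p * n) (p * M + p / 2) - p * Psi p n M = (n : ℚ_[p]) ^ 3 * kap p n M *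
      ((p : ℚ_[p]) ^ 3 * FF p (p * M + p / 2 + 1) + 7 / 2 * β * (p : ℚ_[p]) ^ 4 * n + r) := by
  have h5 := H.h5
  have hh : p / 2 < p := by omega
  set V : ℕ → ℚ_[p] := fun n => W p M n - (p : ℚ_[p]) ^ 3 * rho p M n * SS p M (p - 1) n +
    (p : ℚ_[p]) ^ 3 * rho p M n * SS p M (p / 2) n with hV
  have a0 : IsT (fun n => SS p M (p / 2) n) := IsT.sum fun i hi => by
    have hi' := mem_range.1 hi
    refine (yy_T M i (by omega)).mul (IsT.const ?_)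
    rw [← inv_pow]
    exact np1 (ninv M (by omega)) 2
  have a1 : O 5 (fun n => V n - 7 / 2 * β * (p : ℚ_[p]) ^ 4 * (n : ℚ_[p]) -
      ((p : ℚ_[p]) ^ 4 * β * (M : ℚ_[p]) + (p : ℚ_[p]) ^ 3 * SS p M (p / 2) 0)) := by
    refine (((((W_O H M).sub (rSS H M)).add ((SS_O M _ hh).pmul 3)).add
      ((((rho_three H M).mulT a0).pmul 3).mono (by norm_num))).add
        (((O.const H.g2).pmul 4).mulT IsT.cast)).congr fun n => ?_
    simp only [hV]
    ring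
  refine ⟨_, a1.lip n, ?_⟩
  have e1 := W_spec H M n
  have e2 := Psi_add (p := p) n M (p - 1)
  have e3 := Psi_add (p := p) n M (p / 2)
  have e4 : V 0 = (p : ℚ_[p]) ^ 3 * FF p (p * M + p / 2 + 1) := by
    simp only [hV]
    rw [W_zero H, FF_succ, FF_add M _ hh, SS_zero, SS_zero, rho, zero_tau h5 H.eps,
      zero_tau h5 H.eps]
    ring
  rw [kap_pmul h5 H.eps] at e2 e3
  rw [e4]
  simp only [hV, rho]
  push_cast
  linear_combination e1 + e3 - e2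

end Pool.Agent.MP_54d89f_nt

end

section

/-! Passage to the limit in the parameter. -/

namespace Pool.Agent.MP_54d89f_nt

open Finset Filter Topology

variable {p : ℕ} [hp : Fact p.Prime]

/-- rising factorial divided by the factorial -/
noncomputable def AA (N : ℕ) (x : ℚ_[p]) : ℚ_[p] := ∏ i ∈ range N, ((x + i) * ((i : ℚ_[p]) + 1)⁻¹)

theorem AA_nat (N M : ℕ) : AA N ((M : ℚ_[p]) + 1) = ((N + M).choose N : ℚ_[p]) := by
  induction N with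
  | zero => simp [AA]
  | succ N ih =>
    have h := Nat.add_one_mul_choose_eq (N + M) N
    have h' : ((N : ℚ_[p]) + M + 1) * ((N + M).choose N : ℚ_[p]) =
        ((N + 1 + M).choose (N + 1) : ℚ_[p]) * (N + 1) := by
      rw [show N + 1 + M = N + M + 1 by ring]
      exact_mod_cast congrArg (Nat.cast (R := ℚ_[p])) h
    have h1 := cs_ne (p := p) N
    rw [AA, prod_range_succ, ← AA, ih]
    field_simp
    linear_combination h'

theorem AA_half (N : ℕ) : AA N (2⁻¹ : ℚ_[p]) = ((2 * N).choose N : ℚ_[p]) / 4 ^ N := by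
  induction N with
  | zero => simp [AA]
  | succ N ih =>
    have h2 := Nat.succ_mul_centralBinom_succ N
    rw [Nat.centralBinom_eq_two_mul_choose, Nat.centralBinom_eq_two_mul_choose] at h2
    have h2' : ((N : ℚ_[p]) + 1) * ((2 * (N + 1)).choose (N + 1) : ℚ_[p]) =
        2 * (2 * N + 1) * ((2 * N).choose N : ℚ_[p]) := by
      exact_mod_cast congrArg (Nat.cast (R := ℚ_[p])) h2
    have h1 := cs_ne (p := p) N
    rw [AA, prod_range_succ, ← AA, ih]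
    field_simp
    linear_combination (-2 * 4 ^ N) * h2'

/-- the term as a function of the parameter -/
noncomputable def kx (N : ℕ) (x : ℚ_[p]) : ℚ_[p] := ((N + N).choose N : ℚ_[p]) * AA N x ^ 2

/-- the sum as a function of the parameter -/
noncomputable def Phi (N : ℕ) (x : ℚ_[p]) : ℚ_[p] := ∑ n ∈ range N, (3 * (n : ℚ_[p]) + 2 * x) * kx n x

theorem kx_nat (N M : ℕ) : kx N ((M : ℚ_[p]) + 1) = kap p N M := by rw [kx, AA_nat, kap]

theorem Phi_nat (N M : ℕ) : Phi N ((M : ℚ_[p]) + 1) = Psi p N M :=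
  sum_congr rfl fun n _ => by rw [kx_nat]; ring

theorem kx_half (N : ℕ) : kx N (2⁻¹ : ℚ_[p]) = ((2 * N).choose N : ℚ_[p]) ^ 3 / 16 ^ N := by
  rw [kx, AA_half, ← two_mul, show (16 : ℚ_[p]) = 4 ^ 2 by norm_num, ← pow_mul, mul_comm 2 N,
    pow_mul]
  ring

theorem kx_cont (N : ℕ) : Continuous (kx (p := p) N) := by
  unfold kx AA
  fun_prop

theorem Phi_cont (N : ℕ) : Continuous (Phi (p := p) N) := by
  have := kx_cont (p := p)
  unfold Phi
  fun_prop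

theorem limit_est {β : ℚ_[p]} (H : HC p β)
    (hf : ∀ s : ℕ, ‖FF p ((p ^ (s + 1) + 1) / 2)‖ ≤ ‖(p : ℚ_[p])‖ ^ (s + 1)) (n : ℕ) :
    ‖Phi (p * n) (2⁻¹ : ℚ_[p]) - (p : ℚ_[p]) * Phi n 2⁻¹ -
      (n : ℚ_[p]) ^ 3 * kx n 2⁻¹ * (7 / 2 * β * (p : ℚ_[p]) ^ 4 * (n : ℚ_[p]))‖ ≤
      ‖(n : ℚ_[p]) ^ 3 * kx n 2⁻¹‖ * (‖(p : ℚ_[p])‖ ^ 5 * ‖(n : ℚ_[p])‖) := by
  have ho := p_odd H.h5
  have hodd : ∀ s, p ^ s = 2 * (p ^ s / 2) + 1 := fun s => by
    have : Odd (p ^ s) := Odd.pow ⟨p / 2, ho⟩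
    obtain ⟨k, hk⟩ := this
    omega
  have hM : ∀ s, p ^ (s + 1) / 2 = p * (p ^ s / 2) + p / 2 := fun s => by
    have h1 := hodd s
    have h2 : p ^ (s + 1) = 2 * (p * (p ^ s / 2) + p / 2) + 1 := by
      rw [pow_succ']
      generalize p ^ s / 2 = a at h1
      rw [h1]
      generalize p / 2 = b at ho
      rw [ho]
      ring
    omega
  set x : ℕ → ℚ_[p] := fun s => ((p ^ s / 2 : ℕ) : ℚ_[p]) + 1 with hx
  have t0 : Tendsto (fun s : ℕ => (p : ℚ_[p]) ^ s) atTop (𝓝 0) :=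
    tendsto_pow_atTop_nhds_zero_of_norm_lt_one Padic.norm_p_lt_one
  have t1 : Tendsto x atTop (𝓝 2⁻¹) := by
    have := (t0.add_const 1).mul_const 2⁻¹
    rw [zero_add, one_mul] at this
    refine this.congr fun s => ?_
    have h := congrArg (Nat.cast (R := ℚ_[p])) (hodd s)
    rw [Nat.cast_succ, Nat.cast_mul, Nat.cast_pow] at h
    simp only [hx]
    rw [h]
    push_cast
    ring
  have t2 : Tendsto (fun s => x (s + 1)) atTop (𝓝 2⁻¹) := (tendsto_add_atTop_iff_nat 1).2 t1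
  have t3 : Tendsto (fun s => FF p ((p ^ (s + 1) + 1) / 2)) atTop (𝓝 0) := by
    refine squeeze_zero_norm hf ?_
    exact (tendsto_add_atTop_iff_nat 1).2
      (tendsto_pow_atTop_nhds_zero_of_lt_one (norm_nonneg _) Padic.norm_p_lt_one)
  have t4 := ((kx_cont n).tendsto _).comp t1
  have t5 := ((((((Phi_cont (p * n)).tendsto _).comp t2).sub
    ((((Phi_cont n).tendsto _).comp t1).const_mul (p : ℚ_[p]))).sub
      ((t4.const_mul ((n : ℚ_[p]) ^ 3)).mul ((t3.const_mul ((p : ℚ_[p]) ^ 3)).add_const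
        (7 / 2 * β * (p : ℚ_[p]) ^ 4 * (n : ℚ_[p])))))).norm
  have t6 := ((t4.const_mul ((n : ℚ_[p]) ^ 3)).norm).mul_const
    (‖(p : ℚ_[p])‖ ^ 5 * ‖(n : ℚ_[p])‖)
  rw [mul_zero, zero_add] at t5
  refine le_of_tendsto_of_tendsto' t5 t6 fun s => ?_
  obtain ⟨r, hr, e⟩ := main_est H (p ^ s / 2) n
  have e2 : (p ^ (s + 1) + 1) / 2 = p * (p ^ s / 2) + p / 2 + 1 := by
    have := hodd (s + 1)
    rw [← hM]
    omega
  simp only [Function.comp, hx]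
  rw [Phi_nat, Phi_nat, kx_nat, hM, e, e2, ← mul_sub, add_sub_cancel_left, norm_mul]
  gcongr

end Pool.Agent.MP_54d89f_nt

end

section

/-! The congruence in the p-adic numbers. -/

namespace Pool.Agent.MP_54d89f_nt

open Finset

variable {p : ℕ} [hp : Fact p.Prime]

theorem Ico_range (f : ℕ → ℚ_[p]) (b : ℕ) :
    ∑ l ∈ Ico 1 b, f l = ∑ i ∈ range (b - 1), f (i + 1) := by
  rw [sum_Ico_eq_sum_range]
  exact sum_congr rfl fun i _ => by rw [add_comm]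

theorem exists_HC (h5 : 5 ≤ p) : ∃ β : ℚ_[p], HC p β ∧
    ‖3 / 2 * β - ((bernoulli (p - 3) : ℚ) : ℚ_[p])‖ ≤ ‖(p : ℚ_[p])‖ := by
  obtain ⟨β, b1, b2, b3, b4, b5, b6, b7⟩ := harm_consts h5
  rw [Ico_range] at b2 b3 b4 b5
  push_cast at b2 b3 b4 b5
  have n2 : ∀ x : ℚ_[p], ‖2 * x‖ = ‖x‖ := fun x => by rw [norm_mul, ntwo h5, one_mul]
  have g1 : ‖2 * GG p (p - 1) - 3 * β‖ ≤ ‖(p : ℚ_[p])‖ := by
    have e : GG p (p - 1) = ∑ i ∈ range (p - 1), Hn p (i + 1) / ((i : ℚ_[p]) + 1) ^ 2 -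
        ∑ i ∈ range (p - 1), (((i : ℚ_[p]) + 1) ^ 3)⁻¹ := by
      rw [GG, ← sum_sub_distrib]
      refine sum_congr rfl fun i _ => ?_
      rw [Hn, sum_range_succ, div_eq_mul_inv]
      simp only [← inv_pow]
      ring
    rw [show 2 * GG p (p - 1) - 3 * β = 2 * (GG p (p - 1) - 3 / 2 * β) by ring, n2, e,
      sub_right_comm]
    exact nsub b5 b4
  refine ⟨β, ⟨h5, b1, b2, ?_, by simpa using b4, by simpa using g1, ?_, harm_full h5⟩, b7⟩
  · have hP := P_ne (p := p)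
    have e : 2 * eps p + β = 2 * ((∑ i ∈ range (p / 2), bb p i + p * β / 2) / p) := by
      rw [eps]
      field_simp
    rw [e, n2, norm_div, div_le_iff₀ q_pos, ← pow_succ]
    simpa [bb] using b3
  · have e : ∑ l ∈ Ico (p / 2 + 1) p, Hn p (l - 1) / (l : ℚ_[p]) ^ 2 =
        GG p (p - 1) - GG p (p / 2) := by
      have e1 := sum_Ico_add' (fun l : ℕ => Hn p (l - 1) / (l : ℚ_[p]) ^ 2) (p / 2) (p - 1) 1
      rw [show p - 1 + 1 = p by omega] at e1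
      rw [← e1, sum_Ico_eq_sub _ (by omega), GG, GG]
      simp [Hn, div_eq_mul_inv]
    rw [e, ← n2] at b6
    rw [pow_one, show 2 * GG p (p / 2) - 9 / 2 * β = (2 * GG p (p - 1) - 3 * β) -
      2 * (GG p (p - 1) - GG p (p / 2) + 3 / 4 * β) by ring]
    exact nsub g1 b6

theorem Phi_half (N : ℕ) : Phi N (2⁻¹ : ℚ_[p]) =
    ∑ k ∈ range N, (3 * (k : ℚ_[p]) + 1) * ((2 * k).choose k : ℚ_[p]) ^ 3 / 16 ^ k :=
  sum_congr rfl fun k _ => by rw [kx_half]; ring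

theorem final_padic (h5 : 5 ≤ p) (n : ℕ) (hn : 1 ≤ n) :
    ‖16 ^ n * (Phi (p * n) (2⁻¹ : ℚ_[p]) - (p : ℚ_[p]) * Phi n 2⁻¹) /
      (((p : ℚ_[p]) * (n : ℚ_[p])) ^ 4 * ((2 * n).choose n : ℚ_[p]) ^ 3) -
        7 / 3 * ((bernoulli (p - 3) : ℚ) : ℚ_[p])‖ ≤ ‖(p : ℚ_[p])‖ := by
  obtain ⟨β, H, hB⟩ := exists_HC h5
  have h := limit_est H (harm_half h5) n
  have hP := P_ne (p := p)
  have h1 : (n : ℚ_[p]) ≠ 0 := by exact_mod_cast (by omega : n ≠ 0)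
  have h2 : ((2 * n).choose n : ℚ_[p]) ≠ 0 := by
    exact_mod_cast (Nat.choose_pos (by omega : n ≤ 2 * n)).ne'
  have h3 : ‖(3 : ℚ_[p])‖ = 1 := by
    have := nunit (p := p) (m := 3) fun h => by have := Nat.le_of_dvd (by norm_num) h; omega
    simpa using this
  have h4 : (n : ℚ_[p]) ^ 3 * kx n 2⁻¹ * ((p : ℚ_[p]) ^ 4 * (n : ℚ_[p])) ≠ 0 := by
    rw [kx_half]
    exact mul_ne_zero (mul_ne_zero (pow_ne_zero _ h1) (div_ne_zero (pow_ne_zero _ h2)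
      (pow_ne_zero _ (by norm_num)))) (mul_ne_zero (pow_ne_zero _ hP) h1)
  have h6 : ‖(Phi (p * n) (2⁻¹ : ℚ_[p]) - (p : ℚ_[p]) * Phi n 2⁻¹ -
      (n : ℚ_[p]) ^ 3 * kx n 2⁻¹ * (7 / 2 * β * (p : ℚ_[p]) ^ 4 * (n : ℚ_[p]))) /
      ((n : ℚ_[p]) ^ 3 * kx n 2⁻¹ * ((p : ℚ_[p]) ^ 4 * (n : ℚ_[p])))‖ ≤ ‖(p : ℚ_[p])‖ := by
    rw [norm_div, div_le_iff₀ (norm_pos_iff.2 h4)]
    refine h.trans (le_of_eq ?_)
    rw [norm_mul ((n : ℚ_[p]) ^ 3 * kx n 2⁻¹), norm_mul ((p : ℚ_[p]) ^ 4), norm_pow (p : ℚ_[p])]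
    ring
  have h7 : ‖7 / 3 * (3 / 2 * β - ((bernoulli (p - 3) : ℚ) : ℚ_[p]))‖ ≤ ‖(p : ℚ_[p])‖ := by
    rw [norm_mul, norm_div, h3, div_one]
    exact (mul_le_of_le_one_left (norm_nonneg _) (nof 7)).trans hB
  refine le_trans (le_of_eq ?_) (nadd h6 h7)
  congr 1
  rw [kx_half]
  field_simp
  ring

theorem dvd_num_of_norm {q : ℚ} (h : ‖(q : ℚ_[p])‖ ≤ ‖(p : ℚ_[p])‖) : (p : ℤ) ∣ q.num := by
  rw [← Padic.norm_intCast_lt_one_iff]
  have e : ((q.num : ℤ) : ℚ_[p]) = (q.den : ℚ_[p]) * (q : ℚ_[p]) := by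
    exact_mod_cast (Rat.den_mul_eq_num q).symm
  rw [e]
  exact (nmul_nat _ h).trans_lt Padic.norm_p_lt_one

end Pool.Agent.MP_54d89f_nt

end
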