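import Pool.Agent.Mg.F54d89f.Gf63526

/-! Euler numbers and the alternating sum of inverse squares modulo p. -/

namespace Pool.Agent.MP_54d89f_nt.Dv

open Finset Polynomial

section euler
variable {K : Type*} [Field K]

/-- the linear form on polynomials with prescribed moments -/
noncomputable def umb (E : ℕ → K) : K[X] →ₗ[K] K :=
  Polynomial.lsum fun i => E i • (LinearMap.id : K →ₗ[K] K)

theorem umb_X (E : ℕ → K) (i : ℕ) : umb E (X ^ i) = E i := by
  rw [umb, lsum_apply, X_pow_eq_monomial, sum_monomial_index] <;> simp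

theorem umb_pow (E : ℕ → K) (f : K[X]) (x : K) (e : ℕ) : umb E ((f + C x) ^ e) =
    ∑ m ∈ range (e + 1), (e.choose m : ℕ) * x ^ (e - m) * umb E (f ^ m) := by
  rw [add_pow, map_sum]
  refine sum_congr rfl fun m _ => ?_
  rw [← smul_eq_mul _ (umb E _), ← map_smul, smul_eq_C_mul]
  congr 1
  simp only [map_mul, map_pow, map_natCast]
  ring

/-- the Appell sequence -/
noncomputable def app (E : ℕ → K) (e : ℕ) (x : K) : K := umb E ((X + C x) ^ e)

theorem app_eq (E : ℕ → K) (e : ℕ) (x : K) :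
    app E e x = ∑ m ∈ range (e + 1), (e.choose m : ℕ) * x ^ (e - m) * E m := by
  rw [app, umb_pow]; simp only [umb_X]

theorem app_add (E : ℕ → K) (e : ℕ) (x y : K) :
    app E e (y + x) = ∑ m ∈ range (e + 1), (e.choose m : ℕ) * x ^ (e - m) * app E m y := by
  rw [app, map_add, ← add_assoc, umb_pow]; rfl

theorem app_pm (E : ℕ → K)
    (hE : ∀ n, 1 ≤ n → ∑ k ∈ (range (n + 1)).filter (fun k => 2 ∣ k),
      (n.choose k : ℕ) * E (n - k) = 0) (m : ℕ) (hm : 1 ≤ m) :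
    app E m 1 + app E m (-1) = 0 := by
  have h := hE m hm
  rw [sum_filter] at h
  rw [app_eq, app_eq, ← sum_add_distrib, ← sum_range_reflect, ← mul_zero (2 : K), ← h, mul_sum]
  refine sum_congr rfl fun k hk => ?_
  have hk' : k ≤ m := by have := mem_range.1 hk; omega
  rw [show m + 1 - 1 - k = m - k by omega, Nat.choose_symm hk', show m - (m - k) = k by omega]
  split_ifs with h2
  · rw [(even_iff_two_dvd.2 h2).neg_one_pow]; ring
  · rw [(Nat.not_even_iff_odd.1 fun h3 => h2 h3.two_dvd).neg_one_pow]; ring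

theorem app_two (E : ℕ → K) (h0 : E 0 = 1)
    (hE : ∀ n, 1 ≤ n → ∑ k ∈ (range (n + 1)).filter (fun k => 2 ∣ k),
      (n.choose k : ℕ) * E (n - k) = 0) (e : ℕ) (x : K) :
    app E e (1 + x) + app E e (-1 + x) = 2 * x ^ e := by
  rw [app_add, app_add, ← sum_add_distrib, sum_range_succ', sum_eq_zero]
  · simp [app_eq, h0]; ring
  · intro m _
    rw [← mul_add, app_pm E hE _ (by omega), mul_zero]

theorem app_tele (E : ℕ → K) (h0 : E 0 = 1)
    (hE : ∀ n, 1 ≤ n → ∑ k ∈ (range (n + 1)).filter (fun k => 2 ∣ k),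
      (n.choose k : ℕ) * E (n - k) = 0) (e : ℕ) (he : Even e) (he1 : 1 ≤ e) (h : ℕ) :
    4 * ∑ c ∈ Ico 1 (h + 1), (-1 : K) ^ c * (2 * c) ^ e =
      (-1) ^ h * (app E e (2 * h + 1) + app E e (-(2 * h + 1))) := by
  induction h with
  | zero => simp [app_pm E hE e he1]
  | succ h ih =>
    rw [sum_Ico_succ_top (by omega), mul_add, ih]
    have h1 := app_two E h0 hE e (2 * ((h : K) + 1))
    have h2 := app_two E h0 hE e (-(2 * ((h : K) + 1)))
    rw [he.neg_pow] at h2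
    rw [show (1 + 2 * ((h : K) + 1)) = 2 * (h + 1) + 1 by ring,
      show (-1 + 2 * ((h : K) + 1)) = 2 * h + 1 by ring] at h1
    rw [show (1 + -(2 * ((h : K) + 1))) = -(2 * h + 1) by ring,
      show (-1 + -(2 * ((h : K) + 1))) = -(2 * (h + 1) + 1) by ring] at h2
    push_cast
    linear_combination ((-1) ^ h) * h1 + ((-1) ^ h) * h2

end euler

variable {p : ℕ} [hp : Fact p.Prime]

theorem pow_inv_mod {i : ℕ} (h0 : 0 < i) (h1 : i < p) {c d : ℕ} (hcd : c + d = p - 1) :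
    OP p 1 ((i : ℚ_[p]) ^ c - ((i : ℚ_[p]) ^ d)⁻¹) := by
  have hu := not_dvd_of_lt (p := p) h0 h1
  have hne := OP.nat_ne hu
  refine ((OP.fermat hu).mulr (inv_pow_int h0 h1 d)).congr ?_
  rw [← hcd]; field_simp; ring

theorem app_mod (E : ℕ → ℤ) (e : ℕ) {x : ℚ_[p]} (hx : OP p 1 x) :
    OP p 1 (app (fun i => (E i : ℚ_[p])) e x - E e) := by
  rw [app_eq, sum_range_succ]
  simp only [Nat.choose_self, Nat.cast_one, Nat.sub_self, pow_zero, one_mul, add_sub_cancel_right]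
  refine OP.sum _ _ fun m hm => ?_
  have := mem_range.1 hm
  rw [show e - m = e - m - 1 + 1 by omega, pow_succ]
  exact ((OP.nat _).mull (((hx.mono (Nat.zero_le _)).pow _).mull hx)).mulr (OP.int _)

theorem euler_mod (h5 : 5 ≤ p) (E : ℕ → ℤ) (h0 : E 0 = 1)
    (hE : ∀ n, 1 ≤ n → ∑ k ∈ (range (n + 1)).filter (fun k => 2 ∣ k),
      (n.choose k : ℤ) * E (n - k) = 0) :
    OP p 1 (∑ c ∈ Ico 1 (p / 2 + 1), (-1 : ℚ_[p]) ^ c * ((c : ℚ_[p]) ^ 2)⁻¹ -
      2 * (-1) ^ (p / 2) * E (p - 3)) := by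
  have hh := odd_p h5
  have h := app_tele (fun i => (E i : ℚ_[p])) (by simp [h0])
    (fun n hn => by exact_mod_cast hE n hn) (p - 3) ⟨p / 2 - 1, by omega⟩ (by omega) (p / 2)
  have hp' : (2 * ((p / 2 : ℕ) : ℚ_[p]) + 1) = p := by exact_mod_cast hh.symm
  rw [hp'] at h
  have h1 := app_mod (p := p) E (p - 3) OP.self
  have h2 := app_mod (p := p) E (p - 3) OP.self.neg
  have h3 : OP p 1 (4 * ∑ c ∈ Ico 1 (p / 2 + 1), (-1 : ℚ_[p]) ^ c * (2 * c) ^ (p - 3) -
      ∑ c ∈ Ico 1 (p / 2 + 1), (-1 : ℚ_[p]) ^ c * ((c : ℚ_[p]) ^ 2)⁻¹) := by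
    rw [mul_sum, ← sum_sub_distrib]
    refine OP.sum _ _ fun c hc => ?_
    rw [mem_Ico] at hc
    have := pow_inv_mod (p := p) (i := 2 * c) (by omega) (by omega) (c := p - 3) (d := 2) (by omega)
    refine ((this.mulr (OP.ofNat 4)).mulr (OP.one.neg.pow c)).congr ?_
    push_cast
    simp only [mul_pow (2 : ℚ_[p]) _ 2, mul_inv]
    ring
  rw [h] at h3
  exact (((h1.add h2).mulr (OP.one.neg.pow (p / 2))).sub h3).congr (by ring)

end Pool.Agent.MP_54d89f_nt.Dv
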