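import Pool.Agent.MP_54d89f_nt.DvA
import Pool.Agent.Mg.F54d89f.Gd312a3
import Pool.Agent.Mg.F54d89f.G755979

section

/-! The half range sum modulo the fourth power of p. -/

namespace Pool.Agent.MP_54d89f_nt.Dv

open Finset

variable {p : ℕ} [hp : Fact p.Prime]

theorem tau_mod (h5 : 5 ≤ p) (a b : ℕ) : OP p 3 (tau p a b - 1) := by
  obtain ⟨β, H, -⟩ := exists_HC h5
  exact ((tau_E h5 H.eps b).three (by norm_num)).pt a

theorem choose_tau (h5 : 5 ≤ p) (a : ℕ) : (((2 * (p * a)).choose (p * a) : ℕ) : ℚ_[p]) =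
    ((2 * a).choose a : ℕ) * tau p a a := by
  obtain ⟨β, H, -⟩ := exists_HC h5
  rw [two_mul, two_mul]
  exact choose_pmul h5 H.eps a a

theorem prod_one_add {k : ℕ} (n : ℕ) (x : ℕ → ℚ_[p]) (hx : ∀ i < n, OP p k (x i)) :
    OP p (k + k) (∏ i ∈ range n, (1 + x i) - 1 - ∑ i ∈ range n, x i) := by
  induction n with
  | zero => simpa using OP.zero (p := p) (k + k)
  | succ n ih =>
    have h1 := ih fun i hi => hx i (by omega)
    have h2 := hx n (by omega)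
    have h3 : OP p k (∑ i ∈ range n, x i) :=
      OP.sum _ _ fun i hi => hx i (by have := mem_range.1 hi; omega)
    rw [prod_range_succ, sum_range_succ]
    exact ((h1.mulr (OP.one.add (h2.mono (Nat.zero_le _)))).add (h3.mul h2)).congr (by ring)

theorem A2_mod (h5 : 5 ≤ p) : OP p 1 (∑ i ∈ Ico 1 (p / 2 + 1), ((i : ℚ_[p]) ^ 2)⁻¹) := by
  have hh := odd_p h5
  have h1 := (gsq_both h5 (k := 1) (h := p / 2) le_rfl (by rw [pow_one]; exact hh)).1
  refine h1.congr (sum_congr rfl fun i hi => ?_)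
  rw [mem_Ico] at hi
  rw [gsq, if_neg (not_dvd_of_lt (by omega) (by omega))]

theorem sq_prod (h5 : 5 ≤ p) {c : ℚ_[p]} (hc : OP p 0 c) :
    OP p 3 (∏ i ∈ range (p / 2), (1 + -((p : ℚ_[p]) ^ 2 * c * (((i : ℚ_[p]) + 1) ^ 2)⁻¹)) - 1) := by
  have hh := odd_p h5
  have h1 := prod_one_add (p := p) (k := 2) (p / 2)
    (fun i => -((p : ℚ_[p]) ^ 2 * c * (((i : ℚ_[p]) + 1) ^ 2)⁻¹)) fun i hi => by
      have := inv_pow_int (p := p) (i := i + 1) (by omega) (by omega) 2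
      push_cast at this
      exact (((OP.ppow 2).mulr hc).mulr this).neg
  have h2 := A2_mod h5
  rw [Ico_range, Nat.add_sub_cancel] at h2
  push_cast at h2
  refine ((h1.mono (show 3 ≤ 2 + 2 by norm_num)).sub (((OP.ppow 2).mulr hc).mul h2)).congr ?_
  rw [sum_neg_distrib, ← mul_sum]
  ring

theorem prod_cast_fact {K : Type*} [Field K] (n : ℕ) :
    ∏ i ∈ range n, ((i : K) + 1) = (n.factorial : ℕ) := by
  rw [← prod_range_add_one_eq_factorial]; push_cast; rfl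

theorem prod_sq_eq {K : Type*} [Field K] [CharZero K] (n : ℕ) (x d : K) (hd : d ≠ 0) :
    ∏ i ∈ range n, (x - d * ((i : K) + 1) ^ 2) = (-d) ^ n * (n.factorial : ℕ) ^ 2 *
      ∏ i ∈ range n, (1 + -(x * d⁻¹ * (((i : K) + 1) ^ 2)⁻¹)) := by
  rw [← prod_cast_fact, ← prod_pow, ← card_range n, ← prod_const, card_range, ← prod_mul_distrib,
    ← prod_mul_distrib]
  refine prod_congr rfl fun i _ => ?_
  have : (i : K) + 1 ≠ 0 := Nat.cast_add_one_ne_zero i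
  field_simp
  ring

theorem morley (h5 : 5 ≤ p) : OP p 3 ((((2 * (p / 2)).choose (p / 2) : ℕ) : ℚ_[p]) -
    (-1) ^ (p / 2) * 16 ^ (p / 2)) := by
  have hh := odd_p h5
  obtain ⟨h, hd⟩ : ∃ h, h = p / 2 := ⟨_, rfl⟩
  have hw := sq_prod h5 ((OP.inv2 h5).mulr (OP.inv2 h5))
  rw [← hd] at hh hw ⊢
  have hp' : (p : ℚ_[p]) = 2 * h + 1 := by exact_mod_cast hh
  have h1 := odf_pos (K := ℚ_[p]) p
  have h2 := choose_tau h5 1
  rw [mul_one] at h2
  have h3 : odf (2 * (p : ℚ_[p]) - 1) p =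
      p * ∏ i ∈ range h, ((p : ℚ_[p]) ^ 2 - 4 * ((i : ℚ_[p]) + 1) ^ 2) := by
    have e : odf (2 * (p : ℚ_[p]) - 1) p = odf (2 * (p : ℚ_[p]) - 1) (h + (h + 1)) := by
      congr 1; omega
    rw [e, odf, prod_range_add, prod_range_succ', ← prod_range_reflect, ← mul_assoc,
      ← prod_mul_distrib, mul_comm]
    congr 1
    · push_cast; rw [hp']; ring
    · refine prod_congr rfl fun i hi => ?_
      have hi' := mem_range.1 hi
      rw [show h - 1 - i = h - (i + 1) by omega, Nat.cast_sub hi']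
      push_cast; rw [hp']; ring
  rw [prod_sq_eq _ _ _ (by norm_num)] at h3
  have h4 : ((p.factorial : ℕ) : ℚ_[p]) =
      p * (((2 * h).choose h : ℕ) * (h.factorial : ℕ) ^ 2) := by
    have e1 : p.factorial = p * ((2 * h).choose h * h.factorial ^ 2) := by
      have := Nat.choose_mul_factorial_mul_factorial (show h ≤ 2 * h by omega)
      rw [show 2 * h - h = h by omega] at this
      rw [sq, ← mul_assoc ((2 * h).choose h), this]
      conv_lhs => rw [hh, Nat.factorial_succ, ← hh]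
    exact_mod_cast e1
  have h6 : (2 : ℚ_[p]) ^ p = 2 * 4 ^ h := by
    have : (2 : ℚ_[p]) ^ p = 2 ^ (2 * h + 1) := by congr 1
    rw [this, pow_succ, pow_mul]; ring
  rw [h2, h3, h4, h6] at h1
  set w := ∏ i ∈ range h, (1 + -((p : ℚ_[p]) ^ 2 * 4⁻¹ * (((i : ℚ_[p]) + 1) ^ 2)⁻¹)) with hwd
  have hw' : OP p 3 (w - 1) := by
    refine hw.congr ?_
    rw [hwd]; norm_num
  have h7 : (-1) ^ h * 16 ^ h * w = ((2 * h).choose h : ℕ) * tau p 1 1 := by
    have f1 := fact_ne (K := ℚ_[p]) h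
    have f2 := OP.p_ne (p := p)
    have f3 : (-4 : ℚ_[p]) ^ h * 4 ^ h = (-1) ^ h * 16 ^ h := by
      rw [← mul_pow, ← mul_pow]; norm_num
    apply mul_left_cancel₀ (mul_ne_zero (mul_ne_zero two_ne_zero f2) (pow_ne_zero 2 f1))
    norm_num at h1
    linear_combination h1 - (2 * p * (h.factorial : ℕ) ^ 2 * w) * f3
  refine ((hw'.mulr ((OP.one.neg.pow h).mulr ((OP.ofNat 16).pow h))).sub
    ((tau_mod h5 1 1).mulr (OP.nat ((2 * h).choose h)))).congr ?_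
  linear_combination h7

theorem ZZ_shift {K : Type*} [Field K] (h : ℕ) (l : K) :
    ZZ h (l - 1) * ((l - 1) * (l + h)) = ZZ h l * (l * (l - 1 - h)) := by
  induction h with
  | zero => simp [ZZ, mul_comm]
  | succ h ih =>
    simp only [ZZ, prod_range_succ] at ih ⊢
    push_cast
    linear_combination ((l - h - 2) * (l + h + 1)) * ih

/-- normalised values -/
noncomputable def zz (p : ℕ) [Fact p.Prime] (y : ℕ) : ℚ_[p] :=
  ZZ (p / 2) ((p : ℚ_[p]) - y) / ((p / 2).factorial : ℕ) ^ 2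

theorem zz_zero (h5 : 5 ≤ p) : OP p 3 (zz p 0 - (-1) ^ (p / 2)) := by
  have h1 := prod_sq_eq (p / 2) ((p : ℚ_[p]) ^ 2) 1 one_ne_zero
  have f1 := fact_ne (K := ℚ_[p]) (p / 2)
  simp only [one_mul] at h1
  refine ((sq_prod h5 (OP.inv_of_norm norm_one)).mulr (OP.one.neg.pow (p / 2))).congr ?_
  rw [zz, ZZ, Nat.cast_zero, sub_zero, h1]
  field_simp

theorem zz_step (y : ℕ) : zz p (y + 1) * ((p - y - 1) * (p - y + (p / 2 : ℕ))) =
    zz p y * ((p - y) * (p - y - 1 - (p / 2 : ℕ))) := by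
  have := ZZ_shift (p / 2) ((p : ℚ_[p]) - y)
  unfold zz
  rw [show ((p : ℚ_[p]) - ((y + 1 : ℕ) : ℚ_[p])) = p - y - 1 by push_cast; ring,
    div_mul_eq_mul_div, this, div_mul_eq_mul_div]

theorem norm_sub_unit {t : ℚ_[p]} (ht : OP p 1 t) {m : ℕ} (h0 : 0 < m) (h1 : m < p) :
    ‖t - m‖ = 1 := by
  have hu := not_dvd_of_lt (p := p) h0 h1
  have hne := OP.nat_ne hu
  have h2 : ‖1 - t * (m : ℚ_[p])⁻¹‖ = 1 :=
    OP.norm_one_add ((ht.mulr (OP.inv_nat hu)).neg.congr (by ring))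
  have : t - m = -(m * (1 - t * (m : ℚ_[p])⁻¹)) := by field_simp; ring
  rw [this, norm_neg, norm_mul, h2, OP.norm_nat hu, one_mul]

theorem of_unit_mul {k : ℕ} {u x : ℚ_[p]} (hu : ‖u‖ = 1) (h : OP p k (x * u)) : OP p k x := by
  unfold OP at *
  rwa [norm_mul, hu, mul_one] at h

theorem zz_mod (h5 : 5 ≤ p) (y : ℕ) (hy : y + 1 ≤ p / 2) :
    OP p 2 (((y : ℚ_[p]) + 1) * zz p (y + 1) + p * (-1) ^ (p / 2)) := by
  have hh := odd_p h5
  have hp' : (p : ℚ_[p]) = 2 * (p / 2 : ℕ) + 1 := by exact_mod_cast hh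
  have hε := OP.one (p := p).neg.pow (p / 2)
  have u1 : ∀ y : ℕ, y + 1 ≤ p / 2 → ‖((p : ℚ_[p]) - y - 1) * (p - y + (p / 2 : ℕ))‖ = 1 := by
    intro y hy
    have a1 := norm_sub_unit (p := p) OP.self (m := y + 1) (by omega) (by omega)
    have a2 := norm_sub_unit (p := p) OP.self.neg (m := p / 2 - y) (by omega) (by omega)
    rw [Nat.cast_sub (by omega), ← norm_neg] at a2
    push_cast at a1
    rw [norm_mul, sub_sub, a1, one_mul, ← a2]
    congr 1; ring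
  induction y with
  | zero =>
    refine of_unit_mul (u1 0 hy) ?_
    have h1 := zz_step (p := p) 0
    have h2 := OP.self.mul (((zz_zero h5).mono (show 1 ≤ 3 by norm_num)).mulr (OP.nat (p / 2)))
    have h3 := (OP.ppow (p := p) 2).mulr
      (hε.mulr (((OP.nat p).add (OP.nat (p / 2))).sub OP.one))
    refine (h2.add h3).congr ?_
    simp only [Nat.cast_zero, sub_zero, zero_add] at h1 ⊢
    linear_combination -h1 - (zz p 0 * p) * hp'
  | succ y ih =>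
    have h0 := ih (by omega)
    have u2 : ‖((y + 1 : ℕ) : ℚ_[p])‖ = 1 := OP.norm_nat (not_dvd_of_lt (by omega) (by omega))
    refine of_unit_mul (u1 (y + 1) hy) (of_unit_mul u2 ?_)
    have h1 := zz_step (p := p) (y + 1)
    have hY := OP.nat (p := p) (y + 1)
    have hH := OP.nat (p := p) (p / 2)
    have h2 := h0.mulr (((hY.add OP.one).mulr ((OP.nat p).sub hY)).mulr (hH.sub hY))
    have h3 := (OP.ppow (p := p) 2).mulr (hε.mulr
      (((hY.mulr (OP.nat p)).sub (hH.sub hY)).sub (hY.mulr (hY.add OP.one))))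
    refine (h2.add h3).congr ?_
    push_cast at h1 ⊢
    linear_combination (-((y : ℚ_[p]) + 2) * (y + 1)) * h1 -
      (((y : ℚ_[p]) + 2) * (y + 1) * zz p (y + 1) * (p - (y + 1))) * hp'

theorem zz_eq_zero {y : ℕ} (h1 : p / 2 < y) (h2 : y < p) (h5 : 5 ≤ p) : zz p y = 0 := by
  have hh := odd_p h5
  rw [zz, ZZ, prod_eq_zero (i := p - y - 1) (mem_range.2 (by omega)), zero_div]
  have : ((p - y - 1 : ℕ) : ℚ_[p]) + 1 = p - y := by
    rw [← Nat.cast_sub h2.le]; exact_mod_cast (by omega : p - y - 1 + 1 = p - y)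
  rw [this, sub_self]

theorem choose_p_mod {j : ℕ} (hj : j + 1 < p) : OP p 2 ((-1 : ℚ_[p]) ^ (j + 1) *
    (p.choose (j + 1) : ℕ) + p * (((j + 1 : ℕ) : ℚ_[p]))⁻¹) := by
  have hu := not_dvd_of_lt (p := p) (i := j + 1) (by omega) hj
  have hne := OP.nat_ne hu
  have h1 := Nat.add_one_mul_choose_eq (p - 1) j
  rw [show p - 1 + 1 = p by omega] at h1
  have h2 := congrArg (fun x : ℕ => (x : ℚ_[p])) h1
  simp only [Nat.cast_mul] at h2
  have h3 := choose_pm1 (p := p) (l := j) (by omega)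
  have h4 : OP p 1 ((-1 : ℚ_[p]) ^ j * ((p - 1).choose j : ℕ) - 1) :=
    ((h3.mono (by norm_num)).sub (OP.self.mulr (Hn_int (l := j) (by omega)))).congr (by ring)
  refine ((OP.self.mul h4).mulr (OP.inv_nat hu)).neg.congr ?_
  field_simp
  linear_combination (-(-1) ^ j) * h2

theorem even_sum {K : Type*} [Field K] (f : ℕ → K) (h : ℕ) :
    ∑ c ∈ Ico 1 (h + 1), (1 + (-1) ^ c) * f c =
      ∑ j ∈ range h, if 2 * (j + 1) ≤ h then 2 * f (2 * (j + 1)) else 0 := by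
  have h1 : ∑ c ∈ Ico 1 (h + 1), (1 + (-1) ^ c) * f c =
      ∑ c ∈ (Ico 1 (h + 1)).filter Even, 2 * f c := by
    rw [sum_filter]
    refine sum_congr rfl fun c _ => ?_
    split_ifs with hc
    · rw [hc.neg_one_pow]; ring
    · rw [(Nat.not_even_iff_odd.1 hc).neg_one_pow]; ring
  rw [h1, ← sum_filter]
  symm
  refine sum_nbij' (fun j => 2 * (j + 1)) (fun c => c / 2 - 1) ?_ ?_ ?_ ?_ ?_
  all_goals intro a ha; simp only [mem_filter, mem_range, mem_Ico, Nat.even_iff] at *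
  · omega
  · omega
  · omega
  · omega

theorem AA_mod (h5 : 5 ≤ p) {e : ℚ_[p]}
    (he : OP p 1 (∑ c ∈ Ico 1 (p / 2 + 1), (-1 : ℚ_[p]) ^ c * ((c : ℚ_[p]) ^ 2)⁻¹ -
      2 * (-1) ^ (p / 2) * e)) :
    OP p 3 (AA ℚ_[p] (p / 2) - (-1) ^ (p / 2) - 2 * p ^ 2 * e) := by
  have hh := odd_p h5
  have hp' : (p : ℚ_[p]) = 2 * (p / 2 : ℕ) + 1 := by exact_mod_cast hh
  have hε := OP.one (p := p).neg.pow (p / 2)
  have h1 : AA ℚ_[p] (p / 2) = ∑ j ∈ range (p / 2), (-1 : ℚ_[p]) ^ (j + 1) *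
      (p.choose (j + 1) : ℕ) * zz p (2 * (j + 1)) + zz p 0 := by
    rw [AA, DD, ← hh, ← hp', sum_div, sum_range_succ']
    congr 1
    · refine sum_congr rfl fun j _ => ?_
      rw [zz, mul_div_assoc]; push_cast; rfl
    · simp [zz]
  have h2 : OP p 3 (∑ j ∈ range (p / 2), (-1 : ℚ_[p]) ^ (j + 1) * (p.choose (j + 1) : ℕ) *
      zz p (2 * (j + 1)) - (-1) ^ (p / 2) * p ^ 2 *
      ∑ c ∈ Ico 1 (p / 2 + 1), (1 + (-1) ^ c) * ((c : ℚ_[p]) ^ 2)⁻¹) := by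
    rw [even_sum (fun c : ℕ => ((c : ℚ_[p]) ^ 2)⁻¹), mul_sum, ← sum_sub_distrib]
    refine OP.sum _ _ fun j hj => ?_
    have hj' := mem_range.1 hj
    split_ifs with hc
    · have a := choose_p_mod (p := p) (j := j) (by omega)
      have b := zz_mod h5 (2 * j + 1) (by omega)
      have hu := not_dvd_of_lt (p := p) (i := j + 1) (by omega) (by omega)
      have hne := OP.nat_ne hu
      have hi := OP.inv_nat hu
      rw [show 2 * j + 1 + 1 = 2 * (j + 1) by ring] at b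
      refine (((((a.mul b).mono (show 3 ≤ 2 + 2 by norm_num)).sub ((a.mul OP.self).mulr hε)).sub
        ((b.mul OP.self).mulr hi)).mulr (hi.mulr (OP.inv2 h5))).congr ?_
      push_cast at hne ⊢
      field_simp
      ring
    · rw [zz_eq_zero (by omega) (by omega) h5]
      simpa using OP.zero (p := p) 3
  have h3 := ((OP.ppow 2).mul ((A2_mod h5).add he)).mulr hε
  have h4 : ((-1 : ℚ_[p]) ^ (p / 2)) * (-1) ^ (p / 2) = 1 := by rw [← mul_pow]; simp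
  simp only [add_mul, one_mul, sum_add_distrib] at h2
  rw [h1]
  refine ((h2.add h3).add (zz_zero h5)).congr ?_
  linear_combination (-2 * (p : ℚ_[p]) ^ 2 * e) * h4

theorem item4 (h5 : 5 ≤ p) {e : ℚ_[p]}
    (he : OP p 1 (∑ c ∈ Ico 1 (p / 2 + 1), (-1 : ℚ_[p]) ^ c * ((c : ℚ_[p]) ^ 2)⁻¹ -
      2 * (-1) ^ (p / 2) * e)) :
    OP p 4 (SS ℚ_[p] (p / 2 + 1) - p - 2 * (-1) ^ (p / 2) * p ^ 3 * e) := by
  have hh := odd_p h5
  have hp' : (p : ℚ_[p]) = 2 * (p / 2 : ℕ) + 1 := by exact_mod_cast hh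
  have hε := OP.one (p := p).neg.pow (p / 2)
  have h1 := closed_form (K := ℚ_[p]) (p / 2)
  rw [cb_succ, ← hp'] at h1
  have h2 := AA_mod h5 he
  have h3 := morley h5
  have h4 : ((-1 : ℚ_[p]) ^ (p / 2)) * (-1) ^ (p / 2) = 1 := by rw [← mul_pow]; simp
  have h16 : ‖(16 : ℚ_[p]) ^ (p / 2)‖ = 1 := by
    rw [norm_pow, show (16 : ℚ_[p]) = 2 ^ 4 by norm_num, norm_pow, ntwo h5]; simp
  have hA : OP p 0 (AA ℚ_[p] (p / 2)) := by rw [AA_int]; exact OP.int _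
  refine of_unit_mul h16 ?_
  refine (OP.self.mul ((h3.mulr hA).add ((h2.mulr hε).mulr ((OP.ofNat 16).pow (p / 2))))).congr ?_
  linear_combination (-1 / 2) * h1 - ((p : ℚ_[p]) * 16 ^ (p / 2)) * h4

end Pool.Agent.MP_54d89f_nt.Dv

end

section

/-! The tail of the sum and the half range congruence for all odd n. -/

namespace Pool.Agent.MP_54d89f_nt.Dv

open Finset

section tail
variable {K : Type*} [Field K] [CharZero K]

/-- the hypergeometric term -/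
def aa (K : Type*) [Field K] (k : ℕ) : K := ((2 * k).choose k : ℕ) ^ 3 / 16 ^ k

theorem aa_succ (k : ℕ) : aa K (k + 1) * (2 * ((k : K) + 1) ^ 3) = aa K k * (2 * k + 1) ^ 3 := by
  have h := cb_succ (K := K) k
  have h3 : (16 : K) ^ k ≠ 0 := pow_ne_zero _ (by norm_num)
  have h4 := congrArg (fun x : K => x ^ 3) h
  unfold aa
  field_simp
  linear_combination (16 ^ k * 2) * h4

theorem aa_ne (k : ℕ) : aa K k ≠ 0 :=
  div_ne_zero (pow_ne_zero _ (by exact_mod_cast (Nat.choose_pos (by omega)).ne'))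
    (pow_ne_zero _ (by norm_num))

/-- ratio of terms -/
def bt (x : K) : ℕ → K
  | 0 => 2 * ((2 * x - 1)⁻¹) ^ 3
  | j + 1 => bt x j * (2 * (x - (j + 1)) ^ 3 * ((2 * x - (2 * j + 3))⁻¹) ^ 3)

theorem aa_down (j k : ℕ) :
    aa K k = aa K (k + j + 1) * ((k : K) + j + 1) ^ 3 * bt ((k : K) + j + 1) j := by
  have h1 : 2 * (k : K) + 1 ≠ 0 := by exact_mod_cast (by omega : 2 * k + 1 ≠ 0)
  have h2 := aa_succ (K := K) k
  induction j generalizing k with
  | zero =>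
    simp only [bt, Nat.cast_zero, add_zero]
    rw [show 2 * ((k : K) + 1) - 1 = 2 * k + 1 by ring]
    generalize 2 * (k : K) + 1 = w at *
    field_simp
    linear_combination -h2
  | succ j ih =>
    have h3 := ih (k + 1) (by exact_mod_cast (by omega : 2 * (k + 1) + 1 ≠ 0)) (aa_succ _)
    rw [show k + 1 + j + 1 = k + (j + 1) + 1 by ring,
      show ((k + 1 : ℕ) : K) + j + 1 = k + ((j + 1 : ℕ) : K) + 1 by push_cast; ring] at h3
    rw [bt, ← mul_assoc, ← h3,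
      show 2 * ((k : K) + ((j + 1 : ℕ) : K) + 1) - (2 * j + 3) = 2 * k + 1 by push_cast; ring,
      show ((k : K) + ((j + 1 : ℕ) : K) + 1) - (j + 1) = k + 1 by push_cast; ring]
    generalize 2 * (k : K) + 1 = w at *
    field_simp
    linear_combination -h2

/-- the normalised tail -/
def tl (h : ℕ) (x : K) : K := ∑ j ∈ range h, (3 * (x - (j + 1)) + 1) * bt x j

theorem SS_tail (M h : ℕ) : SS K (M + h) =
    SS K M + aa K (M + h) * ((M + h : ℕ) : K) ^ 3 * tl h ((M + h : ℕ) : K) := by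
  rw [SS, sum_range_add, ← SS, tl, mul_sum, ← sum_range_reflect]
  congr 1
  refine sum_congr rfl fun j hj => ?_
  have hj' := mem_range.1 hj
  have h1 := aa_down (K := K) j (M + (h - 1 - j))
  have h2 : M + (h - 1 - j) + j + 1 = M + h := by omega
  have h3 : ((M + (h - 1 - j) : ℕ) : K) + j + 1 = ((M + h : ℕ) : K) := by exact_mod_cast h2
  rw [h2, h3] at h1
  rw [mul_div_assoc, ← aa, h1, ← h3]
  ring

end tail

variable {p : ℕ} [hp : Fact p.Prime]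

/-- congruent p-adic integers -/
def Cg (p : ℕ) [Fact p.Prime] (x y : ℚ_[p]) : Prop := OP p 0 x ∧ OP p 0 y ∧ OP p 1 (x - y)

theorem Cg.const {x : ℚ_[p]} (h : OP p 0 x) : Cg p x x := ⟨h, h, (OP.zero 1).congr (by ring)⟩

theorem Cg.add {x y z w : ℚ_[p]} (h : Cg p x y) (h' : Cg p z w) : Cg p (x + z) (y + w) :=
  ⟨h.1.add h'.1, h.2.1.add h'.2.1, (h.2.2.add h'.2.2).congr (by ring)⟩

theorem Cg.sub {x y z w : ℚ_[p]} (h : Cg p x y) (h' : Cg p z w) : Cg p (x - z) (y - w) :=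
  ⟨h.1.sub h'.1, h.2.1.sub h'.2.1, (h.2.2.sub h'.2.2).congr (by ring)⟩

theorem Cg.mul {x y z w : ℚ_[p]} (h : Cg p x y) (h' : Cg p z w) : Cg p (x * z) (y * w) :=
  ⟨h.1.mulr h'.1, h.2.1.mulr h'.2.1,
    ((h.2.2.mulr h'.1).add (h'.2.2.mulr h.2.1)).congr (by ring)⟩

theorem Cg.pow {x y : ℚ_[p]} (h : Cg p x y) (e : ℕ) : Cg p (x ^ e) (y ^ e) :=
  ⟨h.1.pow e, h.2.1.pow e, OP.pow_sub h.1 h.2.1 h.2.2 e⟩

theorem Cg.inv {x y : ℚ_[p]} (h : Cg p x y) (hx : ‖x‖ = 1) (hy : ‖y‖ = 1) : Cg p x⁻¹ y⁻¹ := by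
  have h1 := ne_of_unit hx
  have h2 := ne_of_unit hy
  refine ⟨OP.inv_of_norm hx, OP.inv_of_norm hy,
    ((h.2.2.neg.mulr (OP.inv_of_norm hx)).mulr (OP.inv_of_norm hy)).congr ?_⟩
  field_simp
  ring

theorem bt_cg (h5 : 5 ≤ p) {x y : ℚ_[p]} (hx : OP p 1 x) (hy : OP p 1 y) (j : ℕ)
    (hj : j < p / 2) : Cg p (bt x j) (bt y j) := by
  have hh := odd_p h5
  have hxy : Cg p x y := ⟨hx.mono (by norm_num), hy.mono (by norm_num), hx.sub hy⟩
  have h2 : Cg p 2 2 := Cg.const (OP.ofNat 2)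
  have key : ∀ m : ℕ, 0 < m → m < p → Cg p (2 * x - m)⁻¹ (2 * y - m)⁻¹ := fun m h0 h1 =>
    ((h2.mul hxy).sub (Cg.const (OP.nat m))).inv
      (norm_sub_unit ((OP.ofNat 2).mull hx) h0 h1) (norm_sub_unit ((OP.ofNat 2).mull hy) h0 h1)
  induction j with
  | zero =>
    have := key 1 one_pos (by omega)
    rw [Nat.cast_one] at this
    exact h2.mul (this.pow 3)
  | succ j ih =>
    have := key (2 * j + 3) (by omega) (by omega)
    push_cast at this
    exact (ih (by omega)).mul ((h2.mul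
      ((hxy.sub (Cg.const ((OP.nat j).add OP.one))).pow 3)).mul (this.pow 3))

theorem tl_cg (h5 : 5 ≤ p) {x y : ℚ_[p]} (hx : OP p 1 x) (hy : OP p 1 y) :
    Cg p (tl (p / 2) x) (tl (p / 2) y) := by
  have hxy : Cg p x y := ⟨hx.mono (by norm_num), hy.mono (by norm_num), hx.sub hy⟩
  have key : ∀ j ∈ range (p / 2), Cg p ((3 * (x - (j + 1)) + 1) * bt x j)
      ((3 * (y - (j + 1)) + 1) * bt y j) := fun j hj =>
    (((Cg.const (OP.ofNat 3)).mul (hxy.sub (Cg.const ((OP.nat j).add OP.one)))).add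
      (Cg.const OP.one)).mul (bt_cg h5 hx hy j (mem_range.1 hj))
  refine ⟨OP.sum _ _ fun j hj => (key j hj).1, OP.sum _ _ fun j hj => (key j hj).2.1, ?_⟩
  rw [tl, tl, ← sum_sub_distrib]
  exact OP.sum _ _ fun j hj => (key j hj).2.2

theorem aa_pmul (h5 : 5 ≤ p) (μ : ℕ) :
    ∃ ρ : ℚ_[p], Cg p ρ 1 ∧ aa ℚ_[p] (p * μ) = aa ℚ_[p] μ * ρ := by
  have h16 : ‖(16 : ℚ_[p])‖ = 1 := by
    rw [show (16 : ℚ_[p]) = 2 ^ 4 by norm_num, norm_pow, ntwo h5]; simp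
  have h1 : Cg p (tau p μ μ) 1 := by
    have := tau_mod h5 μ μ
    exact ⟨((this.mono (Nat.zero_le _)).add OP.one).congr (by ring), OP.one,
      this.mono (by norm_num)⟩
  have h2 : Cg p ((2 : ℚ_[p]) ^ (p - 1)) 1 := by
    have := OP.fermat (p := p) (n := 2) (not_dvd_of_lt (by omega) (by omega))
    exact ⟨(OP.ofNat 2).pow _, OP.one, by simpa using this⟩
  have h3 : Cg p ((16 : ℚ_[p]) ^ ((p - 1) * μ)) 1 := by
    have := h2.pow (4 * μ)
    rwa [one_pow, ← pow_mul, show (p - 1) * (4 * μ) = 4 * ((p - 1) * μ) by ring, pow_mul,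
      show (2 : ℚ_[p]) ^ 4 = 16 by norm_num] at this
  have h4 := (h1.pow 3).mul (h3.inv (by rw [norm_pow, h16, one_pow]) norm_one)
  refine ⟨_, by simpa only [one_pow, inv_one, mul_one] using h4, ?_⟩
  have h6 : p * μ = μ + (p - 1) * μ := by
    conv_lhs => rw [show p = 1 + (p - 1) by omega, add_mul, one_mul]
  have h7 : (16 : ℚ_[p]) ^ (p * μ) = 16 ^ μ * 16 ^ ((p - 1) * μ) := by rw [← pow_add, ← h6]
  rw [aa, aa, choose_tau h5, h7]
  field_simp

theorem full_form (h5 : 5 ≤ p) (μ : ℕ) (hμ : 1 ≤ μ) : ∃ x : ℚ_[p], OP p 0 x ∧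
    SS ℚ_[p] (p * μ) - p * SS ℚ_[p] μ = x * ((p : ℚ_[p]) * μ) ^ 4 * aa ℚ_[p] μ := by
  have h := final_padic h5 μ hμ
  rw [Phi_half, Phi_half, ← SS, ← SS] at h
  have h1 : OP p 1 _ := le_of_le_of_eq h (pow_one _).symm
  have h2 := bern_int (p := p) (p - 3) (by omega)
  have h3 := (h1.mono (Nat.zero_le _)).add (((OP.ofNat 7).mulr (OP.inv3 h5)).mulr h2)
  rw [← div_eq_mul_inv, sub_add_cancel] at h3
  refine ⟨_, h3, ?_⟩
  have f1 := OP.p_ne (p := p)
  have f2 : (μ : ℚ_[p]) ≠ 0 := by exact_mod_cast (by omega : μ ≠ 0)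
  have f3 : (((2 * μ).choose μ : ℕ) : ℚ_[p]) ≠ 0 := by
    exact_mod_cast (Nat.choose_pos (by omega)).ne'
  rw [aa]
  field_simp

theorem half_form (h5 : 5 ≤ p) (m : ℕ) :
    OP p 1 (2 * ((SS ℚ_[p] (p * m + p / 2 + 1) - p * SS ℚ_[p] (m + 1)) /
      (((p : ℚ_[p]) * (2 * m + 1)) ^ 3 * aa ℚ_[p] m)) + tl (p / 2) (p : ℚ_[p])) := by
  have hh := odd_p h5
  obtain ⟨x, hx, e1⟩ := full_form h5 (m + 1) (by omega)
  obtain ⟨ρ, hρ, e2⟩ := aa_pmul h5 (m + 1)
  have e3 := SS_tail (K := ℚ_[p]) (p * m + p / 2 + 1) (p / 2)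
  rw [show p * m + p / 2 + 1 + p / 2 = p * (m + 1) by rw [mul_add]; omega, e2] at e3
  have e4 := aa_succ (K := ℚ_[p]) m
  have hN : OP p 1 ((p * (m + 1) : ℕ) : ℚ_[p]) := by
    rw [Nat.cast_mul]; exact OP.self.mulr (OP.nat _)
  have h1 := hρ.mul (tl_cg h5 hN OP.self)
  refine ((hx.mull hN).sub h1.2.2).congr ?_
  have f1 := OP.p_ne (p := p)
  have f2 : (m : ℚ_[p]) + 1 ≠ 0 := Nat.cast_add_one_ne_zero m
  have f3 := aa_ne (K := ℚ_[p]) (m + 1)
  have e5 : ((p : ℚ_[p]) * (2 * m + 1)) ^ 3 * aa ℚ_[p] m =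
      2 * (p * (m + 1)) ^ 3 * aa ℚ_[p] (m + 1) := by linear_combination (-(p : ℚ_[p]) ^ 3) * e4
  have e6 : SS ℚ_[p] (p * m + p / 2 + 1) - p * SS ℚ_[p] (m + 1) =
      ((p : ℚ_[p]) * (m + 1)) ^ 3 * aa ℚ_[p] (m + 1) *
        (x * (p * (m + 1)) - ρ * tl (p / 2) ((p * (m + 1) : ℕ) : ℚ_[p])) := by
    generalize tl (p / 2) ((p * (m + 1) : ℕ) : ℚ_[p]) = t at *
    push_cast at e1 e3
    linear_combination e1 - e3
  rw [e5, e6]
  generalize tl (p / 2) ((p * (m + 1) : ℕ) : ℚ_[p]) = t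
  generalize tl (p / 2) (p : ℚ_[p]) = t'
  generalize aa ℚ_[p] (m + 1) = a at *
  push_cast
  field_simp
  ring

theorem half_padic (h5 : 5 ≤ p) (E : ℕ → ℤ) (h0 : E 0 = 1)
    (hE : ∀ n, 1 ≤ n → ∑ k ∈ (range (n + 1)).filter (fun k => 2 ∣ k),
      (n.choose k : ℤ) * E (n - k) = 0) (m : ℕ) :
    OP p 1 ((SS ℚ_[p] (p * m + p / 2 + 1) - p * SS ℚ_[p] (m + 1)) /
      (((p : ℚ_[p]) * (2 * m + 1)) ^ 3 * aa ℚ_[p] m) - 2 * (-1) ^ (p / 2) * E (p - 3)) := by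
  have h1 := half_form h5 m
  have h2 := half_form h5 0
  have h3 := item4 h5 (euler_mod h5 E h0 hE)
  have f1 := OP.p_ne (p := p)
  have h4 : OP p 1 ((SS ℚ_[p] (p * 0 + p / 2 + 1) - p * SS ℚ_[p] (0 + 1)) /
      (((p : ℚ_[p]) * (2 * (0 : ℕ) + 1)) ^ 3 * aa ℚ_[p] 0) - 2 * (-1) ^ (p / 2) * E (p - 3)) := by
    refine OP.of_ppow_mul (l := 3) (h3.congr ?_)
    have a1 : SS ℚ_[p] (0 + 1) = 1 := by simp [SS]
    have a2 : aa ℚ_[p] 0 = 1 := by simp [aa]
    rw [a1, a2, mul_zero, zero_add]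
    generalize SS ℚ_[p] (p / 2 + 1) = s
    field_simp
    push_cast
    ring
  exact (((h1.sub h2).mulr (OP.inv2 h5)).add h4).congr (by ring)

end Pool.Agent.MP_54d89f_nt.Dv

end
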